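import Pool.Agent.H306R2.SM.Defs

/-!
T6C: the bound of the three-variable Hurwitz function to the left of the critical strip.
-/

set_option autoImplicit false
set_option maxHeartbeats 1000000

open Finset Filter Topology MeasureTheory Complex
open Pool.Agent.H306R2 Pool.Agent.H306R2.SM

namespace Pool.Agent.H930R2.T6C

noncomputable section

/-! ### triple sums -/

lemma triple_bound {α : Type} [Fintype α] (Φ : α → α → α → ℂ) (A1 A2 A3 : ℕ → α → ℂ)
    (E1 E2 E3 : α → ℂ) (h1 : ∀ x, HasSum (fun m => A1 m x) (E1 x))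
    (h2 : ∀ x, HasSum (fun m => A2 m x) (E2 x)) (h3 : ∀ x, HasSum (fun m => A3 m x) (E3 x))
    (B P Q : ℝ) (p q : ℕ → ℝ) (hp : HasSum p P) (hq : HasSum q Q)
    (hb : ∀ m1 m2 m3, ‖∑ x, ∑ y, ∑ z, Φ x y z * (A1 m1 x * A2 m2 y * A3 m3 z)‖ ≤
      B * p m1 * p m2 * q m3) :
    ‖∑ x, ∑ y, ∑ z, Φ x y z * (E1 x * E2 y * E3 z)‖ ≤ B * P * P * Q := by
  have s3 : ∀ m1 m2, ‖∑ x, ∑ y, ∑ z, Φ x y z * (A1 m1 x * A2 m2 y * E3 z)‖ ≤
      B * p m1 * p m2 * Q := by
    intro m1 m2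
    have hs : HasSum (fun m3 => ∑ x, ∑ y, ∑ z, Φ x y z * (A1 m1 x * A2 m2 y * A3 m3 z))
        (∑ x, ∑ y, ∑ z, Φ x y z * (A1 m1 x * A2 m2 y * E3 z)) :=
      hasSum_sum fun x _ => hasSum_sum fun y _ => hasSum_sum fun z _ =>
        ((h3 z).mul_left _).mul_left _
    exact hs.norm_le_of_bounded (hq.mul_left (B * p m1 * p m2)) fun m3 => hb m1 m2 m3
  have s2 : ∀ m1, ‖∑ x, ∑ y, ∑ z, Φ x y z * (A1 m1 x * E2 y * E3 z)‖ ≤ B * p m1 * P * Q := by
    intro m1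
    have hs : HasSum (fun m2 => ∑ x, ∑ y, ∑ z, Φ x y z * (A1 m1 x * A2 m2 y * E3 z))
        (∑ x, ∑ y, ∑ z, Φ x y z * (A1 m1 x * E2 y * E3 z)) :=
      hasSum_sum fun x _ => hasSum_sum fun y _ => hasSum_sum fun z _ =>
        (((h2 y).mul_left _).mul_right _).mul_left _
    have hg : HasSum (fun m2 => B * p m1 * p m2 * Q) (B * p m1 * P * Q) :=
      (hp.mul_left (B * p m1)).mul_right Q
    exact hs.norm_le_of_bounded hg fun m2 => s3 m1 m2
  have hs : HasSum (fun m1 => ∑ x, ∑ y, ∑ z, Φ x y z * (A1 m1 x * E2 y * E3 z))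
      (∑ x, ∑ y, ∑ z, Φ x y z * (E1 x * E2 y * E3 z)) :=
    hasSum_sum fun x _ => hasSum_sum fun y _ => hasSum_sum fun z _ =>
      (((h1 x).mul_right _).mul_right _).mul_left _
  have hg : HasSum (fun m1 => B * p m1 * P * Q) (B * P * P * Q) :=
    ((hp.mul_left B).mul_right P).mul_right Q
  exact hs.norm_le_of_bounded hg fun m1 => s2 m1

/-! ### the sum of the square roots of the gcd -/

lemma zeta_hasSum {σ : ℝ} (hσ : 1 < σ) :
    HasSum (fun m : ℕ => (m : ℝ) ^ (-σ)) (∑' m : ℕ, (m : ℝ) ^ (-σ)) :=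
  (Real.summable_nat_rpow.2 (by linarith)).hasSum

lemma div_hasSum {σ : ℝ} (hσ : 1 < σ) (d : ℕ) (hd : 1 ≤ d) :
    HasSum (fun m : ℕ => if d ∣ m then Real.sqrt d * (m : ℝ) ^ (-σ) else 0)
      (Real.sqrt d * (d : ℝ) ^ (-σ) * ∑' m : ℕ, (m : ℝ) ^ (-σ)) := by
  have hinj : Function.Injective (fun k : ℕ => d * k) := by
    intro a b hab
    exact Nat.eq_of_mul_eq_mul_left (by omega) hab
  rw [← hinj.hasSum_iff]
  · have h1 := (zeta_hasSum hσ).mul_left (Real.sqrt d * (d : ℝ) ^ (-σ))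
    refine h1.congr_fun fun k => ?_
    simp only [Function.comp_apply]
    rw [if_pos (dvd_mul_right d k)]
    push_cast
    rw [Real.mul_rpow (by positivity) (by positivity)]
    ring
  · intro m hm
    rw [if_neg]
    rintro ⟨k, rfl⟩
    exact hm ⟨k, rfl⟩

lemma gcd_hasSum {σ : ℝ} (hσ : 1 < σ) (h : ℕ) (hh : 1 ≤ h) :
    ∃ P : ℝ, HasSum (fun m : ℕ => Real.sqrt (Nat.gcd m h) * (m : ℝ) ^ (-σ)) P ∧ 0 ≤ P ∧
      P ≤ (h.divisors.card : ℝ) * ∑' m : ℕ, (m : ℝ) ^ (-σ) := by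
  set Z := ∑' m : ℕ, (m : ℝ) ^ (-σ) with hZ
  have hZ0 : 0 ≤ Z := tsum_nonneg fun m => by positivity
  have hdiv : HasSum (fun m : ℕ => ∑ d ∈ h.divisors, if d ∣ m then Real.sqrt d * (m : ℝ) ^ (-σ) else 0)
      (∑ d ∈ h.divisors, Real.sqrt d * (d : ℝ) ^ (-σ) * Z) :=
    hasSum_sum fun d hd => div_hasSum hσ d (Nat.pos_of_mem_divisors hd)
  have hle : ∀ m : ℕ, Real.sqrt (Nat.gcd m h) * (m : ℝ) ^ (-σ) ≤
      ∑ d ∈ h.divisors, if d ∣ m then Real.sqrt d * (m : ℝ) ^ (-σ) else 0 := by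
    intro m
    have hmem : Nat.gcd m h ∈ h.divisors := Nat.mem_divisors.2 ⟨Nat.gcd_dvd_right m h, by omega⟩
    have h1 := Finset.single_le_sum (f := fun d : ℕ => if d ∣ m then Real.sqrt d * (m : ℝ) ^ (-σ) else 0)
      (fun d _ => by
        split_ifs
        · positivity
        · exact le_rfl) hmem
    rw [if_pos (Nat.gcd_dvd_left m h)] at h1
    exact h1
  have hsum : Summable (fun m : ℕ => Real.sqrt (Nat.gcd m h) * (m : ℝ) ^ (-σ)) :=
    Summable.of_nonneg_of_le (fun m => by positivity) hle hdiv.summable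
  refine ⟨_, hsum.hasSum, tsum_nonneg fun m => by positivity, ?_⟩
  refine (hasSum_le hle hsum.hasSum hdiv).trans ?_
  calc ∑ d ∈ h.divisors, Real.sqrt d * (d : ℝ) ^ (-σ) * Z ≤ ∑ d ∈ h.divisors, 1 * Z := by
        apply Finset.sum_le_sum
        intro d hd
        apply mul_le_mul_of_nonneg_right _ hZ0
        have hd1 : (1 : ℝ) ≤ d := by exact_mod_cast Nat.pos_of_mem_divisors hd
        have h1 : Real.sqrt d ≤ d := Real.sqrt_le_self_iff.2 (Or.inr hd1)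
        have h2 : (d : ℝ) ^ (-σ) ≤ (d : ℝ) ^ (-1 : ℝ) :=
          Real.rpow_le_rpow_of_exponent_le hd1 (by linarith)
        rw [Real.rpow_neg_one] at h2
        calc Real.sqrt d * (d : ℝ) ^ (-σ) ≤ (d : ℝ) * (d : ℝ)⁻¹ :=
              mul_le_mul h1 h2 (by positivity) (by positivity)
          _ = 1 := mul_inv_cancel₀ (by positivity)
    _ = (h.divisors.card : ℝ) * Z := by
        rw [Finset.sum_const, nsmul_eq_mul, one_mul]

/-! ### the exponential zeta function at rational points -/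

lemma expZeta_hasSum (h : ℕ) [NeZero h] (x : ZMod h) {w : ℂ} (hw : 1 < w.re) :
    HasSum (fun m : ℕ => (ZMod.stdAddChar ((m : ZMod h) * x) : ℂ) / (m : ℂ) ^ w)
      (HurwitzZeta.expZeta (ZMod.toAddCircle x) w) := by
  rw [ZMod.toAddCircle_apply]
  refine (HurwitzZeta.hasSum_expZeta_of_one_lt_re (x.val / h) hw).congr_fun fun m => ?_
  congr 1
  have e1 : ((m : ZMod h) * x) = (((m : ℤ) * (x.val : ℤ) : ℤ) : ZMod h) := by
    push_cast
    rw [ZMod.natCast_zmod_val]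
  rw [e1, ZMod.stdAddChar_coe]
  congr 1
  push_cast
  ring

lemma gcd_val_natCast (h : ℕ) [NeZero h] (m : ℕ) : Nat.gcd (m : ZMod h).val h = Nat.gcd m h := by
  rw [ZMod.val_natCast, ← Nat.gcd_rec, Nat.gcd_comm]

lemma gcd_val_neg (h : ℕ) [NeZero h] (a : ZMod h) : Nat.gcd (-a).val h = Nat.gcd a.val h := by
  by_cases ha : a = 0
  · rw [ha, neg_zero]
  · have h1 : NeZero a := ⟨ha⟩
    rw [ZMod.val_neg_of_ne_zero]
    have h2 := ZMod.val_lt a
    have h3 : Nat.gcd (h - a.val) h = Nat.gcd a.val h := by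
      rw [Nat.gcd_comm, Nat.gcd_self_sub_right h2.le, Nat.gcd_comm]
    exact h3

/-- sign -/
def sgz (b : Bool) {h : ℕ} (a : ZMod h) : ZMod h := if b then a else -a

lemma gcd_sgz (b : Bool) (h : ℕ) [NeZero h] (m : ℕ) :
    Nat.gcd (sgz b (m : ZMod h)).val h = Nat.gcd m h := by
  cases b
  · simp only [sgz, Bool.false_eq_true, if_false]
    rw [gcd_val_neg, gcd_val_natCast]
  · simp only [sgz, if_true]
    rw [gcd_val_natCast]

lemma sign_bound {σ : ℝ} (hσ : 1 < σ) (h : ℕ) [NeZero h] (Φ : ZMod h → ZMod h → ZMod h → ℂ)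
    (B : ℝ) (hB : FB h Φ B) (hB0 : 0 ≤ B) {w : ℂ} (hw : w.re = σ) (b1 b2 b3 : Bool) :
    ‖∑ x, ∑ y, ∑ z, Φ x y z * (HurwitzZeta.expZeta (ZMod.toAddCircle (sgz b1 x)) w *
      HurwitzZeta.expZeta (ZMod.toAddCircle (sgz b2 y)) w *
      HurwitzZeta.expZeta (ZMod.toAddCircle (sgz b3 z)) w)‖ ≤
      B * ((h.divisors.card : ℝ) * ∑' m : ℕ, (m : ℝ) ^ (-σ)) ^ 2 * ∑' m : ℕ, (m : ℝ) ^ (-σ) := by
  have hh : 1 ≤ h := Nat.pos_of_ne_zero (NeZero.ne h)
  obtain ⟨P, hP, hP0, hPle⟩ := gcd_hasSum hσ h hh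
  set Z := ∑' m : ℕ, (m : ℝ) ^ (-σ) with hZ
  have hZ0 : 0 ≤ Z := tsum_nonneg fun m => by positivity
  have hw1 : 1 < w.re := by rw [hw]; exact hσ
  have key := triple_bound Φ
    (fun m x => (ZMod.stdAddChar ((m : ZMod h) * sgz b1 x) : ℂ) / (m : ℂ) ^ w)
    (fun m x => (ZMod.stdAddChar ((m : ZMod h) * sgz b2 x) : ℂ) / (m : ℂ) ^ w)
    (fun m x => (ZMod.stdAddChar ((m : ZMod h) * sgz b3 x) : ℂ) / (m : ℂ) ^ w)
    (fun x => HurwitzZeta.expZeta (ZMod.toAddCircle (sgz b1 x)) w)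
    (fun x => HurwitzZeta.expZeta (ZMod.toAddCircle (sgz b2 x)) w)
    (fun x => HurwitzZeta.expZeta (ZMod.toAddCircle (sgz b3 x)) w)
    (fun x => expZeta_hasSum h _ hw1) (fun x => expZeta_hasSum h _ hw1)
    (fun x => expZeta_hasSum h _ hw1) B P Z
    (fun m : ℕ => Real.sqrt (Nat.gcd m h) * (m : ℝ) ^ (-σ)) (fun m : ℕ => (m : ℝ) ^ (-σ))
    hP (zeta_hasSum hσ) ?_
  · refine key.trans ?_
    have h1 : P * P ≤ ((h.divisors.card : ℝ) * Z) ^ 2 := by
      rw [sq]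
      exact mul_le_mul hPle hPle hP0 (by positivity)
    calc B * P * P * Z = B * (P * P) * Z := by ring
      _ ≤ B * ((h.divisors.card : ℝ) * Z) ^ 2 * Z := by gcongr
  · intro m1 m2 m3
    have hnorm : ∀ m : ℕ, ‖((m : ℂ) ^ w)⁻¹‖ = (m : ℝ) ^ (-σ) := by
      intro m
      rcases Nat.eq_zero_or_pos m with rfl | hm
      · have hw0 : w ≠ 0 := by
          rintro rfl
          simp at hw1
          linarith
        rw [Nat.cast_zero, Complex.zero_cpow hw0, inv_zero, norm_zero, Nat.cast_zero,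
          Real.zero_rpow (by linarith)]
      · rw [norm_inv, Complex.norm_natCast_cpow_of_pos hm, hw, Real.rpow_neg (by positivity)]
    have hsg : ∀ (b : Bool) (m : ℕ) (x : ZMod h), (m : ZMod h) * sgz b x = sgz b (m : ZMod h) * x := by
      intro b m x
      cases b <;> simp [sgz]
    have e1 : ∑ x, ∑ y, ∑ z, Φ x y z *
        ((ZMod.stdAddChar ((m1 : ZMod h) * sgz b1 x) : ℂ) / (m1 : ℂ) ^ w *
          ((ZMod.stdAddChar ((m2 : ZMod h) * sgz b2 y) : ℂ) / (m2 : ℂ) ^ w) *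
          ((ZMod.stdAddChar ((m3 : ZMod h) * sgz b3 z) : ℂ) / (m3 : ℂ) ^ w)) =
        (((m1 : ℂ) ^ w)⁻¹ * ((m2 : ℂ) ^ w)⁻¹ * ((m3 : ℂ) ^ w)⁻¹) *
          ∑ x, ∑ y, ∑ z, Φ x y z * (ZMod.stdAddChar (sgz b1 (m1 : ZMod h) * x +
            sgz b2 (m2 : ZMod h) * y + sgz b3 (m3 : ZMod h) * z) : ℂ) := by
      simp only [Finset.mul_sum]
      refine Finset.sum_congr rfl fun x _ => Finset.sum_congr rfl fun y _ =>
        Finset.sum_congr rfl fun z _ => ?_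
      rw [AddChar.map_add_eq_mul, AddChar.map_add_eq_mul, hsg, hsg, hsg]
      ring
    rw [e1, norm_mul, norm_mul, norm_mul, hnorm, hnorm, hnorm]
    have h2 := hB (sgz b1 (m1 : ZMod h)) (sgz b2 (m2 : ZMod h)) (sgz b3 (m3 : ZMod h))
    rw [gcd_sgz, gcd_sgz] at h2
    calc (m1 : ℝ) ^ (-σ) * (m2 : ℝ) ^ (-σ) * (m3 : ℝ) ^ (-σ) * _ ≤
          (m1 : ℝ) ^ (-σ) * (m2 : ℝ) ^ (-σ) * (m3 : ℝ) ^ (-σ) *
            (B * Real.sqrt (Nat.gcd m1 h) * Real.sqrt (Nat.gcd m2 h)) :=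
          mul_le_mul_of_nonneg_left h2 (by positivity)
      _ = B * (Real.sqrt (Nat.gcd m1 h) * (m1 : ℝ) ^ (-σ)) *
          (Real.sqrt (Nat.gcd m2 h) * (m2 : ℝ) ^ (-σ)) * (m3 : ℝ) ^ (-σ) := by ring

/-! ### the Gamma function -/

lemma gamma_half (τ : ℝ) :
    ‖Complex.Gamma (1 / 2 + (τ : ℂ) * I)‖ * Real.exp (Real.pi * |τ| / 2) ≤ Real.sqrt (2 * Real.pi) := by
  set z : ℂ := 1 / 2 + (τ : ℂ) * I with hz
  have h1 := Complex.Gamma_mul_Gamma_one_sub z
  have h2 : 1 - z = (starRingEnd ℂ) z := by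
    rw [hz]
    simp only [map_add, map_mul, Complex.conj_ofReal, Complex.conj_I, map_div₀, map_one, map_ofNat]
    ring
  rw [h2, Complex.Gamma_conj, Complex.mul_conj, Complex.normSq_eq_norm_sq] at h1
  have h3 : Complex.sin (Real.pi * z) = ((Real.cosh (Real.pi * τ) : ℝ) : ℂ) := by
    have e1 : (Real.pi : ℂ) * z = (Real.pi * τ : ℂ) * I + Real.pi / 2 := by
      rw [hz]
      ring
    rw [e1, Complex.sin_add_pi_div_two, Complex.cos_mul_I]
    push_cast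
    rfl
  rw [h3] at h1
  have h4 : ‖Complex.Gamma z‖ ^ 2 = Real.pi / Real.cosh (Real.pi * τ) := by
    exact_mod_cast h1
  have h5 : Real.exp (Real.pi * |τ|) ≤ 2 * Real.cosh (Real.pi * τ) := by
    rw [Real.cosh_eq]
    have p1 := Real.exp_pos (Real.pi * τ)
    have p2 := Real.exp_pos (-(Real.pi * τ))
    rcases abs_cases τ with ⟨h6, _⟩ | ⟨h6, _⟩
    · rw [h6]
      linarith
    · rw [h6, mul_neg]
      linarith
  have hc : 0 < Real.cosh (Real.pi * τ) := Real.cosh_pos _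
  apply Real.le_sqrt_of_sq_le
  rw [mul_pow, h4, ← Real.exp_nat_mul]
  have e2 : ((2 : ℕ) : ℝ) * (Real.pi * |τ| / 2) = Real.pi * |τ| := by
    push_cast
    ring
  rw [e2, div_mul_eq_mul_div, div_le_iff₀ hc]
  have := Real.pi_pos
  nlinarith

lemma gamma_strip (η : ℝ) (hη : 0 < η) (hη1 : η ≤ 1 / 2) : ∃ K : ℝ, 0 < K ∧ ∀ τ : ℝ,
    ‖Complex.Gamma (((1 + η : ℝ) : ℂ) + (τ : ℂ) * I)‖ * Real.exp (Real.pi * |τ| / 2) ≤
      K * (1 + |τ|) ^ 2 := by
  set Kb : ℝ := ∫ x in Set.Ioc (0 : ℝ) 1, x ^ η * (1 - x) ^ (1 / 2 - η) with hKb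
  have hKb0 : 0 ≤ Kb := setIntegral_nonneg measurableSet_Ioc fun x hx => by
    have h1 := hx.1
    have h2 : 0 ≤ 1 - x := by linarith [hx.2]
    positivity
  set G : ℝ := ‖Complex.Gamma ((3 / 2 - η : ℝ) : ℂ)‖ with hG
  have hG0 : 0 < G := by
    rw [hG, norm_pos_iff]
    apply Complex.Gamma_ne_zero_of_re_pos
    rw [Complex.ofReal_re]
    linarith
  refine ⟨3 / 2 * Real.sqrt (2 * Real.pi) * Kb / G + 1, by positivity, ?_⟩
  intro τ
  set s : ℂ := ((1 + η : ℝ) : ℂ) + (τ : ℂ) * I with hs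
  set t : ℂ := ((3 / 2 - η : ℝ) : ℂ) with ht
  have hsre : s.re = 1 + η := by rw [hs]; simp
  have htre : t.re = 3 / 2 - η := by rw [ht]; simp
  have h1 := Complex.Gamma_mul_Gamma_eq_betaIntegral (s := s) (t := t) (by rw [hsre]; linarith)
    (by rw [htre]; linarith)
  have h2 : ‖Complex.betaIntegral s t‖ ≤ Kb := by
    unfold Complex.betaIntegral
    refine (intervalIntegral.norm_integral_le_integral_norm zero_le_one).trans ?_
    rw [intervalIntegral.integral_of_le zero_le_one, hKb]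
    apply le_of_eq
    apply setIntegral_congr_fun measurableSet_Ioc
    intro x hx
    simp only
    rw [norm_mul, Complex.norm_cpow_eq_rpow_re_of_pos hx.1]
    have e1 : (1 - (x : ℂ)) ^ (t - 1) = (((1 - x) ^ (1 / 2 - η) : ℝ) : ℂ) := by
      rw [Complex.ofReal_cpow (by linarith [hx.2]), ht]
      push_cast
      congr 1
      ring
    rw [e1, Complex.norm_real, Real.norm_eq_abs, abs_of_nonneg (Real.rpow_nonneg (by linarith [hx.2]) _)]
    rw [Complex.sub_re, hsre, Complex.one_re]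
    congr 2
    ring
  have h3 : Complex.Gamma (s + t) = (3 / 2 + (τ : ℂ) * I) * ((1 / 2 + (τ : ℂ) * I) *
      Complex.Gamma (1 / 2 + (τ : ℂ) * I)) := by
    have e1 : s + t = (1 / 2 + (τ : ℂ) * I + 1) + 1 := by
      rw [hs, ht]
      push_cast
      ring
    have n1 : (1 / 2 + (τ : ℂ) * I) ≠ 0 := by
      intro h0
      have := congrArg Complex.re h0
      simp at this
    have n2 : (1 / 2 + (τ : ℂ) * I + 1) ≠ 0 := by
      intro h0
      have := congrArg Complex.re h0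
      norm_num at this
    rw [e1, Complex.Gamma_add_one _ n2, Complex.Gamma_add_one _ n1]
    ring
  have h4 := gamma_half τ
  set E := Real.exp (Real.pi * |τ| / 2) with hE
  have hE0 : 0 < E := Real.exp_pos _
  have n3 : ‖(3 / 2 + (τ : ℂ) * I)‖ ≤ 3 / 2 * (1 + |τ|) := by
    refine (norm_add_le _ _).trans ?_
    rw [norm_mul, Complex.norm_I, mul_one, Complex.norm_real, Real.norm_eq_abs]
    have : ‖(3 / 2 : ℂ)‖ = 3 / 2 := by norm_num
    rw [this]
    linarith [abs_nonneg τ]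
  have n4 : ‖(1 / 2 + (τ : ℂ) * I)‖ ≤ 1 + |τ| := by
    refine (norm_add_le _ _).trans ?_
    rw [norm_mul, Complex.norm_I, mul_one, Complex.norm_real, Real.norm_eq_abs]
    have : ‖(1 / 2 : ℂ)‖ = 1 / 2 := by norm_num
    rw [this]
    linarith
  have h5 : ‖Complex.Gamma s‖ * G ≤ (3 / 2 * (1 + |τ|)) * ((1 + |τ|) *
      ‖Complex.Gamma (1 / 2 + (τ : ℂ) * I)‖) * Kb := by
    have h6 : ‖Complex.Gamma s‖ * G = ‖Complex.Gamma (s + t)‖ * ‖Complex.betaIntegral s t‖ := by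
      rw [hG, ← norm_mul, h1, norm_mul]
    rw [h6, h3, norm_mul, norm_mul]
    gcongr
  have h7 : ‖Complex.Gamma s‖ * E * G ≤ (3 / 2 * Real.sqrt (2 * Real.pi) * Kb) * (1 + |τ|) ^ 2 := by
    calc ‖Complex.Gamma s‖ * E * G = (‖Complex.Gamma s‖ * G) * E := by ring
      _ ≤ ((3 / 2 * (1 + |τ|)) * ((1 + |τ|) * ‖Complex.Gamma (1 / 2 + (τ : ℂ) * I)‖) * Kb) * E := by
          gcongr
      _ = (3 / 2 * (1 + |τ|) ^ 2 * Kb) * (‖Complex.Gamma (1 / 2 + (τ : ℂ) * I)‖ * E) := by ring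
      _ ≤ (3 / 2 * (1 + |τ|) ^ 2 * Kb) * Real.sqrt (2 * Real.pi) := by gcongr
      _ = _ := by ring
  have h8 : ‖Complex.Gamma s‖ * E ≤ (3 / 2 * Real.sqrt (2 * Real.pi) * Kb / G) * (1 + |τ|) ^ 2 := by
    rw [div_mul_eq_mul_div, le_div_iff₀ hG0]
    exact h7
  have h9 : 0 ≤ (1 + |τ|) ^ 2 := by positivity
  nlinarith

/-! ### the main bound -/

/-- values of the exponential zeta function -/
def Xs (h : ℕ) [NeZero h] (w : ℂ) (b : Bool) (x : ZMod h) : ℂ :=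
  HurwitzZeta.expZeta (ZMod.toAddCircle (sgz b x)) w

/-- exponential factors -/
def Es (w : ℂ) (b : Bool) : ℂ :=
  if b then Complex.exp (-Real.pi * I * w / 2) else Complex.exp (Real.pi * I * w / 2)

lemma hurwitz_left (h : ℕ) [NeZero h] (w : ℂ) (hw : 1 < w.re) (x : ZMod h) :
    HurwitzZeta.hurwitzZeta (ZMod.toAddCircle x) (1 - w) =
      ((2 * Real.pi : ℂ) ^ (-w) * Complex.Gamma w) *
        (Es w true * Xs h w true x + Es w false * Xs h w false x) := by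
  rw [HurwitzZeta.hurwitzZeta_one_sub]
  · simp only [Es, Xs, sgz, if_true, Bool.false_eq_true, if_false, map_neg]
  · intro n hn
    have := congrArg Complex.re hn
    simp only [Complex.neg_re, Complex.natCast_re] at this
    have h1 : (0 : ℝ) ≤ n := Nat.cast_nonneg n
    linarith
  · right
    intro h1
    rw [h1, Complex.one_re] at hw
    exact lt_irrefl _ hw

lemma expand8 {α : Type} [Fintype α] (Φ : α → α → α → ℂ) (c : ℂ) (E : Bool → ℂ) (X : Bool → α → ℂ) :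
    ∑ x, ∑ y, ∑ z, Φ x y z * ((c * (E true * X true x + E false * X false x)) *
      (c * (E true * X true y + E false * X false y)) *
      (c * (E true * X true z + E false * X false z))) =
    ∑ b1 : Bool, ∑ b2 : Bool, ∑ b3 : Bool, (c ^ 3 * (E b1 * E b2 * E b3)) *
      ∑ x, ∑ y, ∑ z, Φ x y z * (X b1 x * X b2 y * X b3 z) := by
  simp only [Fintype.sum_bool, Finset.mul_sum, ← Finset.sum_add_distrib]
  refine Finset.sum_congr rfl fun x _ => Finset.sum_congr rfl fun y _ =>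
    Finset.sum_congr rfl fun z _ => ?_
  ring

lemma Es_norm (η τ : ℝ) (b : Bool) :
    ‖Es (((1 + η : ℝ) : ℂ) + ((-τ : ℝ) : ℂ) * I) b‖ ≤ Real.exp (Real.pi * |τ| / 2) := by
  cases b
  · simp only [Es, Bool.false_eq_true, if_false]
    rw [Complex.norm_exp, Real.exp_le_exp]
    have e1 : (Real.pi * I * (((1 + η : ℝ) : ℂ) + ((-τ : ℝ) : ℂ) * I) / 2 : ℂ) =
        ((Real.pi * τ / 2 : ℝ) : ℂ) + ((Real.pi * (1 + η) / 2 : ℝ) : ℂ) * I := by
      push_cast
      linear_combination (-(Real.pi : ℂ) * τ / 2) * Complex.I_sq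
    rw [e1]
    simp only [Complex.add_re, Complex.ofReal_re, Complex.mul_re, Complex.I_re, mul_zero,
      Complex.ofReal_im, Complex.I_im, zero_mul, sub_self, add_zero]
    have := le_abs_self τ
    have := Real.pi_pos
    nlinarith
  · simp only [Es, if_true]
    rw [Complex.norm_exp, Real.exp_le_exp]
    have e1 : (-Real.pi * I * (((1 + η : ℝ) : ℂ) + ((-τ : ℝ) : ℂ) * I) / 2 : ℂ) =
        ((-(Real.pi * τ / 2) : ℝ) : ℂ) + ((-(Real.pi * (1 + η) / 2) : ℝ) : ℂ) * I := by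
      push_cast
      linear_combination ((Real.pi : ℂ) * τ / 2) * Complex.I_sq
    rw [e1]
    simp only [Complex.add_re, Complex.ofReal_re, Complex.mul_re, Complex.I_re, mul_zero,
      Complex.ofReal_im, Complex.I_im, zero_mul, sub_self, add_zero]
    have := neg_abs_le τ
    have := Real.pi_pos
    nlinarith

theorem EE_left (η : ℝ) (hη : 0 < η) (hη1 : η ≤ 1 / 2) : ∃ C : ℝ, 0 < C ∧
    ∀ (h : ℕ) [NeZero h] (Φ : ZMod h → ZMod h → ZMod h → ℂ) (B : ℝ), FB h Φ B →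
      ∀ τ : ℝ, ‖EE h Φ (((-η : ℝ) : ℂ) + τ * I)‖ ≤
        C * (h : ℝ) ^ (3 * η) * (h.divisors.card : ℝ) ^ 2 * B * (1 + |τ|) ^ 6 := by
  obtain ⟨K, hK, HK⟩ := gamma_strip η hη hη1
  set σ : ℝ := 1 + η with hσ
  have hσ1 : 1 < σ := by linarith
  set Z : ℝ := ∑' m : ℕ, (m : ℝ) ^ (-σ) with hZ
  have hZ1 : 1 ≤ Z := by
    have := (zeta_hasSum hσ1).summable.le_tsum 1 (fun m _ => by positivity)
    simpa using this
  have hZ0 : 0 < Z := by linarith
  refine ⟨8 * K ^ 3 * Z ^ 3, by positivity, ?_⟩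
  intro h _ Φ B hB τ
  have hh : 0 < h := Nat.pos_of_ne_zero (NeZero.ne h)
  have hB0 : 0 ≤ B := by
    have h1 := (norm_nonneg _).trans (hB 0 0 0)
    rw [ZMod.val_zero, Nat.gcd_zero_left] at h1
    have h2 : 0 < Real.sqrt (h : ℝ) := Real.sqrt_pos.2 (by exact_mod_cast hh)
    by_contra hcon
    push Not at hcon
    have : B * Real.sqrt h * Real.sqrt h < 0 := by
      apply mul_neg_of_neg_of_pos _ h2
      exact mul_neg_of_neg_of_pos hcon h2
    linarith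
  set w : ℂ := ((σ : ℝ) : ℂ) + ((-τ : ℝ) : ℂ) * I with hw
  have hwre : w.re = σ := by rw [hw]; simp
  have hs : (((-η : ℝ) : ℂ) + τ * I) = 1 - w := by
    rw [hw, hσ]
    push_cast
    ring
  set c : ℂ := (2 * Real.pi : ℂ) ^ (-w) * Complex.Gamma w with hc
  have hcn : ‖c‖ * Real.exp (Real.pi * |τ| / 2) ≤ K * (1 + |τ|) ^ 2 := by
    have h1 := HK (-τ)
    rw [abs_neg] at h1
    have h2 : ‖(2 * Real.pi : ℂ) ^ (-w)‖ ≤ 1 := by
      have e1 : (2 * Real.pi : ℂ) = ((2 * Real.pi : ℝ) : ℂ) := by push_cast; rfl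
      rw [e1, Complex.norm_cpow_eq_rpow_re_of_pos (by positivity), Complex.neg_re, hwre]
      apply Real.rpow_le_one_of_one_le_of_nonpos
      · have := Real.pi_gt_three
        linarith
      · linarith
    rw [hc, norm_mul]
    calc ‖(2 * Real.pi : ℂ) ^ (-w)‖ * ‖Complex.Gamma w‖ * Real.exp (Real.pi * |τ| / 2)
        ≤ 1 * ‖Complex.Gamma w‖ * Real.exp (Real.pi * |τ| / 2) := by gcongr
      _ = ‖Complex.Gamma w‖ * Real.exp (Real.pi * |τ| / 2) := by rw [one_mul]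
      _ ≤ K * (1 + |τ|) ^ 2 := h1
  set E := Real.exp (Real.pi * |τ| / 2) with hE
  have hE0 : 0 < E := Real.exp_pos _
  set D : ℝ := B * ((h.divisors.card : ℝ) * Z) ^ 2 * Z with hD
  have hD0 : 0 ≤ D := by positivity
  have hS : ∀ b1 b2 b3 : Bool, ‖(c ^ 3 * (Es w b1 * Es w b2 * Es w b3)) *
      ∑ x, ∑ y, ∑ z, Φ x y z * (Xs h w b1 x * Xs h w b2 y * Xs h w b3 z)‖ ≤
      (K * (1 + |τ|) ^ 2) ^ 3 * D := by
    intro b1 b2 b3
    have h1 := sign_bound hσ1 h Φ B hB hB0 hwre b1 b2 b3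
    have h2 := Es_norm η τ b1
    have h3 := Es_norm η τ b2
    have h4 := Es_norm η τ b3
    rw [norm_mul, norm_mul, norm_mul, norm_mul, norm_pow]
    have h5 : ‖Es w b1‖ * ‖Es w b2‖ * ‖Es w b3‖ ≤ E * E * E := by
      gcongr
    have h6 : ‖c‖ ^ 3 * (‖Es w b1‖ * ‖Es w b2‖ * ‖Es w b3‖) ≤ (K * (1 + |τ|) ^ 2) ^ 3 := by
      calc ‖c‖ ^ 3 * (‖Es w b1‖ * ‖Es w b2‖ * ‖Es w b3‖) ≤ ‖c‖ ^ 3 * (E * E * E) := by gcongr
        _ = (‖c‖ * E) ^ 3 := by ring
        _ ≤ (K * (1 + |τ|) ^ 2) ^ 3 := by gcongr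
    exact mul_le_mul h6 h1 (norm_nonneg _) (by positivity)
  have hmain : ‖∑ x, ∑ y, ∑ z, Φ x y z *
      (HurwitzZeta.hurwitzZeta (ZMod.toAddCircle x) (1 - w) *
      HurwitzZeta.hurwitzZeta (ZMod.toAddCircle y) (1 - w) *
      HurwitzZeta.hurwitzZeta (ZMod.toAddCircle z) (1 - w))‖ ≤
      8 * ((K * (1 + |τ|) ^ 2) ^ 3 * D) := by
    have hw1 : 1 < w.re := by rw [hwre]; exact hσ1
    simp only [hurwitz_left h w hw1]
    rw [expand8 Φ ((2 * Real.pi : ℂ) ^ (-w) * Complex.Gamma w) (Es w) (Xs h w)]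
    simp only [Fintype.sum_bool]
    have q1 := hS true true true
    have q2 := hS true true false
    have q3 := hS true false true
    have q4 := hS true false false
    have q5 := hS false true true
    have q6 := hS false true false
    have q7 := hS false false true
    have q8 := hS false false false
    refine (norm_add_le _ _).trans ?_
    refine (add_le_add ((norm_add_le _ _).trans (add_le_add (norm_add_le _ _) (norm_add_le _ _)))
      ((norm_add_le _ _).trans (add_le_add (norm_add_le _ _) (norm_add_le _ _)))).trans ?_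
    linarith
  unfold EE
  rw [hs, norm_mul]
  have hpow : ‖(h : ℂ) ^ (-(3 * (1 - w)))‖ = (h : ℝ) ^ (3 * η) := by
    rw [Complex.norm_natCast_cpow_of_pos hh]
    congr 1
    have e1 : (-(3 * (1 - w)) : ℂ) = 3 * w - 3 := by ring
    rw [e1, Complex.sub_re, Complex.mul_re, hwre]
    norm_num
    rw [hσ]
    ring
  rw [hpow]
  calc (h : ℝ) ^ (3 * η) * _ ≤ (h : ℝ) ^ (3 * η) * (8 * ((K * (1 + |τ|) ^ 2) ^ 3 * D)) := by gcongr
    _ = 8 * K ^ 3 * Z ^ 3 * (h : ℝ) ^ (3 * η) * (h.divisors.card : ℝ) ^ 2 * B * (1 + |τ|) ^ 6 := by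
        rw [hD]
        ring

end

end Pool.Agent.H930R2.T6C
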