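import Pool.Agent.H308R2.ZS.Stubs

set_option autoImplicit false

open scoped ComplexConjugate Kronecker Matrix.Norms.L2Operator

namespace Pool.Agent.H308R2.ZS.T_OPN

open Pool.Agent.H923R2.FP Pool.Agent.H923R2.FZ Pool.Agent.H308R2.ZS
open Filter Topology

theorem t_OPN : S_OPN := by
  intro B _ τ hτ hb x ε hx hAT
  haveI : Nontrivial B := by
    refine ⟨⟨1, 0, fun h => ?_⟩⟩
    have := hτ.one
    rw [h, map_zero] at this
    exact zero_ne_one this
  have hτc : Continuous τ :=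
    (LinearMap.mkContinuous τ 1 (fun x => by rw [one_mul]; exact hb x)).continuous
  have hspec : ∀ (y : B) (R : ℝ), ‖y‖ ≤ R → spectrum ℝ y ⊆ Set.Icc (-R) R := by
    intro y R hy t ht
    have h1 := spectrum.norm_le_norm_of_mem ht
    rw [Real.norm_eq_abs] at h1
    have h2 := abs_le.mp (h1.trans hy)
    exact ⟨h2.1, h2.2⟩
  -- positivity of `ε`
  have hε : 0 < ε := by
    obtain ⟨F, hF, hF0, -, hlt⟩ := hAT 0
    have e1 : cfc F x = star (cfc (fun t => Real.sqrt (F t)) x) *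
        cfc (fun t => Real.sqrt (F t)) x := by
      rw [← cfc_star, ← cfc_mul _ _ x (by fun_prop) (by fun_prop)]
      refine cfc_congr fun t _ => ?_
      show F t = star (Real.sqrt (F t)) * Real.sqrt (F t)
      rw [star_trivial, Real.mul_self_sqrt (hF0 t)]
    rw [e1] at hlt
    exact (hτ.pos _).1.trans_lt hlt
  set R : ℝ := ‖x‖ + 1 with hR
  have hRpos : 0 < R := by positivity
  set S : Set B := {a | IsSelfAdjoint a ∧ spectrum ℝ a ⊆ Set.Icc (-R) R} with hS
  have hev : ∀ᶠ y in 𝓝 x, ‖y‖ < R := by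
    have : Tendsto (fun y : B => ‖y‖) (𝓝 x) (𝓝 ‖x‖) := continuous_norm.tendsto x
    exact this.eventually (gt_mem_nhds (by rw [hR]; linarith))
  have hxS : x ∈ S := ⟨hx, hspec x R (by rw [hR]; linarith)⟩
  have hin : ∀ᶠ y in 𝓝 x, ∀ c ∈ Set.Icc (-R) R, star y = y →
      ∃ F : ℝ → ℝ, Continuous F ∧ (∀ t, 0 ≤ F t) ∧ F c = 1 ∧ (τ (cfc F y)).re < ε := by
    refine (isCompact_Icc).eventually_forall_of_forall_eventually
      (P := fun (y : B) (c : ℝ) => star y = y →
        ∃ F : ℝ → ℝ, Continuous F ∧ (∀ t, 0 ≤ F t) ∧ F c = 1 ∧ (τ (cfc F y)).re < ε) ?_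
    intro c hc
    obtain ⟨F, hF, hF0, hFc, hlt⟩ := hAT c
    have h1 : ContinuousWithinAt (fun z : B × ℝ => (τ (cfc F z.1)).re / F z.2)
        {z | z.1 ∈ S} (x, c) := by
      have h2 : ContinuousWithinAt (fun z : B × ℝ => (τ (cfc F z.1)).re) {z | z.1 ∈ S} (x, c) := by
        have h3 : ContinuousOn (cfc F : B → B) S :=
          continuousOn_cfc B (isCompact_Icc) F hF.continuousOn
        have h4 : ContinuousWithinAt (fun y : B => (τ (cfc F y)).re) S x :=
          (Complex.continuous_re.comp hτc).continuousAt.comp_continuousWithinAt (h3 x hxS)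
        exact h4.comp (f := fun z : B × ℝ => z.1) (x := (x, c)) continuous_fst.continuousWithinAt
          (fun z hz => hz)
      have h5 : ContinuousWithinAt (fun z : B × ℝ => F z.2) {z | z.1 ∈ S} (x, c) :=
        (hF.comp continuous_snd).continuousWithinAt
      refine h2.div h5 ?_
      show F c ≠ 0
      rw [hFc]
      exact one_ne_zero
    have h6 : ∀ᶠ z : B × ℝ in 𝓝 (x, c), z.1 ∈ S → (τ (cfc F z.1)).re / F z.2 < ε := by
      have h7 : ∀ᶠ z : B × ℝ in 𝓝[{z | z.1 ∈ S}] (x, c), (τ (cfc F z.1)).re / F z.2 < ε := by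
        refine h1.tendsto.eventually (gt_mem_nhds ?_)
        show (τ (cfc F x)).re / F c < ε
        rw [hFc, div_one]
        exact hlt
      exact eventually_nhdsWithin_iff.mp h7
    have h8 : ∀ᶠ z : B × ℝ in 𝓝 (x, c), 0 < F z.2 := by
      have : Tendsto (fun z : B × ℝ => F z.2) (𝓝 (x, c)) (𝓝 (F c)) :=
        (hF.comp continuous_snd).tendsto (x, c)
      exact this.eventually (lt_mem_nhds (by rw [hFc]; exact one_pos))
    have h9 : ∀ᶠ z : B × ℝ in 𝓝 (x, c), ‖z.1‖ < R :=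
      (continuous_fst.tendsto (x, c)).eventually hev
    filter_upwards [h6, h8, h9] with z h6 h8 h9 hz
    have hzS : z.1 ∈ S := ⟨hz, hspec z.1 R h9.le⟩
    refine ⟨fun t => (F z.2)⁻¹ * F t, by fun_prop, fun t => mul_nonneg (inv_nonneg.mpr h8.le) (hF0 t),
      inv_mul_cancel₀ h8.ne', ?_⟩
    have e2 : cfc (fun t => (F z.2)⁻¹ * F t) z.1 = (F z.2)⁻¹ • cfc F z.1 :=
      cfc_const_mul (F z.2)⁻¹ F z.1 hF.continuousOn
    have e3 : τ ((F z.2)⁻¹ • cfc F z.1) = (F z.2)⁻¹ • τ (cfc F z.1) :=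
      LinearMap.map_smul_of_tower τ _ _
    rw [e2, e3, Complex.smul_re, smul_eq_mul, mul_comm, ← div_eq_mul_inv]
    exact h6 hzS
  obtain ⟨δ, hδ, hball⟩ := Metric.eventually_nhds_iff.mp (hin.and hev)
  refine ⟨δ, hδ, fun y hy hyx c => ?_⟩
  obtain ⟨h1, h2⟩ := hball (y := y) (by rw [dist_eq_norm]; exact hyx)
  by_cases hc : c ∈ Set.Icc (-R) R
  · exact h1 c hc hy
  · have hcR : R < |c| := by
      by_contra hcon
      exact hc (abs_le.mp (not_lt.mp hcon))
    refine ⟨fun t => max 0 ((|t| - R) / (|c| - R)), by fun_prop, fun t => le_max_left _ _, ?_, ?_⟩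
    · show max 0 ((|c| - R) / (|c| - R)) = 1
      rw [div_self (by linarith : |c| - R ≠ 0)]
      simp
    · have e4 : cfc (fun t : ℝ => max 0 ((|t| - R) / (|c| - R))) y = cfc (fun _ : ℝ => (0 : ℝ)) y := by
        refine cfc_congr fun t ht => ?_
        have h3 := hspec y R h2.le ht
        have h4 : |t| ≤ R := abs_le.mpr ⟨h3.1, h3.2⟩
        exact max_eq_left (div_nonpos_of_nonpos_of_nonneg (by linarith) (by linarith))
      rw [e4, cfc_const_zero, map_zero]
      exact hε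

end Pool.Agent.H308R2.ZS.T_OPN
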