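import Pool.Agent.H308R2.ZS.Stubs

set_option autoImplicit false

open scoped ComplexConjugate Kronecker Matrix.Norms.L2Operator

namespace Pool.Agent.H308R2.ZS.T_RWB

open Pool.Agent.H923R2.FP Pool.Agent.H923R2.FZ Pool.Agent.H308R2.ZS

theorem t_RWB : S_RWB := by
  intro E B _ _ _ _ n φ k v h d
  letI : PartialOrder B := CStarAlgebra.spectralOrder B
  haveI : StarOrderedRing B := CStarAlgebra.spectralOrderedRing B
  have key : ∀ x : B, 0 ≤ x → 0 ≤ 1 - x → PC x := by
    intro x hx hx1
    refine ⟨IsSelfAdjoint.of_nonneg hx, ?_⟩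
    intro t ht
    refine ⟨spectrum_nonneg_of_nonneg hx ht, ?_⟩
    have h1 : (1 : ℝ) - t ∈ spectrum ℝ (1 - x) := by
      have := spectrum.singleton_sub_eq x (1 : ℝ)
      rw [map_one] at this
      rw [← this]
      exact ⟨1, rfl, t, ht, rfl⟩
    have := spectrum_nonneg_of_nonneg hx1 h1
    linarith
  have hsum : (∑ m, d (φ m m)) = d (∑ m, φ m m) := (map_sum d _ _).symm
  have hpos : ∀ i, 0 ≤ d (φ i i) := by
    intro i
    have : d (φ i i) = star (d (k i)) * d (k i) := by
      rw [← map_star, h.ks, ← map_mul, h.kk]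
    rw [this]
    exact star_mul_self_nonneg _
  have hS0 : 0 ≤ ∑ m, d (φ m m) := Finset.sum_nonneg fun i _ => hpos i
  have hS1 : 0 ≤ 1 - ∑ m, d (φ m m) := by
    have : 1 - ∑ m, d (φ m m) = star (d v) * d v := by
      rw [← map_star, ← map_mul, h.vv, map_sub, map_one, hsum]
    rw [this]
    exact star_mul_self_nonneg _
  refine ⟨?_, ?_, ?_, ?_, ?_, ?_⟩
  · intro i j
    show star (d (φ i j)) = d (φ j i)
    rw [← map_star, h.st]
  · intro i j a b
    show d (φ i j) * d (φ a b) = if j = a then (∑ m, d (φ m m)) * d (φ i b) else 0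
    rw [← map_mul, h.mul, hsum]
    split_ifs
    · rw [map_mul]
    · rw [map_zero]
  · exact key _ hS0 hS1
  · intro i
    refine key _ (hpos i) ?_
    have h2 : d (φ i i) ≤ ∑ m, d (φ m m) :=
      Finset.single_le_sum (f := fun m => d (φ m m)) (fun m _ => hpos m) (Finset.mem_univ i)
    exact sub_nonneg.mpr (h2.trans (sub_nonneg.mp hS1))
  · show star (d v) * d v = 1 - ∑ m, d (φ m m)
    rw [← map_star, ← map_mul, h.vv, map_sub, map_one, hsum]
  · show d (φ 0 0) * d v = d v
    rw [← map_mul, h.ve]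

end Pool.Agent.H308R2.ZS.T_RWB
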