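import Pool.Agent.H308R2.ZS.Stubs

set_option autoImplicit false

open scoped ComplexConjugate Kronecker Matrix.Norms.L2Operator

namespace Pool.Agent.H308R2.ZS.T_WU

open Pool.Agent.H923R2.FP Pool.Agent.H923R2.FZ Pool.Agent.H308R2.ZS

lemma flp_last (n : ℕ) (i : Fin (n + 1)) :
    flp n (i, Fin.last (n + 1)) = (i, Fin.last (n + 1)) := by
  show Fin.lastCases (motive := fun _ => Ix n) (i, Fin.last (n + 1))
    (fun k => (k, i.castSucc)) (Fin.last (n + 1)) = _
  rw [Fin.lastCases_last]

lemma flp_cast (n : ℕ) (i k : Fin (n + 1)) :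
    flp n (i, k.castSucc) = (k, i.castSucc) := by
  show Fin.lastCases (motive := fun _ => Ix n) (i, Fin.last (n + 1))
    (fun k => (k, i.castSucc)) k.castSucc = _
  rw [Fin.lastCases_castSucc]

lemma flp_flp (n : ℕ) (p : Ix n) : flp n (flp n p) = p := by
  obtain ⟨i, k⟩ := p
  refine Fin.lastCases ?_ (fun k => ?_) k
  · rw [flp_last, flp_last]
  · rw [flp_cast, flp_cast]

lemma PF_mul (n : ℕ) (M : MM n) (p q : Ix n) : (PF n * M) p q = M (flp n p) q := by
  rw [Matrix.mul_apply, Finset.sum_eq_single (flp n p)]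
  · show (if flp n p = flp n p then (1 : ℂ) else 0) * _ = _
    rw [if_pos rfl, one_mul]
  · intro r _ hr
    show (if r = flp n p then (1 : ℂ) else 0) * _ = _
    rw [if_neg hr, zero_mul]
  · intro h
    exact absurd (Finset.mem_univ _) h

lemma mul_PF (n : ℕ) (M : MM n) (p q : Ix n) : (M * PF n) p q = M p (flp n q) := by
  rw [Matrix.mul_apply, Finset.sum_eq_single (flp n q)]
  · show _ * (if q = flp n (flp n q) then (1 : ℂ) else 0) = _
    rw [flp_flp, if_pos rfl, mul_one]
  · intro r _ hr
    show _ * (if q = flp n r then (1 : ℂ) else 0) = _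
    rw [if_neg, mul_zero]
    intro h
    exact hr (by rw [h, flp_flp])
  · intro h
    exact absurd (Finset.mem_univ _) h

lemma PF_star (n : ℕ) : star (PF n) = PF n := by
  ext p q
  show star (if p = flp n q then (1 : ℂ) else 0) = (if q = flp n p then (1 : ℂ) else 0)
  by_cases h : q = flp n p
  · have h' : p = flp n q := by rw [h, flp_flp]
    rw [if_pos h, if_pos h', star_one]
  · have h' : ¬ p = flp n q := fun h' => h (by rw [h', flp_flp])
    rw [if_neg h, if_neg h', star_zero]

lemma PF_sq (n : ℕ) : PF n * PF n = 1 := by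
  ext p q
  rw [PF_mul]
  show (if q = flp n (flp n p) then (1 : ℂ) else 0) = _
  rw [flp_flp, Matrix.one_apply]
  by_cases h : p = q
  · rw [if_pos h, if_pos h.symm]
  · rw [if_neg h, if_neg (fun h' => h h'.symm)]

lemma expand (n : ℕ) (a b c d : ℂ) :
    (a • (1 : MM n) + b • PF n) * (c • (1 : MM n) + d • PF n) =
      (a * c + b * d) • (1 : MM n) + (a * d + b * c) • PF n := by
  simp only [add_mul, mul_add, smul_mul_smul_comm, one_mul, mul_one, PF_sq]
  module

lemma zz (t : ℝ) : Complex.exp (Complex.I * Real.pi * t) *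
    star (Complex.exp (Complex.I * Real.pi * t)) = 1 := by
  have h1 : Complex.exp (Complex.I * Real.pi * t) = Complex.exp (((Real.pi * t : ℝ) : ℂ) * Complex.I) := by
    congr 1
    push_cast
    ring
  rw [h1]
  show _ * conj _ = _
  rw [Complex.mul_conj, Complex.normSq_eq_norm_sq, Complex.norm_exp_ofReal_mul_I]
  norm_num

theorem t_WU : S_WU := by
  intro n
  refine ⟨flp_flp n, PF_star n, PF_sq n, ?_, ?_, ?_, ?_, ?_⟩
  · intro M p q
    rw [mul_PF, PF_mul]
  · have c1 : Continuous fun t : ℝ => ((1 + Complex.exp (Complex.I * Real.pi * t)) / 2 : ℂ) := by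
      fun_prop
    have c2 : Continuous fun t : ℝ => ((1 - Complex.exp (Complex.I * Real.pi * t)) / 2 : ℂ) := by
      fun_prop
    have c3 : Continuous fun t : ℝ =>
        ((1 + Complex.exp (Complex.I * Real.pi * t)) / 2 : ℂ) • (1 : MM n) :=
      c1.smul continuous_const
    have c4 : Continuous fun t : ℝ =>
        ((1 - Complex.exp (Complex.I * Real.pi * t)) / 2 : ℂ) • PF n :=
      c2.smul continuous_const
    exact c3.add c4
  · unfold WW
    simp
  · unfold WW
    have h1 : Complex.exp (Complex.I * Real.pi * (1 : ℝ)) = -1 := by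
      rw [Complex.ofReal_one, mul_one, mul_comm, Complex.exp_pi_mul_I]
    rw [h1]
    norm_num
  · intro t
    have hz := zz t
    have hst : star (WW n t) = (star ((1 + Complex.exp (Complex.I * Real.pi * t)) / 2)) • (1 : MM n) +
        (star ((1 - Complex.exp (Complex.I * Real.pi * t)) / 2)) • PF n := by
      unfold WW
      rw [star_add, star_smul, star_smul, star_one, PF_star]
    rw [hst]
    unfold WW
    set z := Complex.exp (Complex.I * Real.pi * t) with hzd
    have hs1 : star ((1 + z) / 2) = (1 + star z) / 2 := by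
      show conj ((1 + z) / 2) = (1 + conj z) / 2
      rw [map_div₀, map_add, map_one, Complex.conj_ofNat]
    have hs2 : star ((1 - z) / 2) = (1 - star z) / 2 := by
      show conj ((1 - z) / 2) = (1 - conj z) / 2
      rw [map_div₀, map_sub, map_one, Complex.conj_ofNat]
    rw [hs1, hs2, expand, expand]
    have e1 : (1 + z) / 2 * ((1 + star z) / 2) + (1 - z) / 2 * ((1 - star z) / 2) = 1 := by
      linear_combination (1 / 2 : ℂ) * hz
    have e2 : (1 + z) / 2 * ((1 - star z) / 2) + (1 - z) / 2 * ((1 + star z) / 2) = 0 := by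
      linear_combination (-1 / 2 : ℂ) * hz
    have e3 : (1 + star z) / 2 * ((1 + z) / 2) + (1 - star z) / 2 * ((1 - z) / 2) = 1 := by
      linear_combination (1 / 2 : ℂ) * hz
    have e4 : (1 + star z) / 2 * ((1 - z) / 2) + (1 - star z) / 2 * ((1 + z) / 2) = 0 := by
      linear_combination (-1 / 2 : ℂ) * hz
    rw [e1, e2, e3, e4]
    simp

end Pool.Agent.H308R2.ZS.T_WU
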