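import Pool.Agent.H308R2.ZS.Stubs

set_option autoImplicit false

open scoped ComplexConjugate Kronecker Matrix.Norms.L2Operator

namespace Pool.Agent.H308R2.ZS.T_ZGEN

open Pool.Agent.H923R2.FP Pool.Agent.H923R2.FZ Pool.Agent.H308R2.ZS

theorem t_ZGEN (hCEN : S_CEN) (hMSW : S_MSW) (hFIB01 : S_FIB01) (hFIBM : S_FIBM) : S_ZGEN := by
  intro n φ k v hV F ε hε
  set X : Set (dimDrop n) :=
    (Set.range fun p : Fin (n + 1) × Fin (n + 1) => φ p.1 p.2) ∪ {v} with hX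
  set A0 : StarSubalgebra ℂ (dimDrop n) := StarAlgebra.adjoin ℂ X with hA0
  have hsub : X ⊆ (A0 : Set (dimDrop n)) := StarAlgebra.subset_adjoin ℂ X
  have hφ0 : ∀ i j, φ i j ∈ A0 := fun i j => hsub (Or.inl ⟨(i, j), rfl⟩)
  have hv0 : v ∈ A0 := hsub (Or.inr rfl)
  set S : StarSubalgebra ℂ C(unitInterval, MM n) :=
    (A0.map (dimDrop n).subtype).topologicalClosure with hS
  have hmem : ∀ y ∈ A0, (y : C(unitInterval, MM n)) ∈ S := by
    intro y hy
    refine StarSubalgebra.le_topologicalClosure _ ?_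
    exact StarSubalgebra.mem_map.mpr ⟨y, hy, rfl⟩
  have hφ : ∀ i j, (φ i j : C(unitInterval, MM n)) ∈ S := fun i j => hmem _ (hφ0 i j)
  have hv : (v : C(unitInterval, MM n)) ∈ S := hmem _ hv0
  have hcl : IsClosed (S : Set C(unitInterval, MM n)) :=
    StarSubalgebra.isClosed_topologicalClosure _
  have hz : (star v * v + ∑ i, φ i 0 * (v * star v) * φ 0 i : dimDrop n) ∈ A0 := by
    refine add_mem (mul_mem (star_mem hv0) hv0) (sum_mem fun i _ => ?_)
    exact mul_mem (mul_mem (hφ0 i 0) (mul_mem hv0 (star_mem hv0))) (hφ0 0 i)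
  have hF : (F : C(unitInterval, MM n)) ∈ S := by
    refine hMSW n S hcl ⟨_, hmem _ hz, fun t => hCEN n φ k v hV t⟩ _ ?_
    intro t
    by_cases h0 : t = 0
    · obtain ⟨x, hx⟩ := F.2.1
      obtain ⟨G, hG, hG0⟩ := (hFIB01 n φ k v hV S hφ hv).1 x
      exact ⟨G, hG, by rw [h0, hG0, hx]⟩
    by_cases h1 : t = 1
    · obtain ⟨y, hy⟩ := F.2.2
      obtain ⟨G, hG, hG1⟩ := (hFIB01 n φ k v hV S hφ hv).2 y
      exact ⟨G, hG, by rw [h1, hG1, hy]⟩
    exact hFIBM n φ k v hV S hφ hv t h0 h1 _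
  have hF' : (F : C(unitInterval, MM n)) ∈
      closure ((A0.map (dimDrop n).subtype : StarSubalgebra ℂ C(unitInterval, MM n)) :
        Set C(unitInterval, MM n)) := hF
  obtain ⟨b, hb, hbd⟩ := Metric.mem_closure_iff.mp hF' ε hε
  obtain ⟨y, hy, rfl⟩ := StarSubalgebra.mem_map.mp hb
  refine ⟨y, hy, ?_⟩
  rw [dist_eq_norm] at hbd
  exact hbd

end Pool.Agent.H308R2.ZS.T_ZGEN
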