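import Pool.Agent.H930R2.P1

set_option autoImplicit false

/-! # Blow-ups of complex surfaces at points -/

open scoped Manifold ContDiff Topology
open Set

namespace Pool.Agent.H930R2

/-- Over a neighbourhood of the point `p` of the complex surface `Y`, which contains no other point
of `S`, the map `π` from the complex surface `X` is the quadratic transformation with centre `p`.
In a holomorphic chart `φ = (z₁, z₂)` of `Y` centred at `p`, the inverse image of the domain of `φ`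
is covered by the domains of two holomorphic charts `ψ₁` and `ψ₂`, in which `π` reads
`(w₁, w₂) ↦ (w₁, w₁ w₂)` and `(w₁, w₂) ↦ (w₁ w₂, w₂)`; the images of `ψ₁` and `ψ₂` are the full
inverse images of the image of `φ` under these two maps, and `ψ₁`, `ψ₂` are glued along
`w₂ ≠ 0` by `(second coordinate of ψ₁) * (first coordinate of ψ₂) = 1`. -/
def IsBlowUpAt {X Y : Type*} [TopologicalSpace X] [ChartedSpace C2 X]
    [TopologicalSpace Y] [ChartedSpace C2 Y] (π : X → Y) (S : Set Y) (p : Y) : Prop :=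
  ∃ φ ∈ IsManifold.maximalAtlas 𝓘(ℂ, C2) ω Y,
  ∃ ψ₁ ∈ IsManifold.maximalAtlas 𝓘(ℂ, C2) ω X,
  ∃ ψ₂ ∈ IsManifold.maximalAtlas 𝓘(ℂ, C2) ω X,
    p ∈ φ.source ∧ φ p = 0 ∧ φ.source ∩ S = {p} ∧
    ψ₁.source ∪ ψ₂.source = π ⁻¹' φ.source ∧
    ψ₁.target = {w | (w.1, w.1 * w.2) ∈ φ.target} ∧
    ψ₂.target = {w | (w.1 * w.2, w.2) ∈ φ.target} ∧
    (∀ x ∈ ψ₁.source, φ (π x) = ((ψ₁ x).1, (ψ₁ x).1 * (ψ₁ x).2)) ∧
    (∀ x ∈ ψ₂.source, φ (π x) = ((ψ₂ x).1 * (ψ₂ x).2, (ψ₂ x).2)) ∧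
    (∀ x ∈ ψ₁.source, x ∈ ψ₂.source ↔ (ψ₁ x).2 ≠ 0) ∧
    (∀ x ∈ ψ₁.source ∩ ψ₂.source, (ψ₁ x).2 * (ψ₂ x).1 = 1)

/-- `π : X → Y` is the blow-up of the complex surface `Y` at the finite set of points `S`. -/
structure IsBlowUp {X Y : Type*} [TopologicalSpace X] [ChartedSpace C2 X]
    [TopologicalSpace Y] [ChartedSpace C2 Y] (π : X → Y) (S : Set Y) : Prop where
  /-- finitely many centres -/
  finite : S.Finite
  /-- `π` is holomorphic -/
  holomorphic : ContMDiff 𝓘(ℂ, C2) 𝓘(ℂ, C2) ω π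
  /-- `π` is biholomorphic over the complement of `S` -/
  biholomorphic : ∃ g : Y → X, ContMDiffOn 𝓘(ℂ, C2) 𝓘(ℂ, C2) ω g Sᶜ ∧
    (∀ y, y ∉ S → π (g y) = y) ∧ (∀ x, π x ∉ S → g (π x) = x)
  /-- `π` is a quadratic transformation over each point of `S` -/
  centre : ∀ p ∈ S, IsBlowUpAt π S p

end Pool.Agent.H930R2
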