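import Pool.Agent.H930R2.Trans
import Pool.Agent.H930R2.BlowUp

set_option autoImplicit false

/-! # The surface `X` is the blow-up of `P1 × P1` at two points -/

open scoped Manifold ContDiff Topology
open Set

namespace Pool.Agent.H930R2

open P1

/-- a map which is given by a holomorphic map in two charts is holomorphic -/
theorem contMDiffOn_of_charts {X Y : Type*} [TopologicalSpace X] [ChartedSpace C2 X]
    [TopologicalSpace Y] [ChartedSpace C2 Y] [IsManifold 𝓘(ℂ, C2) ω X] [IsManifold 𝓘(ℂ, C2) ω Y]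
    {e : OpenPartialHomeomorph X C2} (he : e ∈ IsManifold.maximalAtlas 𝓘(ℂ, C2) ω X)
    {e' : OpenPartialHomeomorph Y C2} (he' : e' ∈ IsManifold.maximalAtlas 𝓘(ℂ, C2) ω Y)
    (f : X → Y) (hf : MapsTo f e.source e'.source) (F : C2 → C2) (hF : ContDiff ℂ ω F)
    (h : ∀ x ∈ e.source, e' (f x) = F (e x)) : ContMDiffOn 𝓘(ℂ, C2) 𝓘(ℂ, C2) ω f e.source := by
  have h1 : ContMDiffOn 𝓘(ℂ, C2) 𝓘(ℂ, C2) ω e e.source := contMDiffOn_of_mem_maximalAtlas he
  have h2 : ContMDiffOn 𝓘(ℂ, C2) 𝓘(ℂ, C2) ω e'.symm e'.target :=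
    contMDiffOn_symm_of_mem_maximalAtlas he'
  have h3 : ContMDiffOn 𝓘(ℂ, C2) 𝓘(ℂ, C2) ω (fun x => F (e x)) e.source :=
    hF.contMDiff.comp_contMDiffOn h1
  refine (h2.comp h3 fun x hx => ?_).congr fun x hx => ?_
  · rw [mem_preimage, ← h x hx]; exact e'.map_source (hf hx)
  · change f x = e'.symm (F (e x))
    rw [← h x hx, e'.left_inv (hf hx)]

/-- the chart `(x, y)` -/
noncomputable def ch00 : OpenPartialHomeomorph (P1 × P1) C2 := chart0.prod chart0
/-- the chart `(x, 1/y)` -/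
noncomputable def ch01 : OpenPartialHomeomorph (P1 × P1) C2 := chart0.prod chart1
/-- the chart `(1/x, y)` -/
noncomputable def ch10 : OpenPartialHomeomorph (P1 × P1) C2 := chart1.prod chart0
/-- the chart `(1/x, 1/y)` -/
noncomputable def ch11 : OpenPartialHomeomorph (P1 × P1) C2 := chart1.prod chart1

theorem c_mem_atlas {e e' : OpenPartialHomeomorph P1 ℂ} (h : e ∈ atlas ℂ P1)
    (h' : e' ∈ atlas ℂ P1) :
    (e.prod e' : OpenPartialHomeomorph (P1 × P1) C2) ∈
      IsManifold.maximalAtlas 𝓘(ℂ, C2) ω (P1 × P1) := by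
  apply IsManifold.subset_maximalAtlas
  exact ⟨e, h, e', h', rfl⟩

theorem chart0_mem : chart0 ∈ atlas ℂ P1 := Or.inl rfl
theorem chart1_mem : chart1 ∈ atlas ℂ P1 := Or.inr rfl

theorem mem_ch00 (q : P1 × P1) : q ∈ ch00.source ↔ q.1 ≠ P1.inf ∧ q.2 ≠ P1.inf := Iff.rfl
theorem mem_ch01 (q : P1 × P1) : q ∈ ch01.source ↔ q.1 ≠ P1.inf ∧ inv q.2 ≠ P1.inf := Iff.rfl
theorem mem_ch10 (q : P1 × P1) : q ∈ ch10.source ↔ inv q.1 ≠ P1.inf ∧ q.2 ≠ P1.inf := Iff.rfl
theorem mem_ch11 (q : P1 × P1) : q ∈ ch11.source ↔ inv q.1 ≠ P1.inf ∧ inv q.2 ≠ P1.inf := Iff.rfl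

theorem inv_eq_inf {x : P1} : inv x = P1.inf ↔ x = of 0 := by
  constructor
  · intro h
    rw [← P1.inv_inv x, h, inv_inf]
  · rintro rfl; exact P1.inv_zero

namespace X6

/-- the projection to `P1 × P1` -/
def proj (p : X6) : P1 × P1 := (p.x, p.y)

theorem proj_symm0 (z : C2) : proj ((E 0).symm z) = (of z.2, of z.1) := rfl
theorem proj_symm1 (z : C2) : proj ((E 1).symm z) = (of (z.2 * z.1), inv (of z.2)) := by
  rw [E_symm_apply, rotn_symm 1 (by norm_num)]
  change (inv (inv (of (z.2 * z.1))), inv (of z.2)) = _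
  rw [P1.inv_inv]
theorem proj_symm2 (z : C2) : proj ((E 2).symm z) = (of z.1, inv (of (z.2 * z.1))) := by
  rw [E_symm_apply, rotn_symm 2 (by norm_num)]
  change (inv (inv (of z.1)), inv (of (z.2 * z.1))) = _
  rw [P1.inv_inv]
theorem proj_symm3 (z : C2) : proj ((E 3).symm z) = (inv (of z.2), inv (of z.1)) := by
  rw [E_symm_apply, rotn_symm 3 (by norm_num)]
  rfl
theorem proj_symm4 (z : C2) : proj ((E 4).symm z) = (inv (of (z.2 * z.1)), of z.2) := by
  rw [E_symm_apply, rotn_symm 4 (by norm_num)]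
  rfl
theorem proj_symm5 (z : C2) : proj ((E 5).symm z) = (inv (of z.1), of (z.2 * z.1)) := by
  rw [E_symm_apply, rotn_symm 5 (by norm_num)]
  rfl

theorem eq_symm (k : ℕ) (p : X6) (hp : p ∈ (E k).source) : p = (E k).symm (E k p) :=
  ((E k).left_inv hp).symm

theorem mem_range (k : ℕ) (z : C2) : (E k).symm z ∈ (E k).source :=
  (E k).map_target (by rw [E_target]; trivial)

theorem contMDiff_proj : ContMDiff 𝓘(ℂ, C2) 𝓘(ℂ, C2) ω proj := by
  have key : ∀ k < 6, ContMDiffOn 𝓘(ℂ, C2) 𝓘(ℂ, C2) ω proj (E k).source := by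
    intro k hk
    have hE := E_mem_maximalAtlas k hk
    have s1 : ContDiff ℂ ω (fun z : C2 => z.1) := contDiff_fst
    have s2 : ContDiff ℂ ω (fun z : C2 => z.2) := contDiff_snd
    interval_cases k
    · refine contMDiffOn_of_charts hE (c_mem_atlas chart0_mem chart0_mem) proj ?_
        (fun z => (z.2, z.1)) (s2.prodMk s1) ?_
      · intro p hp
        rw [eq_symm 0 p hp, proj_symm0]
        exact ⟨of_ne_inf _, of_ne_inf _⟩
      · intro p hp
        conv_lhs => rw [eq_symm 0 p hp, proj_symm0]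
        rfl
    · refine contMDiffOn_of_charts hE (c_mem_atlas chart0_mem chart1_mem) proj ?_
        (fun z => (z.2 * z.1, z.2)) ((s2.mul s1).prodMk s2) ?_
      · intro p hp
        rw [eq_symm 1 p hp, proj_symm1]
        exact (mem_ch01 _).2 ⟨of_ne_inf _, by rw [P1.inv_inv]; exact of_ne_inf _⟩
      · intro p hp
        conv_lhs => rw [eq_symm 1 p hp, proj_symm1]
        change (fin (of _), fin (inv (inv (of _)))) = _
        rw [P1.inv_inv]; rfl
    · refine contMDiffOn_of_charts hE (c_mem_atlas chart0_mem chart1_mem) proj ?_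
        (fun z => (z.1, z.2 * z.1)) (s1.prodMk (s2.mul s1)) ?_
      · intro p hp
        rw [eq_symm 2 p hp, proj_symm2]
        exact (mem_ch01 _).2 ⟨of_ne_inf _, by rw [P1.inv_inv]; exact of_ne_inf _⟩
      · intro p hp
        conv_lhs => rw [eq_symm 2 p hp, proj_symm2]
        change (fin (of _), fin (inv (inv (of _)))) = _
        rw [P1.inv_inv]; rfl
    · refine contMDiffOn_of_charts hE (c_mem_atlas chart1_mem chart1_mem) proj ?_
        (fun z => (z.2, z.1)) (s2.prodMk s1) ?_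
      · intro p hp
        rw [eq_symm 3 p hp, proj_symm3]
        exact (mem_ch11 _).2 ⟨by rw [P1.inv_inv]; exact of_ne_inf _,
          by rw [P1.inv_inv]; exact of_ne_inf _⟩
      · intro p hp
        conv_lhs => rw [eq_symm 3 p hp, proj_symm3]
        change (fin (inv (inv (of _))), fin (inv (inv (of _)))) = _
        rw [P1.inv_inv, P1.inv_inv]; rfl
    · refine contMDiffOn_of_charts hE (c_mem_atlas chart1_mem chart0_mem) proj ?_
        (fun z => (z.2 * z.1, z.2)) ((s2.mul s1).prodMk s2) ?_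
      · intro p hp
        rw [eq_symm 4 p hp, proj_symm4]
        exact (mem_ch10 _).2 ⟨by rw [P1.inv_inv]; exact of_ne_inf _, of_ne_inf _⟩
      · intro p hp
        conv_lhs => rw [eq_symm 4 p hp, proj_symm4]
        change (fin (inv (inv (of _))), fin (of _)) = _
        rw [P1.inv_inv]; rfl
    · refine contMDiffOn_of_charts hE (c_mem_atlas chart1_mem chart0_mem) proj ?_
        (fun z => (z.1, z.2 * z.1)) (s1.prodMk (s2.mul s1)) ?_
      · intro p hp
        rw [eq_symm 5 p hp, proj_symm5]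
        exact (mem_ch10 _).2 ⟨by rw [P1.inv_inv]; exact of_ne_inf _, of_ne_inf _⟩
      · intro p hp
        conv_lhs => rw [eq_symm 5 p hp, proj_symm5]
        change (fin (inv (inv (of _))), fin (of _)) = _
        rw [P1.inv_inv]; rfl
  intro p
  obtain ⟨k, hk, h1, -⟩ := cover p
  exact (key k hk).contMDiffAt ((E k).open_source.mem_nhds h1)

/-- the two centres -/
def ctr : Set (P1 × P1) := {(of 0, P1.inf), (P1.inf, of 0)}

theorem not_mem_ctr (q : P1 × P1) : q ∉ ctr ↔ q ∈ ch00.source ∨ q ∈ ch11.source := by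
  rw [mem_ch00, mem_ch11]
  simp only [ctr, mem_insert_iff, mem_singleton_iff, Prod.ext_iff, ne_eq, inv_eq_inf]
  have h0 : of 0 ≠ P1.inf := of_ne_inf 0
  by_cases a1 : q.1 = P1.inf <;> by_cases a2 : q.2 = P1.inf <;>
    by_cases b1 : q.1 = of 0 <;> by_cases b2 : q.2 = of 0 <;> simp_all

open Classical in
/-- the inverse of the projection outside the centres -/
noncomputable def sec (q : P1 × P1) : X6 :=
  if q ∈ ch00.source then (E 0).symm (fin q.2, fin q.1)
  else (E 3).symm (fin (inv q.2), fin (inv q.1))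

theorem proj_sec (q : P1 × P1) (hq : q ∉ ctr) : proj (sec q) = q := by
  rw [not_mem_ctr] at hq
  by_cases h : q ∈ ch00.source
  · rw [sec, if_pos h, proj_symm0]
    exact Prod.ext (of_fin h.1) (of_fin h.2)
  · have h' := hq.resolve_left h
    rw [mem_ch11] at h'
    rw [sec, if_neg h, proj_symm3]
    refine Prod.ext ?_ ?_
    · change inv (of (fin (inv q.1))) = q.1
      rw [of_fin h'.1, P1.inv_inv]
    · change inv (of (fin (inv q.2))) = q.2
      rw [of_fin h'.2, P1.inv_inv]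

theorem E0_mem (p : X6) (h : proj p ∈ ch00.source) : p ∈ (E 0).source := ⟨h.2, h.1⟩
theorem E3_mem (p : X6) (h : proj p ∈ ch11.source) : p ∈ (E 3).source := ⟨h.2, h.1⟩
theorem E0_eq (p : X6) : E 0 p = (fin (proj p).2, fin (proj p).1) := rfl
theorem E3_eq (p : X6) : E 3 p = (fin (inv (proj p).2), fin (inv (proj p).1)) := rfl

theorem proj_inj (p p' : X6) (h : proj p = proj p') (hp : proj p ∉ ctr) : p = p' := by
  rw [not_mem_ctr] at hp
  rcases hp with hp | hp
  · have h1 := E0_mem p hp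
    have h2 := E0_mem p' (h ▸ hp)
    exact (E 0).injOn h1 h2 (by rw [E0_eq, E0_eq, h])
  · have h1 := E3_mem p hp
    have h2 := E3_mem p' (h ▸ hp)
    exact (E 3).injOn h1 h2 (by rw [E3_eq, E3_eq, h])

theorem contMDiffOn_sec : ContMDiffOn 𝓘(ℂ, C2) 𝓘(ℂ, C2) ω sec ctrᶜ := by
  have s1 : ContDiff ℂ ω (fun z : C2 => z.1) := contDiff_fst
  have s2 : ContDiff ℂ ω (fun z : C2 => z.2) := contDiff_snd
  have h0 : ContMDiffOn 𝓘(ℂ, C2) 𝓘(ℂ, C2) ω sec ch00.source := by
    refine contMDiffOn_of_charts (c_mem_atlas chart0_mem chart0_mem)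
      (E_mem_maximalAtlas 0 (by norm_num)) sec ?_ (fun z => (z.2, z.1)) (s2.prodMk s1) ?_
    · intro q hq
      have := proj_sec q ((not_mem_ctr q).2 (Or.inl hq))
      exact E0_mem _ (by rw [this]; exact hq)
    · intro q hq
      rw [E0_eq, proj_sec q ((not_mem_ctr q).2 (Or.inl hq))]
      rfl
  have h3 : ContMDiffOn 𝓘(ℂ, C2) 𝓘(ℂ, C2) ω sec ch11.source := by
    refine contMDiffOn_of_charts (c_mem_atlas chart1_mem chart1_mem)
      (E_mem_maximalAtlas 3 (by norm_num)) sec ?_ (fun z => (z.2, z.1)) (s2.prodMk s1) ?_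
    · intro q hq
      have := proj_sec q ((not_mem_ctr q).2 (Or.inr hq))
      exact E3_mem _ (by rw [this]; exact hq)
    · intro q hq
      rw [E3_eq, proj_sec q ((not_mem_ctr q).2 (Or.inr hq))]
      rfl
  intro q hq
  rcases (not_mem_ctr q).1 hq with h | h
  · exact (h0.contMDiffAt (ch00.open_source.mem_nhds h)).contMDiffWithinAt
  · exact (h3.contMDiffAt (ch11.open_source.mem_nhds h)).contMDiffWithinAt

theorem u_cases (p : X6) : p.u ≠ P1.inf ∨ inv p.u ≠ P1.inf := by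
  by_cases h : p.u = P1.inf
  · right; rw [h, inv_inf]; exact of_ne_inf 0
  · left; exact h

theorem E1_apply (p : X6) : E 1 p = (fin p.u, fin (inv p.y)) := rfl
theorem E2_apply (p : X6) : E 2 p = (fin p.x, fin (inv p.u)) := rfl
theorem E4_apply (p : X6) : E 4 p = (fin (inv p.u), fin (inv (inv p.y))) := rfl
theorem E5_apply (p : X6) : E 5 p = (fin (inv p.x), fin (inv (inv p.u))) := rfl

theorem mem_E1 (p : X6) : p ∈ (E 1).source ↔ p.u ≠ P1.inf ∧ inv p.y ≠ P1.inf := Iff.rfl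
theorem mem_E2 (p : X6) : p ∈ (E 2).source ↔ p.x ≠ P1.inf ∧ inv p.u ≠ P1.inf := Iff.rfl
theorem mem_E4 (p : X6) : p ∈ (E 4).source ↔ inv p.u ≠ P1.inf ∧ p.y ≠ P1.inf := by
  change inv p.u ≠ P1.inf ∧ inv (inv p.y) ≠ P1.inf ↔ _
  rw [P1.inv_inv]
theorem mem_E5 (p : X6) : p ∈ (E 5).source ↔ inv p.x ≠ P1.inf ∧ p.u ≠ P1.inf := by
  change inv p.x ≠ P1.inf ∧ inv (inv p.u) ≠ P1.inf ↔ _
  rw [P1.inv_inv]

theorem fin_inv_ne (x : P1) (h : inv x ≠ P1.inf) : fin (inv x) ≠ 0 ↔ x ≠ P1.inf := by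
  rcases cases' x with rfl | ⟨z, rfl⟩
  · simp
  · have hz : z ≠ 0 := by
      rintro rfl; exact h P1.inv_zero
    rw [inv_of hz]
    simp [hz, of_ne_inf]

theorem fin_ne (x : P1) (h : x ≠ P1.inf) : fin x ≠ 0 ↔ inv x ≠ P1.inf := by
  rcases cases' x with rfl | ⟨z, rfl⟩
  · exact absurd rfl h
  · rw [ne_eq, ne_eq, inv_eq_inf, of_inj, fin_of]

theorem fin_mul_inv (x : P1) (h : x ≠ P1.inf) (h' : inv x ≠ P1.inf) :
    fin (inv x) * fin x = 1 := by
  rcases cases' x with rfl | ⟨z, rfl⟩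
  · exact absurd rfl h
  · have hz : z ≠ 0 := by
      rintro rfl; exact h' P1.inv_zero
    rw [inv_of hz, fin_of, fin_of, inv_mul_cancel₀ hz]

theorem blowUpAt_first : IsBlowUpAt proj ctr (of 0, P1.inf) := by
  refine ⟨ch01, c_mem_atlas chart0_mem chart1_mem, E 2, E_mem_maximalAtlas 2 (by norm_num),
    E 1, E_mem_maximalAtlas 1 (by norm_num), ?_, ?_, ?_, ?_, ?_, ?_, ?_, ?_, ?_, ?_⟩
  · exact (mem_ch01 _).2 ⟨of_ne_inf 0, by rw [inv_inf]; exact of_ne_inf 0⟩
  · change (fin (of 0), fin (inv P1.inf)) = 0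
    rw [inv_inf]; rfl
  · ext q
    simp only [mem_inter_iff, mem_singleton_iff, ctr, mem_insert_iff]
    constructor
    · rintro ⟨h, rfl | rfl⟩
      · rfl
      · exact absurd rfl h.1
    · rintro rfl
      exact ⟨(mem_ch01 _).2 ⟨of_ne_inf 0, by rw [inv_inf]; exact of_ne_inf 0⟩, Or.inl rfl⟩
  · ext p
    constructor
    · rintro (hp | hp)
      · rw [eq_symm 2 p hp, mem_preimage, proj_symm2]
        exact (mem_ch01 _).2 ⟨of_ne_inf _, by rw [P1.inv_inv]; exact of_ne_inf _⟩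
      · rw [eq_symm 1 p hp, mem_preimage, proj_symm1]
        exact (mem_ch01 _).2 ⟨of_ne_inf _, by rw [P1.inv_inv]; exact of_ne_inf _⟩
    · intro hp
      rw [mem_preimage, mem_ch01] at hp
      rcases u_cases p with h | h
      · right; exact (mem_E1 p).2 ⟨h, hp.2⟩
      · left; exact (mem_E2 p).2 ⟨hp.1, h⟩
  · rw [E_target]
    ext w
    simp [ch01, chart0, chart1]
  · rw [E_target]
    ext w
    simp [ch01, chart0, chart1]
  · intro p hp
    conv_lhs => rw [eq_symm 2 p hp, proj_symm2]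
    change (fin (of _), fin (inv (inv (of _)))) = _
    rw [P1.inv_inv, mul_comm]
    rfl
  · intro p hp
    conv_lhs => rw [eq_symm 1 p hp, proj_symm1]
    change (fin (of _), fin (inv (inv (of _)))) = _
    rw [P1.inv_inv, mul_comm]
    rfl
  · intro p hp
    have hpy : inv p.y ≠ P1.inf := by
      have h2 : (proj p).2 = p.y := rfl
      rw [← h2, eq_symm 2 p hp, proj_symm2, P1.inv_inv]
      exact of_ne_inf _
    rw [mem_E1, E2_apply, fin_inv_ne _ ((mem_E2 p).1 hp).2]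
    exact ⟨fun h => h.1, fun h => ⟨h, hpy⟩⟩
  · rintro p ⟨hp, hp'⟩
    rw [E2_apply, E1_apply]
    exact fin_mul_inv _ ((mem_E1 p).1 hp').1 ((mem_E2 p).1 hp).2

theorem blowUpAt_second : IsBlowUpAt proj ctr (P1.inf, of 0) := by
  refine ⟨ch10, c_mem_atlas chart1_mem chart0_mem, E 5, E_mem_maximalAtlas 5 (by norm_num),
    E 4, E_mem_maximalAtlas 4 (by norm_num), ?_, ?_, ?_, ?_, ?_, ?_, ?_, ?_, ?_, ?_⟩
  · exact (mem_ch10 _).2 ⟨by rw [inv_inf]; exact of_ne_inf 0, of_ne_inf 0⟩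
  · change (fin (inv P1.inf), fin (of 0)) = 0
    rw [inv_inf]; rfl
  · ext q
    simp only [mem_inter_iff, mem_singleton_iff, ctr, mem_insert_iff]
    constructor
    · rintro ⟨h, rfl | rfl⟩
      · exact absurd rfl h.2
      · rfl
    · rintro rfl
      exact ⟨(mem_ch10 _).2 ⟨by rw [inv_inf]; exact of_ne_inf 0, of_ne_inf 0⟩, Or.inr rfl⟩
  · ext p
    constructor
    · rintro (hp | hp)
      · rw [eq_symm 5 p hp, mem_preimage, proj_symm5]
        exact (mem_ch10 _).2 ⟨by rw [P1.inv_inv]; exact of_ne_inf _, of_ne_inf _⟩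
      · rw [eq_symm 4 p hp, mem_preimage, proj_symm4]
        exact (mem_ch10 _).2 ⟨by rw [P1.inv_inv]; exact of_ne_inf _, of_ne_inf _⟩
    · intro hp
      rw [mem_preimage, mem_ch10] at hp
      rcases u_cases p with h | h
      · left; exact (mem_E5 p).2 ⟨hp.1, h⟩
      · right; exact (mem_E4 p).2 ⟨h, hp.2⟩
  · rw [E_target]
    ext w
    simp [ch10, chart0, chart1]
  · rw [E_target]
    ext w
    simp [ch10, chart0, chart1]
  · intro p hp
    conv_lhs => rw [eq_symm 5 p hp, proj_symm5]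
    change (fin (inv (inv (of _))), fin (of _)) = _
    rw [P1.inv_inv, mul_comm]
    rfl
  · intro p hp
    conv_lhs => rw [eq_symm 4 p hp, proj_symm4]
    change (fin (inv (inv (of _))), fin (of _)) = _
    rw [P1.inv_inv, mul_comm]
    rfl
  · intro p hp
    have hpy : p.y ≠ P1.inf := by
      have h2 : (proj p).2 = p.y := rfl
      rw [← h2, eq_symm 5 p hp, proj_symm5]
      exact of_ne_inf _
    rw [mem_E4, E5_apply]
    change _ ↔ fin (inv (inv p.u)) ≠ 0
    rw [P1.inv_inv, fin_ne _ ((mem_E5 p).1 hp).2]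
    exact ⟨fun h => h.1, fun h => ⟨h, hpy⟩⟩
  · rintro p ⟨hp, hp'⟩
    rw [E5_apply, E4_apply]
    change fin (inv (inv p.u)) * fin (inv p.u) = 1
    rw [P1.inv_inv, mul_comm]
    exact fin_mul_inv _ ((mem_E5 p).1 hp).2 ((mem_E4 p).1 hp').1

/-- `X` is the blow-up of `P1 × P1` at the two points `(0, ∞)` and `(∞, 0)`. -/
theorem isBlowUp : IsBlowUp proj ctr where
  finite := (Set.finite_singleton _).insert _
  holomorphic := contMDiff_proj
  biholomorphic := ⟨sec, contMDiffOn_sec, proj_sec,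
    fun x hx => proj_inj _ _ (proj_sec _ hx) (by rw [proj_sec _ hx]; exact hx)⟩
  centre := by
    rintro p (rfl | rfl)
    · exact blowUpAt_first
    · exact blowUpAt_second

end X6

end Pool.Agent.H930R2
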