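import Pool.Agent.H930R2.Digits

set_option autoImplicit false

/-! # The certificate: positivity of the curvature polynomials -/

open Polynomial

namespace Pool.Agent.H930R2

namespace DP

/-- map of formal differences -/
def map {S T : Type*} (f : S → T) (a : DP S) : DP T := ⟨f a.p, f a.n⟩

/-- the value of a formal difference of real numbers -/
def val (a : DP ℝ) : ℝ := a.p - a.n

@[simp] theorem add_p {S : Type*} [Add S] (a b : DP S) : (a + b).p = a.p + b.p := rfl
@[simp] theorem add_n {S : Type*} [Add S] (a b : DP S) : (a + b).n = a.n + b.n := rfl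
@[simp] theorem sub_p {S : Type*} [Add S] (a b : DP S) : (a - b).p = a.p + b.n := rfl
@[simp] theorem sub_n {S : Type*} [Add S] (a b : DP S) : (a - b).n = a.n + b.p := rfl
@[simp] theorem mul_p {S : Type*} [Add S] [Mul S] (a b : DP S) :
    (a * b).p = a.p * b.p + a.n * b.n := rfl
@[simp] theorem mul_n {S : Type*} [Add S] [Mul S] (a b : DP S) :
    (a * b).n = a.p * b.n + a.n * b.p := rfl
@[simp] theorem lit_p {S : Type*} [NatCast S] (k : ℕ) : (Lit.lit k : DP S).p = (k : S) := rfl
@[simp] theorem lit_n {S : Type*} [NatCast S] (k : ℕ) :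
    (Lit.lit k : DP S).n = ((0 : ℕ) : S) := rfl

theorem ext' {S : Type*} {a b : DP S} (h1 : a.p = b.p) (h2 : a.n = b.n) : a = b := by
  cases a; cases b; simp_all

theorem isMor_map {S T : Type*} [Semiring S] [Semiring T] (f : S →+* T) :
    IsMor (DP.map f) where
  add a b := ext' (by simp [map]) (by simp [map])
  sub a b := ext' (by simp [map]) (by simp [map])
  mul a b := ext' (by simp [map]) (by simp [map])
  lit n := ext' (by simp [map]) (by simp [map])

end DP

noncomputable instance : Lit ℝ := ⟨fun n => (n : ℝ)⟩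

theorem DP.isMor_val : IsMor DP.val where
  add a b := by simp [val]; ring
  sub a b := by simp [val]; ring
  mul a b := by simp [val]; ring
  lit n := by simp [val]; rfl

theorem ee_map {S T : Type*} [Semiring S] [Semiring T] (f : S →+* T) (i m : ℕ) (x : S) :
    f (ee i m x) = ee i m (f x) := by
  simp only [ee, map_mul, map_natCast, map_pow, map_add, map_one]

theorem ph_map {S T : Type*} [Semiring S] [Semiring T] (f : S →+* T) (m n : ℕ) (x y : S) :
    f (ph m n x y) = ph m n (f x) (f y) := by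
  simp only [ph, map_add, map_mul, map_natCast, ee_map]

theorem jetD_map {S T : Type*} [Semiring S] [Semiring T] (f : S →+* T) (x y : S) :
    (jetD x y).map (DP.map f) = jetD (f x) (f y) := by
  simp only [jetD, Jets.map, DP.map, DP.of, ph_map, map_mul, map_natCast]

theorem cc_map {S T : Type*} [Semiring S] [Semiring T] (f : S →+* T) (x y : S) :
    DP.map f (cc x y) = cc (f x) (f y) := by
  simp only [cc, DP.map, DP.of, map_mul, map_natCast, map_pow, map_add, map_one]

/-- the real jet -/
noncomputable def jetR (x y : ℝ) : Jets ℝ where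
  t1 := 2 * x
  t2 := 2 * y
  p00 := ph 0 0 x y
  p10 := ph 1 0 x y
  p01 := ph 0 1 x y
  p20 := ph 2 0 x y
  p11 := ph 1 1 x y
  p02 := ph 0 2 x y
  p30 := ph 3 0 x y
  p21 := ph 2 1 x y
  p12 := ph 1 2 x y
  p03 := ph 0 3 x y
  p40 := ph 4 0 x y
  p31 := ph 3 1 x y
  p22 := ph 2 2 x y
  p13 := ph 1 3 x y
  p04 := ph 0 4 x y

theorem jetD_val (x y : ℝ) : (jetD x y).map DP.val = jetR x y := by
  simp [jetD, jetR, Jets.map, DP.val, DP.of]

/-- the real constant -/
noncomputable def cR (x y : ℝ) : ℝ := 46394769408 * (1 + x) ^ 25 * (1 + y) ^ 25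

theorem cc_val (x y : ℝ) : DP.val (cc x y) = cR x y := by
  simp [cc, cR, DP.val, DP.of]

/-- the symbolic jet -/
noncomputable def jetX : Jets (DP ℕ[X][X]) := jetD (C X) X

noncomputable def ccX : DP ℕ[X][X] := cc (C X) X

theorem ev2_CX {S : Type*} [CommSemiring S] (x y : S) : ev2 x y (C X) = x := by
  simp [ev2, ev1]

theorem ev2_X {S : Type*} [CommSemiring S] (x y : S) : ev2 x y (X : ℕ[X][X]) = y := by
  simp [ev2]

theorem jetX_map {S : Type*} [CommSemiring S] (x y : S) :
    jetX.map (DP.map (ev2 x y)) = jetD x y := by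
  rw [jetX, jetD_map, ev2_CX, ev2_X]

theorem ccX_map {S : Type*} [CommSemiring S] (x y : S) :
    DP.map (ev2 x y) ccX = cc x y := by
  rw [ccX, cc_map, ev2_CX, ev2_X]

/-- a formula (function of a jet and of a constant, natural in the type) -/
structure Formula where
  toFun : ∀ {A : Type} [Add A] [Sub A] [Mul A] [Lit A], Jets A → A → A
  nat : ∀ {A B : Type} [Add A] [Sub A] [Mul A] [Lit A] [Add B] [Sub B] [Mul B] [Lit B]
    (f : A → B), IsMor f → ∀ (J : Jets A) (c : A), f (toFun J c) = toFun (J.map f) (f c)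

/-- the digitwise check -/
def Formula.check (F : Formula) (b B k l : ℕ) : Bool :=
  let v := F.toFun (jetD (S := ℕ) b B) (cc b B)
  let w := F.toFun (jetD (S := ℕ) 1 1) (cc 1 1)
  let u := F.toFun (jetD (S := ℕ) b 1) (cc b 1)
  let z := F.toFun (jetD (S := ℕ) 0 0) (cc 0 0)
  Nat.blt w.p b && Nat.blt w.n b && Nat.blt u.p B && Nat.blt u.n B && Nat.blt z.n z.p &&
    cmpTab b B k l v.p v.n

theorem Formula.sound (F : Formula) (b B k l : ℕ) (hb : 0 < b) (hB : 0 < B)
    (h : F.check b B k l = true) (x y : ℝ) (hx : 0 ≤ x) (hy : 0 ≤ y) :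
    0 < F.toFun (jetR x y) (cR x y) := by
  have key : ∀ a c : ℕ, F.toFun (jetD (S := ℕ) a c) (cc a c) =
      DP.map (ev2 a c) (F.toFun jetX ccX) := by
    intro a c
    rw [F.nat _ (DP.isMor_map (ev2 a c)), jetX_map, ccX_map]
  have keyR : F.toFun (jetR x y) (cR x y) =
      ev2 x y (F.toFun jetX ccX).p - ev2 x y (F.toFun jetX ccX).n := by
    have h1 : DP.val (DP.map (ev2 x y) (F.toFun jetX ccX)) = F.toFun (jetR x y) (cR x y) := by
      rw [F.nat _ (DP.isMor_map (ev2 x y)), jetX_map, ccX_map, F.nat _ DP.isMor_val, jetD_val,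
        cc_val]
    rw [← h1]; rfl
  simp only [Formula.check, key, DP.map, Bool.and_eq_true] at h
  obtain ⟨⟨⟨⟨⟨h1, h2⟩, h3⟩, h4⟩, h5⟩, h6⟩ := h
  rw [keyR]
  exact pos_of_check _ _ b B k l hb hB (by simpa [Nat.blt] using h1) (by simpa [Nat.blt] using h2)
    (by simpa [Nat.blt] using h3) (by simpa [Nat.blt] using h4) (by simpa [Nat.blt] using h5) h6
    x y hx hy

def fA11 : Formula := ⟨fun J _ => A11 J, fun _ h J _ => A11_map h J⟩
def fD3 : Formula := ⟨fun J _ => D3 J, fun _ h J _ => D3_map h J⟩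
def fn1 : Formula := ⟨fun J _ => n1 J, fun _ h J _ => n1_map h J⟩
def fmu8 : Formula := ⟨fun J c => mu8 J c, fun _ h J c => mu8_map h J c⟩
def fEE : Formula := ⟨fun J c => EE J c, fun _ h J c => EE_map h J c⟩
def fDD : Formula := ⟨fun J c => DD J c, fun _ h J c => DD_map h J c⟩

theorem check_A11 : fA11.check (2 ^ 64) (2 ^ 5120) 80 80 = true := by decide +kernel
theorem check_D3 : fD3.check (2 ^ 64) (2 ^ 5120) 80 80 = true := by decide +kernel
theorem check_n1 : fn1.check (2 ^ 256) (2 ^ 20480) 80 80 = true := by decide +kernel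
theorem check_mu8 : fmu8.check (2 ^ 256) (2 ^ 20480) 80 80 = true := by decide +kernel
theorem check_EE : fEE.check (2 ^ 448) (2 ^ 35840) 80 80 = true := by decide +kernel
theorem check_DD : fDD.check (2 ^ 448) (2 ^ 35840) 80 80 = true := by decide +kernel

/-- The certificate. -/
theorem cert (x y : ℝ) (hx : 0 ≤ x) (hy : 0 ≤ y) :
    0 < A11 (jetR x y) ∧ 0 < D3 (jetR x y) ∧ 0 < n1 (jetR x y) ∧
    0 < mu8 (jetR x y) (cR x y) ∧ 0 < EE (jetR x y) (cR x y) ∧ 0 < DD (jetR x y) (cR x y) :=
  ⟨fA11.sound _ _ _ _ (by positivity) (by positivity) check_A11 x y hx hy,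
   fD3.sound _ _ _ _ (by positivity) (by positivity) check_D3 x y hx hy,
   fn1.sound _ _ _ _ (by positivity) (by positivity) check_n1 x y hx hy,
   fmu8.sound _ _ _ _ (by positivity) (by positivity) check_mu8 x y hx hy,
   fEE.sound _ _ _ _ (by positivity) (by positivity) check_EE x y hx hy,
   fDD.sound _ _ _ _ (by positivity) (by positivity) check_DD x y hx hy⟩

end Pool.Agent.H930R2
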