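import Pool.Agent.H930R2.Formula

set_option autoImplicit false

/-! # Formal differences, and the jets of the potential polynomial -/

namespace Pool.Agent.H930R2

/-- formal differences `p - n` -/
structure DP (S : Type*) where
  p : S
  n : S

namespace DP

variable {S : Type*}

instance [Add S] : Add (DP S) := ⟨fun a b => ⟨a.p + b.p, a.n + b.n⟩⟩
instance [Add S] : Sub (DP S) := ⟨fun a b => ⟨a.p + b.n, a.n + b.p⟩⟩
instance [Add S] [Mul S] : Mul (DP S) :=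
  ⟨fun a b => ⟨a.p * b.p + a.n * b.n, a.p * b.n + a.n * b.p⟩⟩
instance [NatCast S] : Lit (DP S) := ⟨fun k => ⟨(k : S), ((0 : ℕ) : S)⟩⟩

/-- a natural polynomial as formal difference -/
def of [NatCast S] (a : S) : DP S := ⟨a, ((0 : ℕ) : S)⟩

end DP

section

variable {S : Type*} [Semiring S]

/-- `(i)_m (2x)^(i-m) (1+x)^(4-i)` -/
def ee (i m : ℕ) (x : S) : S :=
  ((i.descFactorial m : ℕ) : S) * ((2 : ℕ) * x) ^ (i - m) * (1 + x) ^ (4 - i)

/-- the homogenised derivatives of the potential polynomial, at `t = 2x/(1+x)` -/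
def ph (m n : ℕ) (x y : S) : S :=
  ee 0 m x * ((8 : ℕ) * ee 0 n y + (20 : ℕ) * ee 1 n y + (8 : ℕ) * ee 2 n y) +
  ee 1 m x * ((20 : ℕ) * ee 0 n y + (83 : ℕ) * ee 1 n y + (83 : ℕ) * ee 2 n y +
    (20 : ℕ) * ee 3 n y) +
  ee 2 m x * ((8 : ℕ) * ee 0 n y + (83 : ℕ) * ee 1 n y + (82 : ℕ) * ee 2 n y +
    (83 : ℕ) * ee 3 n y + (8 : ℕ) * ee 4 n y) +
  ee 3 m x * ((20 : ℕ) * ee 1 n y + (83 : ℕ) * ee 2 n y + (83 : ℕ) * ee 3 n y +
    (20 : ℕ) * ee 4 n y) +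
  ee 4 m x * ((8 : ℕ) * ee 2 n y + (20 : ℕ) * ee 3 n y + (8 : ℕ) * ee 4 n y)

/-- the homogenised jet -/
def jetD (x y : S) : Jets (DP S) where
  t1 := DP.of ((2 : ℕ) * x)
  t2 := DP.of ((2 : ℕ) * y)
  p00 := DP.of (ph 0 0 x y)
  p10 := DP.of (ph 1 0 x y)
  p01 := DP.of (ph 0 1 x y)
  p20 := DP.of (ph 2 0 x y)
  p11 := DP.of (ph 1 1 x y)
  p02 := DP.of (ph 0 2 x y)
  p30 := DP.of (ph 3 0 x y)
  p21 := DP.of (ph 2 1 x y)
  p12 := DP.of (ph 1 2 x y)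
  p03 := DP.of (ph 0 3 x y)
  p40 := DP.of (ph 4 0 x y)
  p31 := DP.of (ph 3 1 x y)
  p22 := DP.of (ph 2 2 x y)
  p13 := DP.of (ph 1 3 x y)
  p04 := DP.of (ph 0 4 x y)

/-- the homogenised constant term `24 * n6(0,0) * (1+x)^25 * (1+y)^25` -/
def cc (x y : S) : DP S := DP.of ((46394769408 : ℕ) * (1 + x) ^ 25 * (1 + y) ^ 25)

end

/-- digitwise comparison of two naturals in base `b` -/
def cmpRow (b : ℕ) : ℕ → ℕ → ℕ → Bool
  | 0, _, v => Nat.beq v 0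
  | k + 1, u, v => Nat.ble (v % b) (u % b) && cmpRow b k (u / b) (v / b)

/-- digitwise comparison, two levels -/
def cmpTab (b B k : ℕ) : ℕ → ℕ → ℕ → Bool
  | 0, _, v => Nat.beq v 0
  | l + 1, u, v => cmpRow b k (u % B) (v % B) && cmpTab b B k l (u / B) (v / B)

end Pool.Agent.H930R2
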