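import Pool.Agent.H930R2.DP

set_option autoImplicit false

/-! # Reading off coefficients of polynomials with natural coefficients -/

open Polynomial

namespace Pool.Agent.H930R2

/-- evaluation of a univariate natural polynomial in a commutative semiring -/
noncomputable def ev1 {S : Type*} [CommSemiring S] (x : S) : ℕ[X] →+* S :=
  eval₂RingHom (Nat.castRingHom S) x

/-- evaluation of a bivariate natural polynomial in a commutative semiring -/
noncomputable def ev2 {S : Type*} [CommSemiring S] (x y : S) : ℕ[X][X] →+* S :=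
  eval₂RingHom (ev1 x) y

theorem ev1_step {S : Type*} [CommSemiring S] (x : S) (f : ℕ[X]) :
    ev1 x f = (f.coeff 0 : S) + x * ev1 x f.divX := by
  conv_lhs => rw [← divX_mul_X_add f]
  simp [ev1, mul_comm, add_comm]

theorem ev2_step {S : Type*} [CommSemiring S] (x y : S) (f : ℕ[X][X]) :
    ev2 x y f = ev1 x (f.coeff 0) + y * ev2 x y f.divX := by
  conv_lhs => rw [← divX_mul_X_add f]
  simp [ev2, mul_comm, add_comm]

theorem ev1_nonneg {x : ℝ} (hx : 0 ≤ x) (f : ℕ[X]) : 0 ≤ ev1 x f := by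
  simp only [ev1, coe_eval₂RingHom, eval₂_eq_sum, Polynomial.sum]
  exact Finset.sum_nonneg fun i _ => mul_nonneg (by simp) (pow_nonneg hx _)

theorem ev1_eq_zero {b : ℕ} (hb : 0 < b) (f : ℕ[X]) (h : ev1 b f = 0) : f = 0 := by
  simp only [ev1, coe_eval₂RingHom, eval₂_eq_sum, Polynomial.sum, Finset.sum_eq_zero_iff] at h
  by_contra hne
  obtain ⟨i, hi⟩ : ∃ i, i ∈ f.support := by
    by_contra hcon
    push Not at hcon
    exact hne (by ext j; simpa using hcon j)
  have := h i hi
  simp at this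
  rcases this with h1 | h1
  · exact (mem_support_iff.1 hi) h1
  · omega

theorem ev1_le_ev1_one (f : ℕ[X]) (i : ℕ) : f.coeff i ≤ ev1 1 f := by
  simp only [ev1, coe_eval₂RingHom, eval₂_eq_sum, Polynomial.sum]
  by_cases hi : i ∈ f.support
  · have := Finset.single_le_sum (f := fun e => (Nat.castRingHom ℕ) (f.coeff e) * 1 ^ e)
      (fun _ _ => Nat.zero_le _) hi
    simpa using this
  · rw [notMem_support_iff.1 hi]; exact Nat.zero_le _

theorem cmpRow_sound (b : ℕ) (hb : 0 < b) : ∀ (k : ℕ) (f g : ℕ[X]),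
    (∀ i, f.coeff i < b) → (∀ i, g.coeff i < b) → cmpRow b k (ev1 b f) (ev1 b g) = true →
    (∀ x : ℝ, 0 ≤ x → ev1 x g + f.coeff 0 ≤ ev1 x f + g.coeff 0) ∧ g.coeff 0 ≤ f.coeff 0 := by
  intro k
  induction k with
  | zero =>
    intro f g _ _ h
    have hg : ev1 b g = 0 := by simpa [cmpRow] using h
    have hg0 : g = 0 := ev1_eq_zero hb g hg
    subst hg0
    refine ⟨fun x hx => ?_, by simp⟩
    rw [ev1_step x f]
    simp only [map_zero, zero_add, coeff_zero, Nat.cast_zero, add_zero]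
    have := mul_nonneg hx (ev1_nonneg hx f.divX)
    linarith
  | succ k ih =>
    intro f g hf hg h
    have hf1 : ev1 b f % b = f.coeff 0 := by
      rw [ev1_step]
      rw [Nat.add_mul_mod_self_left, Nat.cast_id, Nat.mod_eq_of_lt (hf 0)]
    have hg1 : ev1 b g % b = g.coeff 0 := by
      rw [ev1_step]
      rw [Nat.add_mul_mod_self_left, Nat.cast_id, Nat.mod_eq_of_lt (hg 0)]
    have hf2 : ev1 b f / b = ev1 b f.divX := by
      rw [ev1_step, Nat.add_mul_div_left _ _ hb, Nat.cast_id, Nat.div_eq_of_lt (hf 0), zero_add]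
    have hg2 : ev1 b g / b = ev1 b g.divX := by
      rw [ev1_step, Nat.add_mul_div_left _ _ hb, Nat.cast_id, Nat.div_eq_of_lt (hg 0), zero_add]
    simp only [cmpRow, Bool.and_eq_true, hf1, hg1, hf2, hg2, Nat.ble_eq] at h
    obtain ⟨h1, h2⟩ := h
    have h3 := ih f.divX g.divX (fun i => by rw [coeff_divX]; exact hf _)
      (fun i => by rw [coeff_divX]; exact hg _) h2
    refine ⟨fun x hx => ?_, h1⟩
    rw [ev1_step x f, ev1_step x g]
    have h4 := h3.1 x hx
    have h5 : (g.divX.coeff 0 : ℝ) ≤ f.divX.coeff 0 := by exact_mod_cast h3.2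
    have h6 : ev1 x g.divX ≤ ev1 x f.divX := by linarith
    have := mul_le_mul_of_nonneg_left h6 hx
    linarith

theorem cmpTab_sound (b B : ℕ) (hb : 0 < b) (hB : 0 < B) (k : ℕ) : ∀ (l : ℕ) (f g : ℕ[X][X]),
    (∀ j i, (f.coeff j).coeff i < b) → (∀ j i, (g.coeff j).coeff i < b) →
    (∀ j, ev1 b (f.coeff j) < B) → (∀ j, ev1 b (g.coeff j) < B) →
    cmpTab b B k l (ev2 b B f) (ev2 b B g) = true →
    (∀ x y : ℝ, 0 ≤ x → 0 ≤ y → ev2 x y g + (f.coeff 0).coeff 0 ≤
      ev2 x y f + (g.coeff 0).coeff 0) ∧ (g.coeff 0).coeff 0 ≤ (f.coeff 0).coeff 0 := by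
  intro l
  induction l with
  | zero =>
    intro f g _ _ _ _ h
    have hg : ev2 b B g = 0 := by simpa [cmpTab] using h
    have hg0 : g = 0 := by
      simp only [ev2, coe_eval₂RingHom, eval₂_eq_sum, Polynomial.sum,
        Finset.sum_eq_zero_iff] at hg
      ext j : 1
      by_cases hj : j ∈ g.support
      · have := hg j hj
        rcases mul_eq_zero.1 this with h1 | h1
        · rw [coeff_zero]; exact ev1_eq_zero hb _ h1
        · exact absurd h1 (pow_ne_zero _ hB.ne')
      · rw [notMem_support_iff.1 hj, coeff_zero]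
    subst hg0
    refine ⟨fun x y hx hy => ?_, by simp⟩
    have h1 : 0 ≤ ev2 x y f.divX := by
      simp only [ev2, coe_eval₂RingHom, eval₂_eq_sum, Polynomial.sum]
      exact Finset.sum_nonneg fun i _ => mul_nonneg (ev1_nonneg hx _) (pow_nonneg hy _)
    rw [ev2_step x y f, ev1_step x (f.coeff 0)]
    simp only [map_zero, zero_add, coeff_zero, Nat.cast_zero, add_zero]
    have := mul_nonneg hx (ev1_nonneg hx (f.coeff 0).divX)
    have := mul_nonneg hy h1
    linarith
  | succ l ih =>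
    intro f g hf hg hf' hg' h
    have hf1 : ev2 b B f % B = ev1 b (f.coeff 0) := by
      rw [ev2_step, Nat.add_mul_mod_self_left, Nat.mod_eq_of_lt (hf' 0)]
    have hg1 : ev2 b B g % B = ev1 b (g.coeff 0) := by
      rw [ev2_step, Nat.add_mul_mod_self_left, Nat.mod_eq_of_lt (hg' 0)]
    have hf2 : ev2 b B f / B = ev2 b B f.divX := by
      rw [ev2_step, Nat.add_mul_div_left _ _ hB, Nat.div_eq_of_lt (hf' 0), zero_add]
    have hg2 : ev2 b B g / B = ev2 b B g.divX := by
      rw [ev2_step, Nat.add_mul_div_left _ _ hB, Nat.div_eq_of_lt (hg' 0), zero_add]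
    simp only [cmpTab, Bool.and_eq_true, hf1, hg1, hf2, hg2] at h
    obtain ⟨h1, h2⟩ := h
    have h3 := ih f.divX g.divX (fun j i => by rw [coeff_divX]; exact hf _ _)
      (fun j i => by rw [coeff_divX]; exact hg _ _) (fun j => by rw [coeff_divX]; exact hf' _)
      (fun j => by rw [coeff_divX]; exact hg' _) h2
    have h4 := cmpRow_sound b hb k _ _ (hf 0) (hg 0) h1
    refine ⟨fun x y hx hy => ?_, h4.2⟩
    rw [ev2_step x y f, ev2_step x y g]
    have h5 := h3.1 x y hx hy
    have h6 : (((g.divX).coeff 0).coeff 0 : ℝ) ≤ ((f.divX).coeff 0).coeff 0 := by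
      exact_mod_cast h3.2
    have h7 : ev2 x y g.divX ≤ ev2 x y f.divX := by linarith
    have := mul_le_mul_of_nonneg_left h7 hy
    have := h4.1 x hx
    linarith

/-- the complete check for a formal difference of bivariate natural polynomials:
the coefficient bounds, the digitwise comparison and a strict inequality for the constant terms -/
theorem pos_of_check (f g : ℕ[X][X]) (b B k l : ℕ)
    (hb : 0 < b) (hB : 0 < B)
    (hf1 : ev2 1 1 f < b) (hg1 : ev2 1 1 g < b) (hf2 : ev2 b 1 f < B) (hg2 : ev2 b 1 g < B)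
    (h0 : ev2 0 0 g < ev2 0 0 f)
    (h : cmpTab b B k l (ev2 b B f) (ev2 b B g) = true) (x y : ℝ) (hx : 0 ≤ x) (hy : 0 ≤ y) :
    0 < ev2 x y f - ev2 x y g := by
  have key : ∀ (f : ℕ[X][X]) (j : ℕ) (c : ℕ), ev1 c (f.coeff j) ≤ ev2 c 1 f := by
    intro f j c
    simp only [ev2, coe_eval₂RingHom, eval₂_eq_sum, Polynomial.sum, one_pow, mul_one]
    by_cases hj : j ∈ f.support
    · exact Finset.single_le_sum (f := fun e => ev1 c (f.coeff e)) (fun _ _ => Nat.zero_le _) hj
    · rw [notMem_support_iff.1 hj, map_zero]; exact Nat.zero_le _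
  have key2 : ∀ (f : ℕ[X][X]) (j i : ℕ), (f.coeff j).coeff i ≤ ev2 1 1 f := fun f j i =>
    (ev1_le_ev1_one _ _).trans (key f j 1)
  have key3 : ∀ (f : ℕ[X][X]), ev2 0 0 f = (f.coeff 0).coeff 0 := by
    intro f
    rw [ev2_step, ev1_step]; simp
  have := (cmpTab_sound b B hb hB k l f g (fun j i => (key2 f j i).trans_lt hf1)
    (fun j i => (key2 g j i).trans_lt hg1) (fun j => (key f j b).trans_lt hf2)
    (fun j => (key g j b).trans_lt hg2) h).1 x y hx hy
  rw [key3, key3] at h0
  have h0' : (((g.coeff 0).coeff 0 : ℕ) : ℝ) < ((f.coeff 0).coeff 0 : ℕ) := by exact_mod_cast h0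
  linarith

end Pool.Agent.H930R2
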