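import Mathlib

set_option autoImplicit false

/-!
# Polymorphic curvature formulas

All the formulas needed for the curvature numerator are written once, for an arbitrary type with
addition, subtraction, multiplication and numerals.  They are used for the real numbers and
for pairs of polynomials (differences of polynomials with natural coefficients).
-/

namespace Pool.Agent.H930R2

/-- numerals -/
class Lit (A : Type*) where
  /-- the numeral `n` -/
  lit : ℕ → A

/-- The jets of a bivariate function `p` at a point `(t1, t2)`: partial derivatives up to order 4. -/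
structure Jets (A : Type*) where
  t1 : A
  t2 : A
  p00 : A
  p10 : A
  p01 : A
  p20 : A
  p11 : A
  p02 : A
  p30 : A
  p21 : A
  p12 : A
  p03 : A
  p40 : A
  p31 : A
  p22 : A
  p13 : A
  p04 : A

/-- apply a map to all entries of a jet -/
def Jets.map {A B : Type*} (f : A → B) (J : Jets A) : Jets B :=
  ⟨f J.t1, f J.t2, f J.p00, f J.p10, f J.p01, f J.p20, f J.p11, f J.p02, f J.p30, f J.p21,
    f J.p12, f J.p03, f J.p40, f J.p31, f J.p22, f J.p13, f J.p04⟩

section Formulas

variable {A : Type*} [Add A] [Sub A] [Mul A] [Lit A]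

open Lit

def t12 (J : Jets A) : A := J.t1 * J.t2
def c11 (J : Jets A) : A := J.p10 + J.t1 * J.p20
def c22 (J : Jets A) : A := J.p01 + J.t2 * J.p02
def A11 (J : Jets A) : A := J.p00 * c11 J - J.t1 * (J.p10 * J.p10)
def A22 (J : Jets A) : A := J.p00 * c22 J - J.t2 * (J.p01 * J.p01)
def A12 (J : Jets A) : A := J.p00 * J.p11 - J.p10 * J.p01
def al (J : Jets A) : A := c11 J * c22 J - t12 J * (J.p11 * J.p11)
def be1 (J : Jets A) : A := J.p10 * c22 J - J.t2 * (J.p01 * J.p11)
def be2 (J : Jets A) : A := J.p01 * c11 J - J.t1 * (J.p10 * J.p11)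
def D3 (J : Jets A) : A := J.p00 * al J - J.t1 * (J.p10 * be1 J) - J.t2 * (J.p01 * be2 J)

def rho1 (J : Jets A) : A := lit 2 * J.p20 + J.t1 * J.p30
def rho2 (J : Jets A) : A := J.p11 + J.t1 * J.p21
def sig2 (J : Jets A) : A := J.p11 + J.t2 * J.p12
def sig3 (J : Jets A) : A := lit 2 * J.p02 + J.t2 * J.p03

def q11 (J : Jets A) : A := lit 2 * J.p20 + lit 4 * (J.t1 * J.p30) + J.t1 * (J.t1 * J.p40)
def q22 (J : Jets A) : A := J.p11 + J.t1 * J.p21 + J.t2 * J.p12 + t12 J * J.p22
def q33 (J : Jets A) : A := lit 2 * J.p02 + lit 4 * (J.t2 * J.p03) + J.t2 * (J.t2 * J.p04)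
def q12 (J : Jets A) : A := lit 2 * J.p21 + J.t1 * J.p31
def q23 (J : Jets A) : A := lit 2 * J.p12 + J.t2 * J.p13

def K11 (J : Jets A) : A :=
  q11 J * D3 J -
    J.t1 * (J.t1 * (J.p20 * J.p20 * al J) + rho1 J * rho1 J * A22 J +
      t12 J * (J.p21 * J.p21 * A11 J) - lit 2 * (J.t1 * (J.p20 * rho1 J * be1 J)) -
      lit 2 * (t12 J * (J.p20 * J.p21 * be2 J)) - lit 2 * (t12 J * (rho1 J * J.p21 * A12 J)))

def K33 (J : Jets A) : A :=
  q33 J * D3 J -
    J.t2 * (J.t2 * (J.p02 * J.p02 * al J) + sig3 J * sig3 J * A11 J +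
      t12 J * (J.p12 * J.p12 * A22 J) - lit 2 * (J.t2 * (J.p02 * sig3 J * be2 J)) -
      lit 2 * (t12 J * (J.p02 * J.p12 * be1 J)) - lit 2 * (t12 J * (sig3 J * J.p12 * A12 J)))

def K22 (J : Jets A) : A :=
  q22 J * D3 J -
    (t12 J * (J.p11 * J.p11 * al J) + J.t2 * (rho2 J * rho2 J * A22 J) +
      J.t1 * (sig2 J * sig2 J * A11 J) - lit 2 * (t12 J * (J.p11 * rho2 J * be1 J)) -
      lit 2 * (t12 J * (J.p11 * sig2 J * be2 J)) - lit 2 * (t12 J * (rho2 J * sig2 J * A12 J)))

def K12 (J : Jets A) : A :=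
  q12 J * D3 J -
    (J.t1 * (J.p20 * J.p11 * al J) - J.t1 * (J.p20 * be1 J * rho2 J) -
      J.t1 * (J.p20 * be2 J * sig2 J) - J.t1 * (rho1 J * be1 J * J.p11) +
      rho1 J * rho2 J * A22 J - J.t1 * (rho1 J * sig2 J * A12 J) -
      t12 J * (J.p21 * be2 J * J.p11) - t12 J * (J.p21 * rho2 J * A12 J) +
      J.t1 * (J.p21 * sig2 J * A11 J))

def K23 (J : Jets A) : A :=
  q23 J * D3 J -
    (J.t2 * (J.p11 * J.p02 * al J) - t12 J * (J.p11 * be1 J * J.p12) -
      J.t2 * (J.p11 * be2 J * sig3 J) - J.t2 * (rho2 J * be1 J * J.p02) +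
      J.t2 * (rho2 J * J.p12 * A22 J) - J.t2 * (rho2 J * sig3 J * A12 J) -
      J.t2 * (sig2 J * be2 J * J.p02) - t12 J * (sig2 J * J.p12 * A12 J) +
      sig2 J * sig3 J * A11 J)

def K13 (J : Jets A) : A :=
  J.p22 * D3 J -
    (J.p20 * J.p02 * al J - J.t1 * (J.p20 * be1 J * J.p12) - J.p20 * be2 J * sig3 J -
      rho1 J * be1 J * J.p02 + rho1 J * J.p12 * A22 J - rho1 J * sig3 J * A12 J -
      J.t2 * (J.p21 * be2 J * J.p02) - t12 J * (J.p21 * J.p12 * A12 J) +
      J.p21 * sig3 J * A11 J)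

def P3 (J : Jets A) : A := J.p00 * J.p00 * J.p00

def n1 (J : Jets A) : A := lit 2 * (A11 J * A11 J * D3 J) - P3 J * K11 J
def n2 (J : Jets A) : A := lit 2 * (A22 J * A22 J * D3 J) - P3 J * K33 J
def n3 (J : Jets A) : A :=
  lit 4 * (A11 J * A22 J * D3 J) - P3 J * (lit 4 * K22 J - lit 2 * (t12 J * K13 J))
def n4 (J : Jets A) : A := lit 4 * (A11 J * A12 J * D3 J) - lit 2 * (P3 J * K12 J)
def n5 (J : Jets A) : A := lit 4 * (A22 J * A12 J * D3 J) - lit 2 * (P3 J * K23 J)
def n6 (J : Jets A) : A := lit 8 * (A12 J * A12 J * D3 J) - lit 4 * (P3 J * K13 J)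

/-- `8 μ` for a given constant `c` (the homogenised constant term) -/
def mu8 (J : Jets A) (c : A) : A := n6 J + c
def m8 (J : Jets A) (c : A) : A := lit 9 * n6 J + c
def k8 (J : Jets A) (c : A) : A := lit 8 * n3 J - t12 J * mu8 J c
def EE (J : Jets A) (c : A) : A := lit 256 * (n1 J * n2 J) - k8 J c * k8 J c
def DD (J : Jets A) (c : A) : A :=
  m8 J c * EE J c - lit 2048 * (n1 J * (n5 J * n5 J)) - lit 2048 * (n2 J * (n4 J * n4 J)) +
    lit 256 * (k8 J c * (n4 J * n5 J))

end Formulas

/-- A map compatible with the operations. -/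
structure IsMor {A B : Type*} [Add A] [Sub A] [Mul A] [Lit A] [Add B] [Sub B] [Mul B] [Lit B]
    (f : A → B) : Prop where
  add : ∀ a b, f (a + b) = f a + f b
  sub : ∀ a b, f (a - b) = f a - f b
  mul : ∀ a b, f (a * b) = f a * f b
  lit : ∀ n, f (Lit.lit n) = Lit.lit n

section Mor

variable {A B : Type*} [Add A] [Sub A] [Mul A] [Lit A] [Add B] [Sub B] [Mul B] [Lit B]
  {f : A → B} (h : IsMor f) (J : Jets A) (c : A)

include h

theorem t12_map : f (t12 J) = t12 (J.map f) := by simp only [t12, Jets.map, h.mul]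
theorem c11_map : f (c11 J) = c11 (J.map f) := by simp only [c11, Jets.map, h.mul, h.add]
theorem c22_map : f (c22 J) = c22 (J.map f) := by simp only [c22, Jets.map, h.mul, h.add]
theorem A11_map : f (A11 J) = A11 (J.map f) := by
  simp only [A11, h.mul, h.sub, c11_map h]; rfl
theorem A22_map : f (A22 J) = A22 (J.map f) := by
  simp only [A22, h.mul, h.sub, c22_map h]; rfl
theorem A12_map : f (A12 J) = A12 (J.map f) := by
  simp only [A12, h.mul, h.sub]; rfl
theorem al_map : f (al J) = al (J.map f) := by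
  simp only [al, h.mul, h.sub, c11_map h, c22_map h, t12_map h]; rfl
theorem be1_map : f (be1 J) = be1 (J.map f) := by
  simp only [be1, h.mul, h.sub, c22_map h]; rfl
theorem be2_map : f (be2 J) = be2 (J.map f) := by
  simp only [be2, h.mul, h.sub, c11_map h]; rfl
theorem D3_map : f (D3 J) = D3 (J.map f) := by
  simp only [D3, h.mul, h.sub, al_map h, be1_map h, be2_map h]; rfl
theorem rho1_map : f (rho1 J) = rho1 (J.map f) := by
  simp only [rho1, h.mul, h.add, h.lit]; rfl
theorem rho2_map : f (rho2 J) = rho2 (J.map f) := by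
  simp only [rho2, h.mul, h.add, h.lit]; rfl
theorem sig2_map : f (sig2 J) = sig2 (J.map f) := by
  simp only [sig2, h.mul, h.add, h.lit]; rfl
theorem sig3_map : f (sig3 J) = sig3 (J.map f) := by
  simp only [sig3, h.mul, h.add, h.lit]; rfl
theorem q11_map : f (q11 J) = q11 (J.map f) := by
  simp only [q11, h.mul, h.add, h.lit]; rfl
theorem q22_map : f (q22 J) = q22 (J.map f) := by
  simp only [q22, h.mul, h.add, h.lit, t12_map h]; rfl
theorem q33_map : f (q33 J) = q33 (J.map f) := by
  simp only [q33, h.mul, h.add, h.lit]; rfl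
theorem q12_map : f (q12 J) = q12 (J.map f) := by
  simp only [q12, h.mul, h.add, h.lit]; rfl
theorem q23_map : f (q23 J) = q23 (J.map f) := by
  simp only [q23, h.mul, h.add, h.lit]; rfl
theorem K11_map : f (K11 J) = K11 (J.map f) := by
  simp only [K11, h.mul, h.add, h.sub, h.lit, q11_map h, D3_map h, al_map h, be1_map h, be2_map h,
    A11_map h, A22_map h, A12_map h, rho1_map h, t12_map h]; rfl
theorem K33_map : f (K33 J) = K33 (J.map f) := by
  simp only [K33, h.mul, h.add, h.sub, h.lit, q33_map h, D3_map h, al_map h, be1_map h, be2_map h,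
    A11_map h, A22_map h, A12_map h, sig3_map h, t12_map h]; rfl
theorem K22_map : f (K22 J) = K22 (J.map f) := by
  simp only [K22, h.mul, h.add, h.sub, h.lit, q22_map h, D3_map h, al_map h, be1_map h, be2_map h,
    A11_map h, A22_map h, A12_map h, rho2_map h, sig2_map h, t12_map h]; rfl
theorem K12_map : f (K12 J) = K12 (J.map f) := by
  simp only [K12, h.mul, h.add, h.sub, h.lit, q12_map h, D3_map h, al_map h, be1_map h, be2_map h,
    A11_map h, A22_map h, A12_map h, rho1_map h, rho2_map h, sig2_map h, t12_map h]; rfl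
theorem K23_map : f (K23 J) = K23 (J.map f) := by
  simp only [K23, h.mul, h.add, h.sub, h.lit, q23_map h, D3_map h, al_map h, be1_map h, be2_map h,
    A11_map h, A22_map h, A12_map h, sig3_map h, rho2_map h, sig2_map h, t12_map h]; rfl
theorem K13_map : f (K13 J) = K13 (J.map f) := by
  simp only [K13, h.mul, h.add, h.sub, h.lit, D3_map h, al_map h, be1_map h, be2_map h,
    A11_map h, A22_map h, A12_map h, rho1_map h, sig3_map h, t12_map h]; rfl
theorem P3_map : f (P3 J) = P3 (J.map f) := by simp only [P3, h.mul]; rfl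
theorem n1_map : f (n1 J) = n1 (J.map f) := by
  simp only [n1, h.mul, h.sub, h.lit, A11_map h, D3_map h, P3_map h, K11_map h]
theorem n2_map : f (n2 J) = n2 (J.map f) := by
  simp only [n2, h.mul, h.sub, h.lit, A22_map h, D3_map h, P3_map h, K33_map h]
theorem n3_map : f (n3 J) = n3 (J.map f) := by
  simp only [n3, h.mul, h.sub, h.lit, A11_map h, A22_map h, D3_map h, P3_map h, K22_map h,
    K13_map h, t12_map h]
theorem n4_map : f (n4 J) = n4 (J.map f) := by
  simp only [n4, h.mul, h.sub, h.lit, A11_map h, A12_map h, D3_map h, P3_map h, K12_map h]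
theorem n5_map : f (n5 J) = n5 (J.map f) := by
  simp only [n5, h.mul, h.sub, h.lit, A22_map h, A12_map h, D3_map h, P3_map h, K23_map h]
theorem n6_map : f (n6 J) = n6 (J.map f) := by
  simp only [n6, h.mul, h.sub, h.lit, A12_map h, D3_map h, P3_map h, K13_map h]
theorem mu8_map : f (mu8 J c) = mu8 (J.map f) (f c) := by
  simp only [mu8, h.add, n6_map h]
theorem m8_map : f (m8 J c) = m8 (J.map f) (f c) := by
  simp only [m8, h.add, h.mul, h.lit, n6_map h]
theorem k8_map : f (k8 J c) = k8 (J.map f) (f c) := by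
  simp only [k8, h.sub, h.mul, h.lit, n3_map h, mu8_map h, t12_map h]
theorem EE_map : f (EE J c) = EE (J.map f) (f c) := by
  simp only [EE, h.sub, h.mul, h.lit, n1_map h, n2_map h, k8_map h]
theorem DD_map : f (DD J c) = DD (J.map f) (f c) := by
  simp only [DD, h.sub, h.add, h.mul, h.lit, n1_map h, n2_map h, k8_map h, n4_map h, n5_map h,
    m8_map h, EE_map h]

end Mor

end Pool.Agent.H930R2
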