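import Pool.Agent.H930R2.Wirt

set_option autoImplicit false

/-! # The curvature of `∂∂̄ log P` -/

open scoped Manifold ContDiff ComplexConjugate
open Complex

namespace Pool.Agent.H930R2

theorem inv_two (M : Matrix (Fin 2) (Fin 2) ℂ) :
    M⁻¹ 0 0 = M 1 1 / M.det ∧ M⁻¹ 0 1 = - M 0 1 / M.det ∧ M⁻¹ 1 0 = - M 1 0 / M.det ∧
      M⁻¹ 1 1 = M 0 0 / M.det := by
  rw [Matrix.inv_def, Matrix.adjugate_fin_two]
  simp [div_eq_inv_mul]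

/-- contraction of the curvature formula -/
theorem chernRv_contract (G : C2 → Matrix (Fin 2) (Fin 2) ℂ) (z v : C2) :
    chernRv G z v =
      - (∑ i, ∑ j, ∑ k, ∑ l, dz k (fun w => dzb l (fun w' => G w' i j) w) z *
        (co v i * conj (co v j) * co v k * conj (co v l))) +
      ∑ q, ∑ p, (∑ i, ∑ k, dz k (fun w => G w i q) z * (co v i * co v k)) * (G z)⁻¹ q p *
        (∑ j, ∑ l, dzb l (fun w => G w p j) z * (conj (co v j) * conj (co v l))) := by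
  simp only [chernRv, chernR, Fin.sum_univ_two]
  ring

namespace PotJets

variable (p : PotJets) (z v : C2)

noncomputable def Bv : ℂ := p.B 0 z * v.1 + p.B 1 z * v.2
noncomputable def B'v : ℂ := p.B' 0 z * conj v.1 + p.B' 1 z * conj v.2
noncomputable def Cv (j : Fin 2) : ℂ := p.C 0 j z * v.1 + p.C 1 j z * v.2
noncomputable def C'v (i : Fin 2) : ℂ := p.C i 0 z * conj v.1 + p.C i 1 z * conj v.2
noncomputable def Cvv : ℂ := p.C 0 0 z * v.1 * conj v.1 + p.C 0 1 z * v.1 * conj v.2 +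
  p.C 1 0 z * v.2 * conj v.1 + p.C 1 1 z * v.2 * conj v.2
noncomputable def Sv : ℂ := p.S 0 0 z * v.1 ^ 2 + (p.S 0 1 z + p.S 1 0 z) * (v.1 * v.2) +
  p.S 1 1 z * v.2 ^ 2
noncomputable def S'v : ℂ := p.S' 0 0 z * conj v.1 ^ 2 +
  (p.S' 0 1 z + p.S' 1 0 z) * (conj v.1 * conj v.2) + p.S' 1 1 z * conj v.2 ^ 2
noncomputable def Rv (j : Fin 2) : ℂ := p.R 0 0 j z * v.1 ^ 2 +
  (p.R 0 1 j z + p.R 1 0 j z) * (v.1 * v.2) + p.R 1 1 j z * v.2 ^ 2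
noncomputable def R'v (i : Fin 2) : ℂ := p.R' i 0 0 z * conj v.1 ^ 2 +
  (p.R' i 0 1 z + p.R' i 1 0 z) * (conj v.1 * conj v.2) + p.R' i 1 1 z * conj v.2 ^ 2
noncomputable def Rvv : ℂ := p.Rv z v 0 * conj v.1 + p.Rv z v 1 * conj v.2
noncomputable def R'vv : ℂ := p.R'v z v 0 * v.1 + p.R'v z v 1 * v.2
noncomputable def Qv : ℂ := ∑ i, ∑ j, ∑ k, ∑ l, p.Q i k j l z *
        (co v i * conj (co v j) * co v k * conj (co v l))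

theorem contr2 (q : Fin 2) : (∑ i, ∑ k, dz k (fun w => p.G w i q) z * (co v i * co v k)) =
    (p.P z * p.Rv z v q - p.Sv z v * p.B' q z) * (p.P z)⁻¹ ^ 2 -
      2 * p.Bv z v * (p.P z * p.Cv z v q - p.Bv z v * p.B' q z) * (p.P z)⁻¹ ^ 3 := by
  simp only [p.dzG, Fin.sum_univ_two, Rv, Sv, Bv, Cv, co, if_true, if_false, one_ne_zero]
  ring

theorem contr2' (q : Fin 2) :
    (∑ j, ∑ l, dzb l (fun w => p.G w q j) z * (conj (co v j) * conj (co v l))) =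
    (p.P z * p.R'v z v q - p.S'v z v * p.B q z) * (p.P z)⁻¹ ^ 2 -
      2 * p.B'v z v * (p.P z * p.C'v z v q - p.B'v z v * p.B q z) * (p.P z)⁻¹ ^ 3 := by
  simp only [p.dzbG, Fin.sum_univ_two, R'v, S'v, B'v, C'v, co, if_true, if_false, one_ne_zero]
  ring

theorem contr4 : (∑ i, ∑ j, ∑ k, ∑ l, dz k (fun w => dzb l (fun w' => p.G w' i j) w) z *
        (co v i * conj (co v j) * co v k * conj (co v l))) =
    (p.P z * p.Qv z v - p.Sv z v * p.S'v z v) * (p.P z)⁻¹ ^ 2 -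
      2 * (p.Bv z v * (p.P z * p.R'vv z v - p.Bv z v * p.S'v z v) +
        p.Cvv z v * (p.P z * p.Cvv z v - p.Bv z v * p.B'v z v) +
        p.B'v z v * (p.P z * p.Rvv z v - p.Sv z v * p.B'v z v)) * (p.P z)⁻¹ ^ 3 +
      6 * p.B'v z v * p.Bv z v * (p.P z * p.Cvv z v - p.Bv z v * p.B'v z v) * (p.P z)⁻¹ ^ 4 := by
  simp only [p.dzdzbG, Fin.sum_univ_two, R'v, S'v, B'v, C'v, Rv, Sv, Bv, Cv, Cvv, Rvv, R'vv, Qv,
    co, if_true, if_false, one_ne_zero]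
  ring

/-- the determinant of the bordered matrix of first order jets -/
noncomputable def Det3 : ℂ :=
  p.P z * (p.C 0 0 z * p.C 1 1 z - p.C 0 1 z * p.C 1 0 z) -
    p.B' 0 z * (p.B 0 z * p.C 1 1 z - p.C 0 1 z * p.B 1 z) +
    p.B' 1 z * (p.B 0 z * p.C 1 0 z - p.C 0 0 z * p.B 1 z)

/-- the row times adjugate times column term -/
noncomputable def Row : ℂ :=
  p.Sv z v * p.S'v z v * (p.C 0 0 z * p.C 1 1 z - p.C 0 1 z * p.C 1 0 z) -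
  p.Sv z v * p.R'v z v 0 * (p.B' 0 z * p.C 1 1 z - p.B' 1 z * p.C 1 0 z) +
  p.Sv z v * p.R'v z v 1 * (p.B' 0 z * p.C 0 1 z - p.B' 1 z * p.C 0 0 z) -
  p.Rv z v 0 * p.S'v z v * (p.B 0 z * p.C 1 1 z - p.C 0 1 z * p.B 1 z) +
  p.Rv z v 0 * p.R'v z v 0 * (p.P z * p.C 1 1 z - p.B' 1 z * p.B 1 z) -
  p.Rv z v 0 * p.R'v z v 1 * (p.P z * p.C 0 1 z - p.B' 1 z * p.B 0 z) +
  p.Rv z v 1 * p.S'v z v * (p.B 0 z * p.C 1 0 z - p.C 0 0 z * p.B 1 z) -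
  p.Rv z v 1 * p.R'v z v 0 * (p.P z * p.C 1 0 z - p.B' 0 z * p.B 1 z) +
  p.Rv z v 1 * p.R'v z v 1 * (p.P z * p.C 0 0 z - p.B' 0 z * p.B 0 z)

theorem det_G : (p.G z).det = p.Det3 z * (p.P z)⁻¹ ^ 3 := by
  have h0 := p.ne z
  rw [Matrix.det_fin_two]
  simp only [G, Det3]
  field_simp
  ring

theorem alg_aux (a d c00 c01 c10 c11 b0 b1 b0' b1' s s' r0 r1 r0' r1' q v0 v1 u0 u1 : ℂ)
    (ha : a ≠ 0) (hd : d ≠ 0)
    (hD : d = a * (c00 * c11 - c01 * c10) - b0' * (b0 * c11 - c01 * b1) +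
      b1' * (b0 * c10 - c00 * b1))
    (bv bv' cvv cv0 cv1 cv0' cv1' x0 x1 y0 y1 l4 m00 m01 m10 m11 : ℂ)
    (hbv : bv = b0 * v0 + b1 * v1) (hbv' : bv' = b0' * u0 + b1' * u1)
    (hcvv : cvv = c00 * v0 * u0 + c01 * v0 * u1 + c10 * v1 * u0 + c11 * v1 * u1)
    (hcv0 : cv0 = c00 * v0 + c10 * v1) (hcv1 : cv1 = c01 * v0 + c11 * v1)
    (hcv0' : cv0' = c00 * u0 + c01 * u1) (hcv1' : cv1' = c10 * u0 + c11 * u1)
    (hx0 : x0 = a * (a * r0 - s * b0') - 2 * bv * (a * cv0 - bv * b0'))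
    (hx1 : x1 = a * (a * r1 - s * b1') - 2 * bv * (a * cv1 - bv * b1'))
    (hy0 : y0 = a * (a * r0' - s' * b0) - 2 * bv' * (a * cv0' - bv' * b0))
    (hy1 : y1 = a * (a * r1' - s' * b1) - 2 * bv' * (a * cv1' - bv' * b1))
    (hm00 : m00 = a * c00 - b0 * b0') (hm01 : m01 = a * c01 - b0 * b1')
    (hm10 : m10 = a * c10 - b1 * b0') (hm11 : m11 = a * c11 - b1 * b1')
    (hl4 : l4 = a ^ 2 * (a * q - s * s') - 2 * a * (bv * (a * (r0' * v0 + r1' * v1) - bv * s') +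
      cvv * (a * cvv - bv * bv') + bv' * (a * (r0 * u0 + r1 * u1) - s * bv')) +
      6 * bv' * bv * (a * cvv - bv * bv')) :
    -(a * l4 * d) + (x0 * m11 * y0 - x0 * m01 * y1 - x1 * m10 * y0 + x1 * m00 * y1) =
      a * (2 * (a * cvv - bv * bv') ^ 2 * d - a ^ 3 * (q * d - (s * s' * (c00 * c11 - c01 * c10) -
        s * r0' * (b0' * c11 - b1' * c10) + s * r1' * (b0' * c01 - b1' * c00) -
        r0 * s' * (b0 * c11 - c01 * b1) + r0 * r0' * (a * c11 - b1' * b1) -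
        r0 * r1' * (a * c01 - b1' * b0) + r1 * s' * (b0 * c10 - c00 * b1) -
        r1 * r0' * (a * c10 - b0' * b1) + r1 * r1' * (a * c00 - b0' * b0)))) := by
  subst hx0 hx1 hy0 hy1 hm00 hm01 hm10 hm11 hl4
  subst hbv hbv' hcvv hcv0 hcv1 hcv0' hcv1'
  subst hD
  ring

theorem alg_aux2 (a d x0 x1 y0 y1 m00 m01 m10 m11 l4 : ℂ) (ha : a ≠ 0) (hd : d ≠ 0) :
    a * ((-(l4 * a⁻¹ ^ 4) +
      ((x0 * a⁻¹ ^ 3) * ((m11 * (a⁻¹ * a⁻¹)) / (d * a⁻¹ ^ 3)) * (y0 * a⁻¹ ^ 3) +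
        (x0 * a⁻¹ ^ 3) * (-(m01 * (a⁻¹ * a⁻¹)) / (d * a⁻¹ ^ 3)) * (y1 * a⁻¹ ^ 3) +
      ((x1 * a⁻¹ ^ 3) * (-(m10 * (a⁻¹ * a⁻¹)) / (d * a⁻¹ ^ 3)) * (y0 * a⁻¹ ^ 3) +
        (x1 * a⁻¹ ^ 3) * ((m00 * (a⁻¹ * a⁻¹)) / (d * a⁻¹ ^ 3)) * (y1 * a⁻¹ ^ 3)))) *
      (a ^ 4 * d)) =
    -(a * l4 * d) + (x0 * m11 * y0 - x0 * m01 * y1 - x1 * m10 * y0 + x1 * m00 * y1) := by
  field_simp
  ring

theorem chernRv_eq (hD : p.Det3 z ≠ 0) :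
    chernRv p.G z v * (p.P z ^ 4 * p.Det3 z) =
      2 * (p.P z * p.Cvv z v - p.Bv z v * p.B'v z v) ^ 2 * p.Det3 z -
      p.P z ^ 3 * (p.Qv z v * p.Det3 z - p.Row z v) := by
  have h0 := p.ne z
  obtain ⟨i00, i01, i10, i11⟩ := inv_two (p.G z)
  rw [chernRv_contract, contr4]
  simp_rw [contr2, contr2']
  simp only [Fin.sum_univ_two]
  rw [i00, i01, i10, i11, det_G]
  have A := alg_aux (p.P z) (p.Det3 z) (p.C 0 0 z) (p.C 0 1 z) (p.C 1 0 z) (p.C 1 1 z)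
    (p.B 0 z) (p.B 1 z) (p.B' 0 z) (p.B' 1 z) (p.Sv z v) (p.S'v z v) (p.Rv z v 0) (p.Rv z v 1)
    (p.R'v z v 0) (p.R'v z v 1) (p.Qv z v) v.1 v.2 (conj v.1) (conj v.2) h0 hD rfl
    (p.Bv z v) (p.B'v z v) (p.Cvv z v) (p.Cv z v 0) (p.Cv z v 1) (p.C'v z v 0) (p.C'v z v 1)
    _ _ _ _ _ _ _ _ _ rfl rfl rfl rfl rfl rfl rfl rfl rfl rfl rfl rfl rfl rfl rfl rfl
  have B := alg_aux2 (p.P z) (p.Det3 z)
    (p.P z * (p.P z * p.Rv z v 0 - p.Sv z v * p.B' 0 z) -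
      2 * p.Bv z v * (p.P z * p.Cv z v 0 - p.Bv z v * p.B' 0 z))
    (p.P z * (p.P z * p.Rv z v 1 - p.Sv z v * p.B' 1 z) -
      2 * p.Bv z v * (p.P z * p.Cv z v 1 - p.Bv z v * p.B' 1 z))
    (p.P z * (p.P z * p.R'v z v 0 - p.S'v z v * p.B 0 z) -
      2 * p.B'v z v * (p.P z * p.C'v z v 0 - p.B'v z v * p.B 0 z))
    (p.P z * (p.P z * p.R'v z v 1 - p.S'v z v * p.B 1 z) -
      2 * p.B'v z v * (p.P z * p.C'v z v 1 - p.B'v z v * p.B 1 z))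
    (p.P z * p.C 0 0 z - p.B 0 z * p.B' 0 z) (p.P z * p.C 0 1 z - p.B 0 z * p.B' 1 z)
    (p.P z * p.C 1 0 z - p.B 1 z * p.B' 0 z) (p.P z * p.C 1 1 z - p.B 1 z * p.B' 1 z)
    (p.P z ^ 2 * (p.P z * p.Qv z v - p.Sv z v * p.S'v z v) -
      2 * p.P z * (p.Bv z v * (p.P z * (p.R'v z v 0 * v.1 + p.R'v z v 1 * v.2) -
        p.Bv z v * p.S'v z v) + p.Cvv z v * (p.P z * p.Cvv z v - p.Bv z v * p.B'v z v) +
        p.B'v z v * (p.P z * (p.Rv z v 0 * conj v.1 + p.Rv z v 1 * conj v.2) -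
          p.Sv z v * p.B'v z v)) +
      6 * p.B'v z v * p.Bv z v * (p.P z * p.Cvv z v - p.Bv z v * p.B'v z v)) h0 hD
  refine mul_left_cancel₀ h0 (Eq.trans ?_ (B.trans (A.trans ?_)))
  · congr 2
    have hP1 : (p.P z)⁻¹ ^ 2 = p.P z * (p.P z)⁻¹ ^ 3 := by field_simp
    have hP2 : (p.P z)⁻¹ ^ 2 = p.P z ^ 2 * (p.P z)⁻¹ ^ 4 := by field_simp
    have hP3 : (p.P z)⁻¹ ^ 3 = p.P z * (p.P z)⁻¹ ^ 4 := by field_simp
    have e5 : p.Rvv z v = p.Rv z v 0 * conj v.1 + p.Rv z v 1 * conj v.2 := rfl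
    have e6 : p.R'vv z v = p.R'v z v 0 * v.1 + p.R'v z v 1 * v.2 := rfl
    have x : ∀ q, (p.P z * p.Rv z v q - p.Sv z v * p.B' q z) * (p.P z)⁻¹ ^ 2 -
      2 * p.Bv z v * (p.P z * p.Cv z v q - p.Bv z v * p.B' q z) * (p.P z)⁻¹ ^ 3 =
      (p.P z * (p.P z * p.Rv z v q - p.Sv z v * p.B' q z) -
      2 * p.Bv z v * (p.P z * p.Cv z v q - p.Bv z v * p.B' q z)) * (p.P z)⁻¹ ^ 3 := by
      intro q; rw [hP1]; ring
    have y : ∀ q, (p.P z * p.R'v z v q - p.S'v z v * p.B q z) * (p.P z)⁻¹ ^ 2 -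
      2 * p.B'v z v * (p.P z * p.C'v z v q - p.B'v z v * p.B q z) * (p.P z)⁻¹ ^ 3 =
      (p.P z * (p.P z * p.R'v z v q - p.S'v z v * p.B q z) -
      2 * p.B'v z v * (p.P z * p.C'v z v q - p.B'v z v * p.B q z)) * (p.P z)⁻¹ ^ 3 := by
      intro q; rw [hP1]; ring
    rw [x, x, y, y]
    congr 1
    rw [e5, e6, hP2, hP3]
    ring
  · rfl

end PotJets

end Pool.Agent.H930R2
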