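import Mathlib

set_option autoImplicit false

/-!
# Kähler metrics on complex surfaces and their holomorphic sectional curvature

A complex surface is a type `X` with a topology and an atlas `ChartedSpace (ℂ × ℂ) X` whose
changes of charts are holomorphic (`IsManifold 𝓘(ℂ, ℂ × ℂ) ω X`).  A Kähler metric is given,
classically, by its coefficient matrices `(g_{i j̄})` in the charts of the atlas.
-/

open scoped Manifold ContDiff ComplexConjugate
open Complex

namespace Pool.Agent.H930R2

/-- The model space `ℂ²`. -/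
abbrev C2 : Type := ℂ × ℂ

/-- The standard basis of `ℂ²`. -/
def bas (k : Fin 2) : C2 := if k = 0 then (1, 0) else (0, 1)

/-- The coordinates of a vector of `ℂ²`. -/
def co (v : C2) (k : Fin 2) : ℂ := if k = 0 then v.1 else v.2

/-- The Wirtinger derivative `∂f/∂z_k = (∂f/∂x_k - i ∂f/∂y_k) / 2`. -/
noncomputable def dz (k : Fin 2) (f : C2 → ℂ) (z : C2) : ℂ :=
  (fderiv ℝ f z (bas k) - I * fderiv ℝ f z (I • bas k)) / 2

/-- The Wirtinger derivative `∂f/∂z̄_k = (∂f/∂x_k + i ∂f/∂y_k) / 2`. -/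
noncomputable def dzb (k : Fin 2) (f : C2 → ℂ) (z : C2) : ℂ :=
  (fderiv ℝ f z (bas k) + I * fderiv ℝ f z (I • bas k)) / 2

/-- The sesquilinear form `∑ A_{i j̄} u_i v̄_j` attached to a matrix `A`. -/
noncomputable def herm (A : Matrix (Fin 2) (Fin 2) ℂ) (u v : C2) : ℂ :=
  ∑ i, ∑ j, A i j * co u i * conj (co v j)

/-- A Kähler metric on a complex surface `X`, given by its coefficients `g_{i j̄}` in the charts
of the atlas: in every chart they are smooth, form a positive definite Hermitian matrix and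
satisfy `∂_k g_{i j̄} = ∂_i g_{k j̄}` (that is, the fundamental form is closed), and they
transform like a tensor under a change of charts. -/
structure KahlerMetric (X : Type*) [TopologicalSpace X] [ChartedSpace C2 X] where
  /-- the coefficient matrix `(g_{i j̄})` in the chart `e`, as function on the image of the chart -/
  g : OpenPartialHomeomorph X C2 → C2 → Matrix (Fin 2) (Fin 2) ℂ
  smooth : ∀ e ∈ atlas C2 X, ∀ i j, ContDiffOn ℝ ∞ (fun z => g e z i j) e.target
  hermitian : ∀ e ∈ atlas C2 X, ∀ z ∈ e.target, ∀ i j, g e z j i = conj (g e z i j)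
  pos : ∀ e ∈ atlas C2 X, ∀ z ∈ e.target, ∀ v : C2, v ≠ 0 → 0 < (herm (g e z) v v).re
  transform : ∀ e ∈ atlas C2 X, ∀ e' ∈ atlas C2 X, ∀ z ∈ (e.symm.trans e').source, ∀ u v : C2,
    herm (g e z) u v = herm (g e' (e' (e.symm z)))
      (fderiv ℂ (fun w => e' (e.symm w)) z u) (fderiv ℂ (fun w => e' (e.symm w)) z v)
  closed : ∀ e ∈ atlas C2 X, ∀ z ∈ e.target, ∀ i j k,
    dz k (fun w => g e w i j) z = dz i (fun w => g e w k j) z

/-- The Chern curvature coefficients of a Hermitian matrix of functions `G = (g_{i j̄})`: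
`R_{i j̄ k l̄} = - ∂_k ∂̄_l g_{i j̄} + ∑_{p,q} g^{p q̄} ∂_k g_{i q̄} ∂̄_l g_{p j̄}`. -/
noncomputable def chernR (G : C2 → Matrix (Fin 2) (Fin 2) ℂ) (z : C2) (i j k l : Fin 2) : ℂ :=
  - dz k (fun w => dzb l (fun w' => G w' i j) w) z +
    ∑ q, ∑ p, dz k (fun w => G w i q) z * (G z)⁻¹ q p * dzb l (fun w => G w p j) z

/-- `R(v, v̄, v, v̄)`. -/
noncomputable def chernRv (G : C2 → Matrix (Fin 2) (Fin 2) ℂ) (z v : C2) : ℂ :=
  ∑ i, ∑ j, ∑ k, ∑ l, chernR G z i j k l * co v i * conj (co v j) * co v k * conj (co v l)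

/-- The holomorphic sectional curvature `R(v, v̄, v, v̄) / |v|⁴` of the metric `G` at the point
`z` in the direction `v`. -/
noncomputable def hsc (G : C2 → Matrix (Fin 2) (Fin 2) ℂ) (z v : C2) : ℝ :=
  (chernRv G z v).re / (herm (G z) v v).re ^ 2

/-- The complex surface `X` carries a Kähler metric whose holomorphic sectional curvature is
positive at every point and in every direction. -/
def HasPositiveHSC (X : Type*) [TopologicalSpace X] [ChartedSpace C2 X] : Prop :=
  ∃ h : KahlerMetric X, ∀ e ∈ atlas C2 X, ∀ z ∈ e.target, ∀ v : C2, v ≠ 0 → 0 < hsc (h.g e) z v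

end Pool.Agent.H930R2
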