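import Pool.Agent.H930R2.Numer

set_option autoImplicit false
set_option linter.unusedSimpArgs false

/-! # Positivity of the metric and of its holomorphic sectional curvature -/

open scoped Manifold ContDiff ComplexConjugate
open Complex

namespace Pool.Agent.H930R2

section

variable (z v : C2)

/-- `ρ` as a real number -/
noncomputable def rho : ℝ := (y1 z * x2 z * (v.1 * conj v.2)).re

theorem rr_real : rr z v = (rho z v : ℂ) := by
  have h : x1 z * y2 z * (conj v.1 * v.2) = conj (y1 z * x2 z * (v.1 * conj v.2)) := by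
    simp only [x1, x2, y1, y2, map_mul, conj_conj]
  rw [rr, h, add_conj, rho]
  push_cast
  ring

theorem rho_sq_le : rho z v ^ 2 ≤ t12 (jr z) * (normSq v.1 * normSq v.2) := by
  have h : rho z v ^ 2 ≤ normSq (y1 z * x2 z * (v.1 * conj v.2)) := by
    rw [rho, normSq_apply]
    nlinarith [mul_self_nonneg (y1 z * x2 z * (v.1 * conj v.2)).im]
  refine h.trans (le_of_eq ?_)
  simp only [y1, x2, normSq_mul, normSq_conj, t12, jr, jetT]

theorem D2_real : pot.P z * pot.Cvv z v - pot.Bv z v * pot.B'v z v =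
    ((A11 (jr z) * normSq v.1 + A22 (jr z) * normSq v.2 + 2 * A12 (jr z) * rho z v : ℝ) : ℂ) := by
  rw [D2_eq, rr_real, ← jr_map, mul_conj, mul_conj]
  have h1 : ((A11 (jr z) : ℝ) : ℂ) = A11 ((jr z).map fun x : ℝ => (x : ℂ)) :=
    A11_map isMor_ofReal (jr z)
  have h2 : ((A22 (jr z) : ℝ) : ℂ) = A22 ((jr z).map fun x : ℝ => (x : ℂ)) :=
    A22_map isMor_ofReal (jr z)
  have h3 : ((A12 (jr z) : ℝ) : ℂ) = A12 ((jr z).map fun x : ℝ => (x : ℂ)) :=
    A12_map isMor_ofReal (jr z)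
  rw [← h1, ← h2, ← h3]
  push_cast
  ring

theorem Det3_real : pot.Det3 z = ((D3 (jr z) : ℝ) : ℂ) := by
  rw [Det3_eq, ← jr_map]
  exact (D3_map isMor_ofReal (jr z)).symm

theorem P_real : pot.P z = (((jr z).p00 : ℝ) : ℂ) := T_real 0 0 z

theorem numer_real : 2 * (pot.P z * pot.Cvv z v - pot.Bv z v * pot.B'v z v) ^ 2 * pot.Det3 z -
      pot.P z ^ 3 * (pot.Qv z v * pot.Det3 z - pot.Row z v) =
    ((NN (jr z) (normSq v.1) (normSq v.2) (rho z v) : ℝ) : ℂ) := by
  rw [Row_eq, D2_eq, Det3_eq, rr_real, ← jr_map, mul_conj, mul_conj, P_real]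
  have e1 : ((A11 (jr z) : ℝ) : ℂ) = A11 ((jr z).map fun x : ℝ => (x : ℂ)) :=
    A11_map isMor_ofReal (jr z)
  have e2 : ((A22 (jr z) : ℝ) : ℂ) = A22 ((jr z).map fun x : ℝ => (x : ℂ)) :=
    A22_map isMor_ofReal (jr z)
  have e3 : ((A12 (jr z) : ℝ) : ℂ) = A12 ((jr z).map fun x : ℝ => (x : ℂ)) :=
    A12_map isMor_ofReal (jr z)
  have e4 : ((D3 (jr z) : ℝ) : ℂ) = D3 ((jr z).map fun x : ℝ => (x : ℂ)) :=
    D3_map isMor_ofReal (jr z)
  have e5 : ((K11 (jr z) : ℝ) : ℂ) = K11 ((jr z).map fun x : ℝ => (x : ℂ)) :=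
    K11_map isMor_ofReal (jr z)
  have e6 : ((K22 (jr z) : ℝ) : ℂ) = K22 ((jr z).map fun x : ℝ => (x : ℂ)) :=
    K22_map isMor_ofReal (jr z)
  have e7 : ((K33 (jr z) : ℝ) : ℂ) = K33 ((jr z).map fun x : ℝ => (x : ℂ)) :=
    K33_map isMor_ofReal (jr z)
  have e8 : ((K12 (jr z) : ℝ) : ℂ) = K12 ((jr z).map fun x : ℝ => (x : ℂ)) :=
    K12_map isMor_ofReal (jr z)
  have e9 : ((K23 (jr z) : ℝ) : ℂ) = K23 ((jr z).map fun x : ℝ => (x : ℂ)) :=
    K23_map isMor_ofReal (jr z)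
  have e10 : ((K13 (jr z) : ℝ) : ℂ) = K13 ((jr z).map fun x : ℝ => (x : ℂ)) :=
    K13_map isMor_ofReal (jr z)
  have e11 : ((t12 (jr z) : ℝ) : ℂ) = t12 ((jr z).map fun x : ℝ => (x : ℂ)) :=
    t12_map isMor_ofReal (jr z)
  rw [← e1, ← e2, ← e3, ← e4, ← e5, ← e6, ← e7, ← e8, ← e9, ← e10, ← e11]
  simp only [NN, n1, n2, n3, n4, n5, n6, P3, lit_real]
  push_cast
  ring

theorem herm_G : herm (pot.G z) v v = (pot.P z * pot.Cvv z v - pot.Bv z v * pot.B'v z v) *
    ((pot.P z)⁻¹ * (pot.P z)⁻¹) := by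
  simp only [herm, PotJets.G, Fin.sum_univ_two, co, if_true, if_false, one_ne_zero,
    PotJets.Cvv, PotJets.Bv, PotJets.B'v]
  ring

theorem D2_pos (h1 : normSq z.1 < 2) (h2 : normSq z.2 < 2) (hv : v ≠ 0) :
    0 < A11 (jr z) * normSq v.1 + A22 (jr z) * normSq v.2 + 2 * A12 (jr z) * rho z v := by
  obtain ⟨c1, c2, -, -, -, -⟩ := certT _ _ (normSq_nonneg z.1) h1 (normSq_nonneg z.2) h2
  have hp : 0 < (jr z).p00 := pp00_pos _ _ (normSq_nonneg _) (normSq_nonneg _)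
  change 0 < A11 (jr z) at c1
  change 0 < D3 (jr z) at c2
  have hS : A11 (jr z) * A22 (jr z) - t12 (jr z) * A12 (jr z) ^ 2 = (jr z).p00 * D3 (jr z) := by
    simp only [A11, A22, A12, t12, D3, al, be1, be2, c11, c22]; ring
  have hr := rho_sq_le z v
  have hx := normSq_nonneg v.1
  have hy := normSq_nonneg v.2
  set x := normSq v.1
  set y := normSq v.2
  set r := rho z v
  have hxy : 0 < x ∨ 0 < y := by
    by_contra hcon
    push Not at hcon
    have hx0 : x = 0 := le_antisymm hcon.1 hx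
    have hy0 : y = 0 := le_antisymm hcon.2 hy
    exact hv (Prod.ext (normSq_eq_zero.1 hx0) (normSq_eq_zero.1 hy0))
  have hA22 : 0 < A22 (jr z) := by
    have ht : 0 ≤ t12 (jr z) := mul_nonneg (normSq_nonneg _) (normSq_nonneg _)
    have : 0 < A11 (jr z) * A22 (jr z) := by
      have := mul_pos hp c2
      have := mul_nonneg ht (sq_nonneg (A12 (jr z)))
      linarith
    exact pos_of_mul_pos_right this c1.le
  -- (A11 x + A22 y)^2 > 4 A12^2 r^2
  have hsum : 0 < A11 (jr z) * x + A22 (jr z) * y := by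
    rcases hxy with h | h
    · have := mul_pos c1 h; have := mul_nonneg hA22.le hy; linarith
    · have := mul_nonneg c1.le hx; have := mul_pos hA22 h; linarith
  by_contra hcon
  push Not at hcon
  have h3 : A11 (jr z) * x + A22 (jr z) * y ≤ -(2 * A12 (jr z) * r) := by linarith
  have h4 : (A11 (jr z) * x + A22 (jr z) * y) ^ 2 ≤ (2 * A12 (jr z) * r) ^ 2 := by
    nlinarith
  have h5 : (2 * A12 (jr z) * r) ^ 2 ≤ 4 * A12 (jr z) ^ 2 * (t12 (jr z) * (x * y)) := by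
    have := mul_le_mul_of_nonneg_left hr (by positivity : 0 ≤ 4 * A12 (jr z) ^ 2)
    linarith
  have h6 : 4 * (A11 (jr z) * x) * (A22 (jr z) * y) ≤ (A11 (jr z) * x + A22 (jr z) * y) ^ 2 := by
    nlinarith [sq_nonneg (A11 (jr z) * x - A22 (jr z) * y)]
  have h7 : (jr z).p00 * D3 (jr z) * (x * y) ≤ 0 := by
    rw [← hS]; nlinarith
  have h8 : x * y ≤ 0 := by
    by_contra h9
    push Not at h9
    have := mul_pos (mul_pos hp c2) h9
    linarith
  have h9 : x * y = 0 := le_antisymm h8 (mul_nonneg hx hy)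
  have h10 : (A11 (jr z) * x + A22 (jr z) * y) ^ 2 ≤ 0 := by
    rw [h9] at h5; linarith
  have := pow_pos hsum 2
  linarith

theorem herm_G_pos (h1 : normSq z.1 < 2) (h2 : normSq z.2 < 2) (hv : v ≠ 0) :
    0 < (herm (pot.G z) v v).re := by
  have hp : 0 < (jr z).p00 := pp00_pos _ _ (normSq_nonneg _) (normSq_nonneg _)
  rw [herm_G, D2_real, P_real]
  have := D2_pos z v h1 h2 hv
  rw [← ofReal_inv, ← ofReal_mul, ← ofReal_mul, ofReal_re]
  positivity

theorem hsc_pos (h1 : normSq z.1 < 2) (h2 : normSq z.2 < 2) (hv : v ≠ 0) :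
    0 < hsc pot.G z v := by
  obtain ⟨c1, c2, c3, c4, c5, c6⟩ := certT _ _ (normSq_nonneg z.1) h1 (normSq_nonneg z.2) h2
  have hp : 0 < (jr z).p00 := pp00_pos _ _ (normSq_nonneg _) (normSq_nonneg _)
  change 0 < D3 (jr z) at c2
  have hx := normSq_nonneg v.1
  have hy := normSq_nonneg v.2
  have hxy : 0 < normSq v.1 + normSq v.2 := by
    rcases hx.lt_or_eq with h | h
    · linarith
    · rcases hy.lt_or_eq with h' | h'
      · linarith
      · exact absurd (Prod.ext (normSq_eq_zero.1 h.symm) (normSq_eq_zero.1 h'.symm)) hv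
  have hN := NN_pos (jr z) c0 c3 c4 c5 c6 _ _ _ hx hy hxy (rho_sq_le z v)
  have hD : pot.Det3 z ≠ 0 := by rw [Det3_real]; exact_mod_cast c2.ne'
  have hR := pot.chernRv_eq z v hD
  rw [numer_real, Det3_real, P_real] at hR
  have hR' : chernRv pot.G z v =
      ((NN (jr z) (normSq v.1) (normSq v.2) (rho z v) / ((jr z).p00 ^ 4 * D3 (jr z)) : ℝ) : ℂ) := by
    push_cast
    rw [eq_div_iff]
    · exact hR
    · have : ((jr z).p00 ^ 4 * D3 (jr z) : ℝ) ≠ 0 := by positivity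
      exact_mod_cast this
  have hg := herm_G_pos z v h1 h2 hv
  rw [hsc, hR', ofReal_re]
  positivity

end

end Pool.Agent.H930R2
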