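import Pool.Agent.H930R2.Trans
import Pool.Agent.H930R2.Pos

set_option autoImplicit false
set_option linter.unusedSimpArgs false

/-! # The Kähler metric on the surface `X` -/

open scoped Manifold ContDiff ComplexConjugate Topology
open Complex Set

namespace Pool.Agent.H930R2

/-! ### invariance of the potential under the monomial maps -/

theorem pp_T1 (t1 t2 : ℂ) (h : t1 ≠ 0) :
    pp 0 0 (t1 * t2) t1⁻¹ = pp 0 0 t1 t2 / t1 ^ 2 := by
  simp only [pp, tt, Nat.descFactorial]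
  simp
  field_simp
  ring

theorem pp10_T1 (t1 t2 : ℂ) (h : t1 ≠ 0) :
    pp 1 0 (t1 * t2) t1⁻¹ = pp 0 1 t1 t2 / t1 ^ 3 := by
  simp only [pp, tt, Nat.descFactorial]
  simp
  field_simp
  ring

theorem pp20_T1 (t1 t2 : ℂ) (h : t1 ≠ 0) :
    pp 2 0 (t1 * t2) t1⁻¹ = pp 0 2 t1 t2 / t1 ^ 4 := by
  simp only [pp, tt, Nat.descFactorial]
  simp
  field_simp
  ring

theorem pp01_T1 (t1 t2 : ℂ) (h : t1 ≠ 0) :
    pp 0 1 (t1 * t2) t1⁻¹ =
      (2 * pp 0 0 t1 t2 - t1 * pp 1 0 t1 t2 + t2 * pp 0 1 t1 t2) / t1 := by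
  simp only [pp, tt, Nat.descFactorial]
  simp
  field_simp
  ring

theorem pp11_T1 (t1 t2 : ℂ) (h : t1 ≠ 0) :
    pp 1 1 (t1 * t2) t1⁻¹ =
      (3 * pp 0 1 t1 t2 - t1 * pp 1 1 t1 t2 + t2 * pp 0 2 t1 t2) / t1 ^ 2 := by
  simp only [pp, tt, Nat.descFactorial]
  simp
  field_simp
  ring

theorem pp02_T1 (t1 t2 : ℂ) (h : t1 ≠ 0) :
    pp 0 2 (t1 * t2) t1⁻¹ =
      2 * pp 0 0 t1 t2 - 2 * t1 * pp 1 0 t1 t2 + 4 * t2 * pp 0 1 t1 t2 + t1 ^ 2 * pp 2 0 t1 t2 -
        2 * t1 * t2 * pp 1 1 t1 t2 + t2 ^ 2 * pp 0 2 t1 t2 := by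
  simp only [pp, tt, Nat.descFactorial]
  simp
  field_simp
  ring

theorem pp_symm (m n : ℕ) (s t : ℂ) : pp m n s t = pp n m t s := by
  simp only [pp]
  ring

/-- the entries of the metric matrix -/
theorem G00 (z : C2) : pot.G z 0 0 = A11 (jc z) * ((T 0 0 z)⁻¹ * (T 0 0 z)⁻¹) := by
  rw [← h_A11]; simp only [PotJets.G]; simp only [pot]; ring
theorem G11 (z : C2) : pot.G z 1 1 = A22 (jc z) * ((T 0 0 z)⁻¹ * (T 0 0 z)⁻¹) := by
  rw [← h_A22]; simp only [PotJets.G]; simp only [pot]; ring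
theorem G01 (z : C2) : pot.G z 0 1 =
    y1 z * x2 z * A12 (jc z) * ((T 0 0 z)⁻¹ * (T 0 0 z)⁻¹) := by
  rw [← h_A12]; simp only [PotJets.G]; simp only [pot]; ring
theorem G10 (z : C2) : pot.G z 1 0 =
    x1 z * y2 z * A12 (jc z) * ((T 0 0 z)⁻¹ * (T 0 0 z)⁻¹) := by
  rw [← h_A21]; simp only [PotJets.G]; simp only [pot]; ring

theorem herm_G_eq (z u v : C2) : herm (pot.G z) u v =
    (A11 (jc z) * (u.1 * conj v.1) + A22 (jc z) * (u.2 * conj v.2) +
      A12 (jc z) * (conj z.1 * z.2 * u.1 * conj v.2 + z.1 * conj z.2 * u.2 * conj v.1)) *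
      ((T 0 0 z)⁻¹ * (T 0 0 z)⁻¹) := by
  simp only [herm, Fin.sum_univ_two, G00, G01, G10, G11, co, if_true, if_false, one_ne_zero,
    x1, x2, y1, y2]
  ring

/-- `F` is holomorphic at `z` and isometric for the metric `G` at `z` -/
def Iso (F : C2 → C2) (z : C2) : Prop :=
  ∃ F' : C2 →L[ℂ] C2, HasFDerivAt F F' z ∧
    ∀ u v, herm (pot.G z) u v = herm (pot.G (F z)) (F' u) (F' v)

theorem Iso.id (z : C2) : Iso (fun w => w) z := ⟨_, hasFDerivAt_id z, fun _ _ => rfl⟩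

theorem Iso.comp {F H : C2 → C2} {z : C2} (hH : Iso H (F z)) (hF : Iso F z) :
    Iso (fun w => H (F w)) z := by
  obtain ⟨F', h1, h2⟩ := hF
  obtain ⟨H', h3, h4⟩ := hH
  exact ⟨H'.comp F', h3.comp z h1, fun u v => by rw [h2, h4]; rfl⟩

theorem Iso.congr {F H : C2 → C2} {z : C2} (hF : Iso F z) (h : H =ᶠ[𝓝 z] F) : Iso H z := by
  obtain ⟨F', h1, h2⟩ := hF
  exact ⟨F', h1.congr_of_eventuallyEq h, fun u v => by rw [h2, h.eq_of_nhds]⟩

theorem Iso.swap (z : C2) : Iso (fun w => (w.2, w.1)) z := by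
  refine ⟨(ContinuousLinearMap.snd ℂ ℂ ℂ).prod (ContinuousLinearMap.fst ℂ ℂ ℂ),
    hasFDerivAt_snd.prodMk hasFDerivAt_fst, fun u v => ?_⟩
  rw [herm_G_eq, herm_G_eq]
  have hT : ∀ m n, T m n (z.2, z.1) = T n m z := by
    intro m n
    simp only [T, x1, x2, y1, y2]
    exact pp_symm _ _ _ _
  have h1 : A11 (jc (z.2, z.1)) = A22 (jc z) := by
    simp only [A11, A22, c11, c22, jc, hT, x1, x2, y1, y2]
  have h2 : A22 (jc (z.2, z.1)) = A11 (jc z) := by
    simp only [A11, A22, c11, c22, jc, hT, x1, x2, y1, y2]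
  have h3 : A12 (jc (z.2, z.1)) = A12 (jc z) := by
    simp only [A12, jc, hT, x1, x2, y1, y2]; ring
  simp only [h1, h2, h3, hT, ContinuousLinearMap.prod_apply, ContinuousLinearMap.coe_fst',
    ContinuousLinearMap.coe_snd']
  ring

theorem Iso.T1 (z : C2) (hz : z.1 ≠ 0) : Iso (fun w => (w.2 * w.1, w.1⁻¹)) z := by
  have d1 : HasFDerivAt (fun w : C2 => w.1) (ContinuousLinearMap.fst ℂ ℂ ℂ) z := hasFDerivAt_fst
  have d2 : HasFDerivAt (fun w : C2 => w.2) (ContinuousLinearMap.snd ℂ ℂ ℂ) z := hasFDerivAt_snd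
  have d3 : HasFDerivAt (fun w : C2 => w.1⁻¹)
      ((ContinuousLinearMap.toSpanSingleton ℂ (-(z.1 ^ 2)⁻¹)).comp
        (ContinuousLinearMap.fst ℂ ℂ ℂ)) z :=
    (hasDerivAt_inv hz).hasFDerivAt.comp z d1
  refine ⟨_, (d2.mul d1).prodMk d3, fun u v => ?_⟩
  rw [herm_G_eq, herm_G_eq]
  have hc : conj z.1 ≠ 0 := by simpa using hz
  have ht : z.1 * conj z.1 ≠ 0 := mul_ne_zero hz hc
  have e1 : x1 (z.2 * z.1, z.1⁻¹) * y1 (z.2 * z.1, z.1⁻¹) =
      (z.1 * conj z.1) * (z.2 * conj z.2) := by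
    simp only [x1, y1, map_mul]; ring
  have e2 : x2 (z.2 * z.1, z.1⁻¹) * y2 (z.2 * z.1, z.1⁻¹) = (z.1 * conj z.1)⁻¹ := by
    simp only [x2, y2, map_inv₀, mul_inv]
  have f1 : x1 z * y1 z = z.1 * conj z.1 := rfl
  have f2 : x2 z * y2 z = z.2 * conj z.2 := rfl
  have hP : T 0 0 z ≠ 0 := T00_ne z
  simp only [T, f1, f2] at hP
  simp only [A11, A22, A12, c11, c22, jc, T, e1, e2, f1, f2, pp_T1 _ _ ht, pp10_T1 _ _ ht,
    pp20_T1 _ _ ht, pp01_T1 _ _ ht, pp11_T1 _ _ ht, pp02_T1 _ _ ht]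
  generalize pp 0 0 (z.1 * conj z.1) (z.2 * conj z.2) = p00 at *
  generalize pp 1 0 (z.1 * conj z.1) (z.2 * conj z.2) = p10
  generalize pp 0 1 (z.1 * conj z.1) (z.2 * conj z.2) = p01
  generalize pp 2 0 (z.1 * conj z.1) (z.2 * conj z.2) = p20
  generalize pp 1 1 (z.1 * conj z.1) (z.2 * conj z.2) = p11
  generalize pp 0 2 (z.1 * conj z.1) (z.2 * conj z.2) = p02
  simp
  generalize conj z.1 = c1 at *
  generalize conj z.2 = c2 at *
  generalize conj v.1 = w1
  generalize conj v.2 = w2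
  field_simp
  ring

namespace X6

theorem iso_tr (k : ℕ) (hk : k < 6) (z : C2) (hz : z ∈ dom k) : Iso (tr k) z := by
  have i1 : ∀ w ∈ dom 1, Iso (tr 1) w := fun w hw => Iso.T1 w hw
  have i2 : ∀ w ∈ dom 2, Iso (tr 2) w := by
    intro w hw
    replace hw : w.2 * w.1 ≠ 0 := hw
    have hw1 := right_ne_zero_of_mul hw
    refine ((i1 (tr 1 w) hw).comp (i1 w hw1)).congr ?_
    filter_upwards [(isOpen_dom 2).mem_nhds hw] with x hx
    replace hx : x.2 * x.1 ≠ 0 := hx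
    have hx1 := right_ne_zero_of_mul hx
    simp only [tr]
    refine Prod.ext ?_ rfl
    field_simp
  have i3 : ∀ w ∈ dom 3, Iso (tr 3) w := by
    intro w hw
    replace hw : w.2 * w.1 ≠ 0 := hw
    have hw1 := right_ne_zero_of_mul hw
    have hw2 := left_ne_zero_of_mul hw
    refine ((i1 (tr 2 w) hw2).comp (i2 w hw)).congr ?_
    filter_upwards [(isOpen_dom 2).mem_nhds hw] with x hx
    replace hx : x.2 * x.1 ≠ 0 := hx
    have hx1 := right_ne_zero_of_mul hx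
    have hx2 := left_ne_zero_of_mul hx
    simp only [tr]
    refine Prod.ext ?_ rfl
    field_simp
  have i4 : ∀ w ∈ dom 4, Iso (tr 4) w := by
    intro w hw
    replace hw : w.2 * w.1 ≠ 0 := hw
    have hw1 := right_ne_zero_of_mul hw
    have hw2 := left_ne_zero_of_mul hw
    refine ((i1 (tr 3 w) (inv_ne_zero hw1)).comp (i3 w hw)).congr ?_
    filter_upwards [(isOpen_dom 2).mem_nhds hw] with x hx
    replace hx : x.2 * x.1 ≠ 0 := hx
    have hx1 := right_ne_zero_of_mul hx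
    have hx2 := left_ne_zero_of_mul hx
    simp only [tr]
    refine Prod.ext ?_ ?_
    · change (x.2 * x.1)⁻¹ = x.2⁻¹ * x.1⁻¹
      rw [mul_inv]
    · change x.1 = (x.1⁻¹)⁻¹
      rw [inv_inv]
  interval_cases k
  · exact Iso.id z
  · exact i1 z hz
  · exact i2 z hz
  · exact i3 z hz
  · exact i4 z hz
  · replace hz : z.2 ≠ 0 := hz
    refine ((Iso.swap _).comp ((i1 (z.2, z.1) hz).comp (Iso.swap z))).congr ?_
    filter_upwards with x
    simp only [tr]
    rw [mul_comm]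

theorem iso_E (i j : ℕ) (hi : i < 6) (z : C2) (hz : (E i).symm z ∈ (E j).source) :
    Iso (fun w => E j ((E i).symm w)) z := by
  have hz' : z ∈ dom (idx i j) := (mem_source_iff i j hi z).1 hz
  refine (iso_tr _ (idx_lt i j) z hz').congr ?_
  filter_upwards [(isOpen_dom (idx i j)).mem_nhds hz'] with w hw
  exact E_E_symm i j hi w hw

theorem contDiff_G (i j : Fin 2) : ContDiff ℝ ∞ (fun z => pot.G z i j) := by
  have hP : ContDiff ℝ ∞ pot.P := contDiff_T 0 0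
  have hC : ContDiff ℝ ∞ (pot.C i j) := by
    fin_cases i <;> fin_cases j <;> simp only [pot, fC] <;> fun_prop
  have hB : ContDiff ℝ ∞ (pot.B i) := by fin_cases i <;> simp only [pot, fB] <;> fun_prop
  have hB' : ContDiff ℝ ∞ (pot.B' j) := by fin_cases j <;> simp only [pot, fB'] <;> fun_prop
  have hI : ContDiff ℝ ∞ (fun z => (pot.P z)⁻¹) := hP.inv pot.ne
  exact ((hP.mul hC).sub (hB.mul hB')).mul (hI.mul hI)

/-- The Kähler metric on `X`, given in all six charts by the potential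
`log P(|z₁|², |z₂|²)`. -/
noncomputable def metric : KahlerMetric X6 where
  g _ z := pot.G z
  smooth _ _ i j := (contDiff_G i j).contDiffOn
  hermitian _ _ z _ i j := by
    have hT : ∀ m n, conj (T m n z) = T m n z := fun m n => by rw [T_real, conj_ofReal]
    have key : ∀ i j : Fin 2, pot.G z j i = conj (pot.G z i j) := by
      simp only [Fin.forall_fin_two]
      refine ⟨⟨?_, ?_⟩, ?_, ?_⟩ <;>
        simp only [G00, G01, G10, G11, A11, A22, A12, c11, c22, jc, hT, x1, x2, y1, y2, map_mul,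
          map_add, map_sub, map_inv₀, conj_conj] <;> ring
    exact key i j
  pos := by
    rintro e ⟨k, hk, rfl⟩ z hz v hv
    have hz' := (mem_Ed_target k z).1 hz
    exact herm_G_pos z v hz'.1 hz'.2 hv
  transform := by
    rintro e ⟨i, hi, rfl⟩ e' ⟨j, hj, rfl⟩ z hz u v
    have hz' : (E i).symm z ∈ (E j).source := by
      simp only [mfld_simps] at hz
      exact ((mem_Ed_source j _).1 hz.2).1
    obtain ⟨F', h1, h2⟩ := iso_E i j hi z hz'
    have h3 : fderiv ℂ (fun w => Ed j ((Ed i).symm w)) z = F' := h1.fderiv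
    rw [h3]
    exact h2 u v
  closed := by
    rintro e ⟨k, hk, rfl⟩ z _ i j k
    rw [pot.dzG, pot.dzG]
    have hS : ∀ a b, pot.S a b z = pot.S b a z := by
      intro a b; fin_cases a <;> fin_cases b <;> rfl
    have hR : ∀ a b c, pot.R a b c z = pot.R b a c z := by
      intro a b c; fin_cases a <;> fin_cases b <;> fin_cases c <;> rfl
    rw [hS i k, hR i k j]
    have h0 := pot.ne z
    field_simp
    ring

/-- The surface `X` has a Kähler metric of positive holomorphic sectional curvature. -/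
theorem hasPositiveHSC : HasPositiveHSC X6 := by
  refine ⟨metric, ?_⟩
  rintro e ⟨k, hk, rfl⟩ z hz v hv
  have hz' := (mem_Ed_target k z).1 hz
  exact hsc_pos z v hz'.1 hz'.2 hv

end X6

end Pool.Agent.H930R2
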