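import Pool.Agent.H930R2.Pot

set_option autoImplicit false
set_option linter.unusedSimpArgs false

/-! # The curvature numerator of the toric potential -/

open scoped Manifold ContDiff ComplexConjugate
open Complex

namespace Pool.Agent.H930R2

noncomputable instance : Lit ℂ := ⟨fun n => (n : ℂ)⟩

theorem lit_complex (n : ℕ) : (Lit.lit n : ℂ) = (n : ℂ) := rfl

theorem isMor_ofReal : IsMor (fun x : ℝ => (x : ℂ)) where
  add a b := by push_cast; rfl
  sub a b := by push_cast; rfl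
  mul a b := by push_cast; rfl
  lit n := by simp [lit_real, lit_complex]

/-- the complex jet at a point -/
noncomputable def jc (z : C2) : Jets ℂ where
  t1 := x1 z * y1 z
  t2 := x2 z * y2 z
  p00 := T 0 0 z
  p10 := T 1 0 z
  p01 := T 0 1 z
  p20 := T 2 0 z
  p11 := T 1 1 z
  p02 := T 0 2 z
  p30 := T 3 0 z
  p21 := T 2 1 z
  p12 := T 1 2 z
  p03 := T 0 3 z
  p40 := T 4 0 z
  p31 := T 3 1 z
  p22 := T 2 2 z
  p13 := T 1 3 z
  p04 := T 0 4 z

/-- the real jet at a point -/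
noncomputable def jr (z : C2) : Jets ℝ := jetT (normSq z.1) (normSq z.2)

theorem jr_map (z : C2) : (jr z).map (fun x : ℝ => (x : ℂ)) = jc z := by
  simp only [jr, jetT, jc, Jets.map, ← T_real]
  simp only [x1, x2, y1, y2, mul_conj]

section

variable (z v : C2)

theorem h_al : pot.C 0 0 z * pot.C 1 1 z - pot.C 0 1 z * pot.C 1 0 z = al (jc z) := by
  simp only [pot, fC, al, c11, c22, t12, jc]; ring
theorem h_be1 : pot.B' 0 z * pot.C 1 1 z - pot.B' 1 z * pot.C 1 0 z = x1 z * be1 (jc z) := by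
  simp only [pot, fB', fC, be1, c22, jc]; ring
theorem h_be1' : pot.B 0 z * pot.C 1 1 z - pot.C 0 1 z * pot.B 1 z = y1 z * be1 (jc z) := by
  simp only [pot, fB, fC, be1, c22, jc]; ring
theorem h_be2 : pot.B' 0 z * pot.C 0 1 z - pot.B' 1 z * pot.C 0 0 z = - (x2 z * be2 (jc z)) := by
  simp only [pot, fB', fC, be2, c11, jc]; ring
theorem h_be2' : pot.B 0 z * pot.C 1 0 z - pot.C 0 0 z * pot.B 1 z = - (y2 z * be2 (jc z)) := by
  simp only [pot, fB, fC, be2, c11, jc]; ring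
theorem h_A22 : pot.P z * pot.C 1 1 z - pot.B' 1 z * pot.B 1 z = A22 (jc z) := by
  simp only [pot, fB, fB', fC, A22, c22, jc]; ring
theorem h_A11 : pot.P z * pot.C 0 0 z - pot.B' 0 z * pot.B 0 z = A11 (jc z) := by
  simp only [pot, fB, fB', fC, A11, c11, jc]; ring
theorem h_A12 : pot.P z * pot.C 0 1 z - pot.B' 1 z * pot.B 0 z = y1 z * x2 z * A12 (jc z) := by
  simp only [pot, fB, fB', fC, A12, jc]; ring
theorem h_A21 : pot.P z * pot.C 1 0 z - pot.B' 0 z * pot.B 1 z = x1 z * y2 z * A12 (jc z) := by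
  simp only [pot, fB, fB', fC, A12, jc]; ring

theorem Det3_eq : pot.Det3 z = D3 (jc z) := by
  rw [PotJets.Det3, h_al, h_be1', h_be2']
  simp only [pot, fB', D3, jc]
  ring

/-- `2 ρ = ζ + ζ̄` with `ζ = z̄₁ z₂ v₁ v̄₂` -/
noncomputable def rr : ℂ := (y1 z * x2 z * (v.1 * conj v.2) + x1 z * y2 z * (conj v.1 * v.2)) / 2

theorem D2_eq : pot.P z * pot.Cvv z v - pot.Bv z v * pot.B'v z v =
    A11 (jc z) * (v.1 * conj v.1) + A22 (jc z) * (v.2 * conj v.2) + 2 * A12 (jc z) * rr z v := by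
  rw [← h_A11, ← h_A22]
  simp only [PotJets.Cvv, PotJets.Bv, PotJets.B'v, rr, pot, fB, fB', fC, A12, jc]
  ring

theorem Row_eq : pot.Qv z v * pot.Det3 z - pot.Row z v =
    K11 (jc z) * (v.1 * conj v.1) ^ 2 + K33 (jc z) * (v.2 * conj v.2) ^ 2 +
    (4 * K22 (jc z) - 2 * (t12 (jc z) * K13 (jc z))) * ((v.1 * conj v.1) * (v.2 * conj v.2)) +
    4 * K12 (jc z) * ((v.1 * conj v.1) * rr z v) + 4 * K23 (jc z) * ((v.2 * conj v.2) * rr z v) +
    4 * K13 (jc z) * rr z v ^ 2 := by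
  have hQ : pot.Qv z v = q11 (jc z) * (v.1 * conj v.1) ^ 2 + q33 (jc z) * (v.2 * conj v.2) ^ 2 +
    (4 * q22 (jc z) - 2 * (t12 (jc z) * T 2 2 z)) * ((v.1 * conj v.1) * (v.2 * conj v.2)) +
    4 * q12 (jc z) * ((v.1 * conj v.1) * rr z v) + 4 * q23 (jc z) * ((v.2 * conj v.2) * rr z v) +
    4 * T 2 2 z * rr z v ^ 2 := by
    simp only [PotJets.Qv, Fin.sum_univ_two, pot, fQ, fQ22, co, if_true, if_false, one_ne_zero,
      q11, q22, q33, q12, q23, t12, jc, rr, lit_complex]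
    push_cast
    ring
  rw [hQ, PotJets.Row, h_al, h_be1, h_be1', h_be2, h_be2', h_A11, h_A22, h_A12, h_A21, Det3_eq]
  simp only [K11, K22, K33, K12, K23, K13, lit_complex]
  simp only [PotJets.Sv, PotJets.S'v, PotJets.Rv, PotJets.R'v, pot, fS, fS', fR, fR']
  simp only [rho1, rho2, sig2, sig3, lit_complex, t12]
  generalize D3 (jc z) = d
  generalize al (jc z) = al
  generalize be1 (jc z) = be1
  generalize be2 (jc z) = be2
  generalize A11 (jc z) = A11
  generalize A22 (jc z) = A22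
  generalize A12 (jc z) = A12
  generalize q11 (jc z) = q11
  generalize q22 (jc z) = q22
  generalize q33 (jc z) = q33
  generalize q12 (jc z) = q12
  generalize q23 (jc z) = q23
  simp only [jc, rr]
  push_cast
  ring

end

end Pool.Agent.H930R2
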