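import Pool.Agent.H930R2.Kahler

set_option autoImplicit false

/-! # The complex projective line and the product of two projective lines -/

open scoped Manifold ContDiff Topology
open Filter Set

namespace Pool.Agent.H930R2

/-- The complex projective line (Riemann sphere) `ℂ ∪ {∞}`. -/
def P1 : Type := OnePoint ℂ

namespace P1

instance : TopologicalSpace P1 := inferInstanceAs (TopologicalSpace (OnePoint ℂ))
instance : CompactSpace P1 := inferInstanceAs (CompactSpace (OnePoint ℂ))
instance : T2Space P1 := inferInstanceAs (T2Space (OnePoint ℂ))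
instance : ConnectedSpace P1 := inferInstanceAs (ConnectedSpace (OnePoint ℂ))

/-- the point `∞` -/
def inf : P1 := OnePoint.infty

/-- the point `z` -/
def of (z : ℂ) : P1 := OnePoint.some z

/-- the coordinate `z` on `P1 ∖ {∞}` (with the value `0` at `∞`) -/
def fin (x : P1) : ℂ := OnePoint.elim x 0 id

open Classical in
/-- the involution `z ↦ 1/z` of `P1`, exchanging `0` and `∞` -/
noncomputable def inv (x : P1) : P1 :=
  OnePoint.elim x (of 0) (fun z => if z = 0 then inf else of z⁻¹)

@[simp] theorem fin_of (z : ℂ) : fin (of z) = z := rfl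
@[simp] theorem inv_inf : inv inf = of 0 := rfl
@[simp] theorem inv_zero : inv (of 0) = inf := by
  change (if (0 : ℂ) = 0 then inf else of (0 : ℂ)⁻¹) = inf
  simp
theorem inv_of {z : ℂ} (h : z ≠ 0) : inv (of z) = of z⁻¹ := by
  change (if z = 0 then inf else of z⁻¹) = of z⁻¹
  simp [h]

theorem of_ne_inf (z : ℂ) : of z ≠ inf := OnePoint.coe_ne_infty z
theorem of_inj {z w : ℂ} : of z = of w ↔ z = w := OnePoint.coe_eq_coe
theorem cases' (x : P1) : x = inf ∨ ∃ z, x = of z := by
  rcases eq_or_ne x inf with h | h
  · exact Or.inl h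
  · obtain ⟨z, hz⟩ := OnePoint.ne_infty_iff_exists.1 h
    exact Or.inr ⟨z, hz.symm⟩

theorem of_fin {x : P1} (h : x ≠ inf) : of (fin x) = x := by
  rcases cases' x with rfl | ⟨z, rfl⟩
  · exact absurd rfl h
  · rfl

theorem inv_inv (x : P1) : inv (inv x) = x := by
  rcases cases' x with rfl | ⟨z, rfl⟩
  · simp
  · rcases eq_or_ne z 0 with rfl | h
    · simp
    · rw [inv_of h, inv_of (inv_ne_zero h), _root_.inv_inv]

theorem continuous_of : Continuous of := OnePoint.continuous_coe

theorem isOpen_ne_inf : IsOpen {x : P1 | x ≠ inf} := by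
  have : {x : P1 | x ≠ inf} = Set.range of := OnePoint.compl_infty
  rw [this]
  exact OnePoint.isOpen_range_coe

theorem continuousAt_fin (x : P1) (h : x ≠ inf) : ContinuousAt fin x := by
  rcases cases' x with rfl | ⟨z, rfl⟩
  · exact absurd rfl h
  · have : ContinuousAt (fun x : OnePoint ℂ => fin x) (z : OnePoint ℂ) := by
      rw [OnePoint.continuousAt_coe]
      exact continuousAt_id
    exact this

theorem continuous_inv : Continuous inv := by
  rw [continuous_iff_continuousAt]
  intro x
  have key0 : Tendsto (fun z : ℂ => inv (of z)) (𝓝 0) (𝓝 inf) := by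
    have h1 : Tendsto (fun z : ℂ => inv (of z)) (𝓝[≠] 0) (𝓝 inf) := by
      have h2 : Tendsto (fun z : ℂ => z⁻¹) (𝓝[≠] 0) (coclosedCompact ℂ) := by
        rw [coclosedCompact_eq_cocompact, ← Metric.cobounded_eq_cocompact]
        exact tendsto_inv₀_nhdsNE_zero
      have h3 : Tendsto (fun z : ℂ => of z⁻¹) (𝓝[≠] 0) (𝓝 inf) :=
        OnePoint.tendsto_coe_infty.comp h2
      refine h3.congr' ?_
      filter_upwards [self_mem_nhdsWithin] with z hz
      rw [inv_of hz]
    have h4 : Tendsto (fun z : ℂ => inv (of z)) (pure 0) (𝓝 inf) := by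
      rw [tendsto_pure_left]
      intro s hs
      simpa using mem_of_mem_nhds hs
    have h5 : 𝓝 (0 : ℂ) = 𝓝[≠] 0 ⊔ pure 0 := by rw [sup_comm]; exact (pure_sup_nhdsNE 0).symm
    rw [h5]
    exact h1.sup h4
  rcases cases' x with rfl | ⟨z, rfl⟩
  · have : ContinuousAt (fun x : OnePoint ℂ => inv x) (OnePoint.infty) := by
      rw [OnePoint.continuousAt_infty']
      have h2 : Tendsto (fun z : ℂ => z⁻¹) (coclosedCompact ℂ) (𝓝 0) := by
        rw [coclosedCompact_eq_cocompact, ← Metric.cobounded_eq_cocompact]
        exact tendsto_inv₀_cobounded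
      have h3 : Tendsto (fun z : ℂ => of z⁻¹) (coclosedCompact ℂ) (𝓝 (of 0)) :=
        (continuous_of.tendsto 0).comp h2
      refine h3.congr' ?_
      have h6 : {(0 : ℂ)}ᶜ ∈ coclosedCompact ℂ := by
        rw [coclosedCompact_eq_cocompact]
        exact isCompact_singleton.compl_mem_cocompact
      filter_upwards [h6] with z hz
      change of z⁻¹ = inv (of z)
      rw [inv_of hz]
    exact this
  · rcases eq_or_ne z 0 with rfl | h
    · have : ContinuousAt (fun x : OnePoint ℂ => inv x) ((0 : ℂ) : OnePoint ℂ) := by
        rw [OnePoint.continuousAt_coe]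
        change Tendsto _ _ (𝓝 (inv (of 0)))
        rw [inv_zero]
        exact key0
      exact this
    · have : ContinuousAt (fun x : OnePoint ℂ => inv x) (z : OnePoint ℂ) := by
        rw [OnePoint.continuousAt_coe]
        have h1 : ContinuousAt (fun z : ℂ => of z⁻¹) z :=
          continuous_of.continuousAt.comp (continuousAt_inv₀ h)
        refine h1.congr ?_
        filter_upwards [isOpen_ne.mem_nhds h] with w hw
        change of w⁻¹ = inv (of w)
        rw [inv_of hw]
      exact this

/-- the involution as a homeomorphism -/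
noncomputable def invHomeo : P1 ≃ₜ P1 where
  toFun := inv
  invFun := inv
  left_inv := inv_inv
  right_inv := inv_inv
  continuous_toFun := continuous_inv
  continuous_invFun := continuous_inv

/-- the chart `z : P1 ∖ {∞} → ℂ` -/
noncomputable def chart0 : OpenPartialHomeomorph P1 ℂ where
  toFun := fin
  invFun := of
  source := {x | x ≠ inf}
  target := Set.univ
  map_source' _ _ := Set.mem_univ _
  map_target' z _ := of_ne_inf z
  left_inv' _ hx := of_fin hx
  right_inv' _ _ := rfl
  open_source := isOpen_ne_inf
  open_target := isOpen_univ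
  continuousOn_toFun x hx := (continuousAt_fin x hx).continuousWithinAt
  continuousOn_invFun := continuous_of.continuousOn

/-- the chart `1/z : P1 ∖ {0} → ℂ` -/
noncomputable def chart1 : OpenPartialHomeomorph P1 ℂ where
  toFun x := fin (inv x)
  invFun z := inv (of z)
  source := {x | inv x ≠ inf}
  target := Set.univ
  map_source' _ _ := Set.mem_univ _
  map_target' z _ := by simpa [inv_inv] using of_ne_inf z
  left_inv' x hx := by rw [of_fin hx, inv_inv]
  right_inv' z _ := by rw [inv_inv, fin_of]
  open_source := isOpen_ne_inf.preimage continuous_inv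
  open_target := isOpen_univ
  continuousOn_toFun x hx :=
    ((continuousAt_fin (inv x) hx).comp continuous_inv.continuousAt).continuousWithinAt
  continuousOn_invFun := (continuous_inv.comp continuous_of).continuousOn

open Classical in
noncomputable instance : ChartedSpace ℂ P1 where
  atlas := {chart0, chart1}
  chartAt x := if x = inf then chart1 else chart0
  mem_chart_source x := by
    by_cases h : x = inf
    · simp only [h, if_true]
      change inv inf ≠ inf
      rw [inv_inf]; exact of_ne_inf 0
    · simp only [h, if_false]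
      exact h
  chart_mem_atlas x := by
    by_cases h : x = inf <;> simp [h]

theorem isManifold_aux : IsManifold 𝓘(ℂ, ℂ) ω P1 := by
  apply isManifold_of_contDiffOn
  have hinv : ContDiffOn ℂ ω (fun z : ℂ => z⁻¹) {0}ᶜ := fun z hz =>
    (contDiffAt_inv ℂ hz).contDiffWithinAt
  have hne : ∀ z : ℂ, inv (of z) ≠ inf → z ≠ 0 := by
    rintro z hz rfl
    exact hz inv_zero
  rintro e e' (rfl | rfl) (rfl | rfl)
  · refine contDiffOn_id.congr fun z hz => ?_
    simp [chart0]
  · refine (hinv.mono ?_).congr fun z hz => ?_
    · intro z hz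
      simp only [mfld_simps] at hz
      exact hne z hz.2
    · simp only [mfld_simps] at hz
      have := hne z hz.2
      change fin (inv (of z)) = z⁻¹
      rw [inv_of this, fin_of]
  · refine (hinv.mono ?_).congr fun z hz => ?_
    · intro z hz
      simp only [mfld_simps] at hz
      exact hne z hz.2
    · simp only [mfld_simps] at hz
      have := hne z hz.2
      change fin (inv (of z)) = z⁻¹
      rw [inv_of this, fin_of]
  · refine contDiffOn_id.congr fun z hz => ?_
    change fin (inv (inv (of z))) = z
    rw [inv_inv, fin_of]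

instance : IsManifold 𝓘(ℂ, ℂ) ω P1 := isManifold_aux

end P1

/-- The product `P1 × P1` as complex surface, with the product charts. -/
noncomputable instance : ChartedSpace C2 (P1 × P1) := prodChartedSpace ℂ P1 ℂ P1

instance : IsManifold 𝓘(ℂ, C2) ω (P1 × P1) := by
  rw [modelWithCornersSelf_prod]
  exact IsManifold.prod P1 P1

end Pool.Agent.H930R2
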