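import Pool.Agent.H930R2.Toric

set_option autoImplicit false
set_option linter.unusedSimpArgs false
set_option linter.unusedTactic false
set_option linter.unreachableTactic false

/-! # The jets of the potential `P(|z₁|², |z₂|²)` -/

open scoped Manifold ContDiff ComplexConjugate
open Complex

namespace Pool.Agent.H930R2

noncomputable def fB : Fin 2 → C2 → ℂ
  | 0 => fun z => y1 z * T 1 0 z
  | 1 => fun z => y2 z * T 0 1 z

noncomputable def fB' : Fin 2 → C2 → ℂ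
  | 0 => fun z => x1 z * T 1 0 z
  | 1 => fun z => x2 z * T 0 1 z

noncomputable def fC : Fin 2 → Fin 2 → C2 → ℂ
  | 0, 0 => fun z => T 1 0 z + x1 z * y1 z * T 2 0 z
  | 0, 1 => fun z => y1 z * x2 z * T 1 1 z
  | 1, 0 => fun z => y2 z * x1 z * T 1 1 z
  | 1, 1 => fun z => T 0 1 z + x2 z * y2 z * T 0 2 z

noncomputable def fS : Fin 2 → Fin 2 → C2 → ℂ
  | 0, 0 => fun z => y1 z * y1 z * T 2 0 z
  | 0, 1 => fun z => y1 z * y2 z * T 1 1 z
  | 1, 0 => fun z => y1 z * y2 z * T 1 1 z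
  | 1, 1 => fun z => y2 z * y2 z * T 0 2 z

noncomputable def fS' : Fin 2 → Fin 2 → C2 → ℂ
  | 0, 0 => fun z => x1 z * x1 z * T 2 0 z
  | 0, 1 => fun z => x1 z * x2 z * T 1 1 z
  | 1, 0 => fun z => x1 z * x2 z * T 1 1 z
  | 1, 1 => fun z => x2 z * x2 z * T 0 2 z

/-- `∂_i ∂_k ∂̄_j P` at the indices `i k j` -/
noncomputable def fR : Fin 2 → Fin 2 → Fin 2 → C2 → ℂ
  | 0, 0, 0 => fun z => y1 z * (2 * T 2 0 z + x1 z * y1 z * T 3 0 z)
  | 0, 0, 1 => fun z => y1 z * y1 z * x2 z * T 2 1 z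
  | 0, 1, 0 => fun z => y2 z * (T 1 1 z + x1 z * y1 z * T 2 1 z)
  | 1, 0, 0 => fun z => y2 z * (T 1 1 z + x1 z * y1 z * T 2 1 z)
  | 0, 1, 1 => fun z => y1 z * (T 1 1 z + x2 z * y2 z * T 1 2 z)
  | 1, 0, 1 => fun z => y1 z * (T 1 1 z + x2 z * y2 z * T 1 2 z)
  | 1, 1, 0 => fun z => y2 z * y2 z * x1 z * T 1 2 z
  | 1, 1, 1 => fun z => y2 z * (2 * T 0 2 z + x2 z * y2 z * T 0 3 z)

/-- `∂_i ∂̄_j ∂̄_l P` at the indices `i j l` -/
noncomputable def fR' : Fin 2 → Fin 2 → Fin 2 → C2 → ℂ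
  | 0, 0, 0 => fun z => x1 z * (2 * T 2 0 z + x1 z * y1 z * T 3 0 z)
  | 1, 0, 0 => fun z => x1 z * x1 z * y2 z * T 2 1 z
  | 0, 0, 1 => fun z => x2 z * (T 1 1 z + x1 z * y1 z * T 2 1 z)
  | 0, 1, 0 => fun z => x2 z * (T 1 1 z + x1 z * y1 z * T 2 1 z)
  | 1, 0, 1 => fun z => x1 z * (T 1 1 z + x2 z * y2 z * T 1 2 z)
  | 1, 1, 0 => fun z => x1 z * (T 1 1 z + x2 z * y2 z * T 1 2 z)
  | 0, 1, 1 => fun z => x2 z * x2 z * y1 z * T 1 2 z
  | 1, 1, 1 => fun z => x2 z * (2 * T 0 2 z + x2 z * y2 z * T 0 3 z)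

noncomputable def fQ22 (z : C2) : ℂ := T 1 1 z + x1 z * y1 z * T 2 1 z + x2 z * y2 z * T 1 2 z +
  x1 z * y1 z * (x2 z * y2 z) * T 2 2 z

/-- `∂_i ∂_k ∂̄_j ∂̄_l P` at the indices `i k j l` -/
noncomputable def fQ : Fin 2 → Fin 2 → Fin 2 → Fin 2 → C2 → ℂ
  | 0, 0, 0, 0 => fun z => 2 * T 2 0 z + 4 * (x1 z * y1 z * T 3 0 z) +
      x1 z * y1 z * (x1 z * y1 z * T 4 0 z)
  | 0, 0, 0, 1 => fun z => y1 z * x2 z * (2 * T 2 1 z + x1 z * y1 z * T 3 1 z)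
  | 0, 0, 1, 0 => fun z => y1 z * x2 z * (2 * T 2 1 z + x1 z * y1 z * T 3 1 z)
  | 0, 0, 1, 1 => fun z => y1 z * y1 z * (x2 z * x2 z) * T 2 2 z
  | 0, 1, 0, 0 => fun z => x1 z * y2 z * (2 * T 2 1 z + x1 z * y1 z * T 3 1 z)
  | 1, 0, 0, 0 => fun z => x1 z * y2 z * (2 * T 2 1 z + x1 z * y1 z * T 3 1 z)
  | 0, 1, 0, 1 => fQ22
  | 0, 1, 1, 0 => fQ22
  | 1, 0, 0, 1 => fQ22
  | 1, 0, 1, 0 => fQ22
  | 0, 1, 1, 1 => fun z => y1 z * x2 z * (2 * T 1 2 z + x2 z * y2 z * T 1 3 z)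
  | 1, 0, 1, 1 => fun z => y1 z * x2 z * (2 * T 1 2 z + x2 z * y2 z * T 1 3 z)
  | 1, 1, 0, 0 => fun z => y2 z * y2 z * (x1 z * x1 z) * T 2 2 z
  | 1, 1, 0, 1 => fun z => x1 z * y2 z * (2 * T 1 2 z + x2 z * y2 z * T 1 3 z)
  | 1, 1, 1, 0 => fun z => x1 z * y2 z * (2 * T 1 2 z + x2 z * y2 z * T 1 3 z)
  | 1, 1, 1, 1 => fun z => 2 * T 0 2 z + 4 * (x2 z * y2 z * T 0 3 z) +
      x2 z * y2 z * (x2 z * y2 z * T 0 4 z)

theorem cast_pp (m n : ℕ) (a b : ℝ) : ((pp m n a b : ℝ) : ℂ) = pp m n (a : ℂ) (b : ℂ) := by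
  simp only [pp, tt]
  push_cast
  rfl

theorem T_real (m n : ℕ) (z : C2) : T m n z = ((pp m n (normSq z.1) (normSq z.2) : ℝ) : ℂ) := by
  rw [cast_pp, T, x1, x2, y1, y2, mul_conj, mul_conj]

theorem pp00_pos (a b : ℝ) (ha : 0 ≤ a) (hb : 0 ≤ b) : 0 < pp 0 0 a b := by
  have h : pp 0 0 a b = 8 + (20 * b + 8 * b ^ 2 + a * (20 + 83 * b + 83 * b ^ 2 + 20 * b ^ 3) +
    a ^ 2 * (8 + 83 * b + 82 * b ^ 2 + 83 * b ^ 3 + 8 * b ^ 4) +
    a ^ 3 * (20 * b + 83 * b ^ 2 + 83 * b ^ 3 + 20 * b ^ 4) +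
    a ^ 4 * (8 * b ^ 2 + 20 * b ^ 3 + 8 * b ^ 4)) := by
    simp [pp, tt]; ring
  rw [h]
  positivity

theorem T00_ne (z : C2) : T 0 0 z ≠ 0 := by
  rw [T_real]
  exact_mod_cast (pp00_pos _ _ (normSq_nonneg _) (normSq_nonneg _)).ne'

/-- the potential -/
noncomputable def pot : PotJets where
  P := T 0 0
  B := fB
  B' := fB'
  C := fC
  S := fS
  S' := fS'
  R := fR
  R' := fR'
  Q := fQ
  ne := T00_ne
  dP := by fun_prop
  dB := by intro i; fin_cases i <;> simp only [fB] <;> fun_prop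
  dB' := by intro i; fin_cases i <;> simp only [fB'] <;> fun_prop
  dC := by intro i j; fin_cases i <;> fin_cases j <;> simp only [fC] <;> fun_prop
  dS' := by intro i j; fin_cases i <;> fin_cases j <;> simp only [fS'] <;> fun_prop
  dR' := by
    intro i j l; fin_cases i <;> fin_cases j <;> fin_cases l <;> simp only [fR'] <;> fun_prop
  zP := by intro k z; fin_cases k <;> simp [dz_T, fB]
  bP := by intro k z; fin_cases k <;> simp [dzb_T, fB']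
  zB := by
    intro k i z
    fin_cases k <;> fin_cases i <;>
      simp (disch := fun_prop) [fB, fS, dz_mul, dz_T, dz_y1, dz_y2] <;> ring
  bB := by
    intro k i z
    fin_cases k <;> fin_cases i <;>
      simp (disch := fun_prop) [fB, fC, dzb_mul, dzb_T, dzb_y1, dzb_y2] <;> ring
  zB' := by
    intro k i z
    fin_cases k <;> fin_cases i <;>
      simp (disch := fun_prop) [fB', fC, dz_mul, dz_T, dz_x1, dz_x2] <;> ring
  bB' := by
    intro k i z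
    fin_cases k <;> fin_cases i <;>
      simp (disch := fun_prop) [fB', fS', dzb_mul, dzb_T, dzb_x1, dzb_x2] <;> ring
  zC := by
    intro k i j z
    fin_cases k <;> fin_cases i <;> fin_cases j <;>
      simp (disch := fun_prop) [fC, fR, dz_mul, dz_add, dz_T, dz_x1, dz_x2, dz_y1, dz_y2] <;> ring
  bC := by
    intro k i j z
    fin_cases k <;> fin_cases i <;> fin_cases j <;>
      simp (disch := fun_prop) [fC, fR', dzb_mul, dzb_add, dzb_T, dzb_x1, dzb_x2, dzb_y1,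
        dzb_y2] <;> ring
  zS' := by
    intro k i j z
    fin_cases k <;> fin_cases i <;> fin_cases j <;>
      simp (disch := fun_prop) [fS', fR', dz_mul, dz_add, dz_T, dz_x1, dz_x2, dz_y1, dz_y2] <;> ring
  zR' := by
    intro k i j l z
    fin_cases k <;> fin_cases i <;> fin_cases j <;> fin_cases l <;>
      simp (disch := fun_prop) [fR', fQ, fQ22, dz_mul, dz_add, dz_T, dz_x1, dz_x2, dz_y1, dz_y2,
        dz_const] <;> ring

end Pool.Agent.H930R2
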