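import Pool.Agent.H930R2.Cert

set_option autoImplicit false
set_option linter.unusedSimpArgs false

/-! # Homogeneity of the curvature polynomials, and the certificate on `[0,2)²` -/

namespace Pool.Agent.H930R2

theorem lit_real (n : ℕ) : (Lit.lit n : ℝ) = (n : ℝ) := rfl

/-- the potential polynomial and its derivatives -/
def tt {S : Type*} [Semiring S] (i m : ℕ) (x : S) : S :=
  ((i.descFactorial m : ℕ) : S) * x ^ (i - m)

/-- `∂^{m+n} P / ∂t1^m ∂t2^n` for the potential polynomial `P` -/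
def pp {S : Type*} [Semiring S] (m n : ℕ) (x y : S) : S :=
  tt 0 m x * ((8 : ℕ) * tt 0 n y + (20 : ℕ) * tt 1 n y + (8 : ℕ) * tt 2 n y) +
  tt 1 m x * ((20 : ℕ) * tt 0 n y + (83 : ℕ) * tt 1 n y + (83 : ℕ) * tt 2 n y +
    (20 : ℕ) * tt 3 n y) +
  tt 2 m x * ((8 : ℕ) * tt 0 n y + (83 : ℕ) * tt 1 n y + (82 : ℕ) * tt 2 n y +
    (83 : ℕ) * tt 3 n y + (8 : ℕ) * tt 4 n y) +
  tt 3 m x * ((20 : ℕ) * tt 1 n y + (83 : ℕ) * tt 2 n y + (83 : ℕ) * tt 3 n y +
    (20 : ℕ) * tt 4 n y) +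
  tt 4 m x * ((8 : ℕ) * tt 2 n y + (20 : ℕ) * tt 3 n y + (8 : ℕ) * tt 4 n y)

/-- the jet of the potential polynomial -/
def jetT {S : Type*} [Semiring S] (x y : S) : Jets S where
  t1 := x
  t2 := y
  p00 := pp 0 0 x y
  p10 := pp 1 0 x y
  p01 := pp 0 1 x y
  p20 := pp 2 0 x y
  p11 := pp 1 1 x y
  p02 := pp 0 2 x y
  p30 := pp 3 0 x y
  p21 := pp 2 1 x y
  p12 := pp 1 2 x y
  p03 := pp 0 3 x y
  p40 := pp 4 0 x y
  p31 := pp 3 1 x y
  p22 := pp 2 2 x y
  p13 := pp 1 3 x y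
  p04 := pp 0 4 x y

/-- rescaled jet -/
def Jets.scale (J : Jets ℝ) (a b : ℝ) : Jets ℝ where
  t1 := a * J.t1
  t2 := b * J.t2
  p00 := a ^ 4 * b ^ 4 * J.p00
  p10 := a ^ 3 * b ^ 4 * J.p10
  p01 := a ^ 4 * b ^ 3 * J.p01
  p20 := a ^ 2 * b ^ 4 * J.p20
  p11 := a ^ 3 * b ^ 3 * J.p11
  p02 := a ^ 4 * b ^ 2 * J.p02
  p30 := a ^ 1 * b ^ 4 * J.p30
  p21 := a ^ 2 * b ^ 3 * J.p21
  p12 := a ^ 3 * b ^ 2 * J.p12
  p03 := a ^ 4 * b ^ 1 * J.p03
  p40 := a ^ 0 * b ^ 4 * J.p40
  p31 := a ^ 1 * b ^ 3 * J.p31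
  p22 := a ^ 2 * b ^ 2 * J.p22
  p13 := a ^ 3 * b ^ 1 * J.p13
  p04 := a ^ 4 * b ^ 0 * J.p04

section

variable (J : Jets ℝ) (a b c : ℝ)

theorem t12_scale : t12 (J.scale a b) = a * b * t12 J := by simp only [t12, Jets.scale]; ring
theorem c11_scale : c11 (J.scale a b) = a ^ 3 * b ^ 4 * c11 J := by
  simp only [c11, Jets.scale]; ring
theorem c22_scale : c22 (J.scale a b) = a ^ 4 * b ^ 3 * c22 J := by
  simp only [c22, Jets.scale]; ring
theorem A11_scale : A11 (J.scale a b) = a ^ 7 * b ^ 8 * A11 J := by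
  simp only [A11, c11_scale]; simp only [Jets.scale]; ring
theorem A22_scale : A22 (J.scale a b) = a ^ 8 * b ^ 7 * A22 J := by
  simp only [A22, c22_scale]; simp only [Jets.scale]; ring
theorem A12_scale : A12 (J.scale a b) = a ^ 7 * b ^ 7 * A12 J := by
  simp only [A12]; simp only [Jets.scale]; ring
theorem al_scale : al (J.scale a b) = a ^ 7 * b ^ 7 * al J := by
  simp only [al, c11_scale, c22_scale, t12_scale]; simp only [Jets.scale]; ring
theorem be1_scale : be1 (J.scale a b) = a ^ 7 * b ^ 7 * be1 J := by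
  simp only [be1, c22_scale]; simp only [Jets.scale]; ring
theorem be2_scale : be2 (J.scale a b) = a ^ 7 * b ^ 7 * be2 J := by
  simp only [be2, c11_scale]; simp only [Jets.scale]; ring
theorem D3_scale : D3 (J.scale a b) = a ^ 11 * b ^ 11 * D3 J := by
  simp only [D3, al_scale, be1_scale, be2_scale]; simp only [Jets.scale]; ring
theorem rho1_scale : rho1 (J.scale a b) = a ^ 2 * b ^ 4 * rho1 J := by
  simp only [rho1, lit_real]; simp only [Jets.scale]; ring
theorem rho2_scale : rho2 (J.scale a b) = a ^ 3 * b ^ 3 * rho2 J := by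
  simp only [rho2]; simp only [Jets.scale]; ring
theorem sig2_scale : sig2 (J.scale a b) = a ^ 3 * b ^ 3 * sig2 J := by
  simp only [sig2]; simp only [Jets.scale]; ring
theorem sig3_scale : sig3 (J.scale a b) = a ^ 4 * b ^ 2 * sig3 J := by
  simp only [sig3, lit_real]; simp only [Jets.scale]; ring
theorem q11_scale : q11 (J.scale a b) = a ^ 2 * b ^ 4 * q11 J := by
  simp only [q11, lit_real]; simp only [Jets.scale]; ring
theorem q22_scale : q22 (J.scale a b) = a ^ 3 * b ^ 3 * q22 J := by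
  simp only [q22, t12_scale]; simp only [Jets.scale]; ring
theorem q33_scale : q33 (J.scale a b) = a ^ 4 * b ^ 2 * q33 J := by
  simp only [q33, lit_real]; simp only [Jets.scale]; ring
theorem q12_scale : q12 (J.scale a b) = a ^ 2 * b ^ 3 * q12 J := by
  simp only [q12, lit_real]; simp only [Jets.scale]; ring
theorem q23_scale : q23 (J.scale a b) = a ^ 3 * b ^ 2 * q23 J := by
  simp only [q23, lit_real]; simp only [Jets.scale]; ring
theorem K11_scale : K11 (J.scale a b) = a ^ 13 * b ^ 15 * K11 J := by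
  simp only [K11, q11_scale, D3_scale, al_scale, be1_scale, be2_scale, A11_scale, A22_scale,
    A12_scale, rho1_scale, t12_scale, lit_real]; simp only [Jets.scale]; ring
theorem K33_scale : K33 (J.scale a b) = a ^ 15 * b ^ 13 * K33 J := by
  simp only [K33, q33_scale, D3_scale, al_scale, be1_scale, be2_scale, A11_scale, A22_scale,
    A12_scale, sig3_scale, t12_scale, lit_real]; simp only [Jets.scale]; ring
theorem K22_scale : K22 (J.scale a b) = a ^ 14 * b ^ 14 * K22 J := by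
  simp only [K22, q22_scale, D3_scale, al_scale, be1_scale, be2_scale, A11_scale, A22_scale,
    A12_scale, rho2_scale, sig2_scale, t12_scale, lit_real]; simp only [Jets.scale]; ring
theorem K12_scale : K12 (J.scale a b) = a ^ 13 * b ^ 14 * K12 J := by
  simp only [K12, q12_scale, D3_scale, al_scale, be1_scale, be2_scale, A11_scale, A22_scale,
    A12_scale, rho1_scale, rho2_scale, sig2_scale, t12_scale, lit_real]
  simp only [Jets.scale]; ring
theorem K23_scale : K23 (J.scale a b) = a ^ 14 * b ^ 13 * K23 J := by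
  simp only [K23, q23_scale, D3_scale, al_scale, be1_scale, be2_scale, A11_scale, A22_scale,
    A12_scale, sig3_scale, rho2_scale, sig2_scale, t12_scale, lit_real]
  simp only [Jets.scale]; ring
theorem K13_scale : K13 (J.scale a b) = a ^ 13 * b ^ 13 * K13 J := by
  simp only [K13, D3_scale, al_scale, be1_scale, be2_scale, A11_scale, A22_scale,
    A12_scale, sig3_scale, rho1_scale, sig2_scale, t12_scale, lit_real]
  simp only [Jets.scale]; ring
theorem P3_scale : P3 (J.scale a b) = a ^ 12 * b ^ 12 * P3 J := by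
  simp only [P3]; simp only [Jets.scale]; ring
theorem n1_scale : n1 (J.scale a b) = a ^ 25 * b ^ 27 * n1 J := by
  simp only [n1, A11_scale, D3_scale, P3_scale, K11_scale]; ring
theorem n2_scale : n2 (J.scale a b) = a ^ 27 * b ^ 25 * n2 J := by
  simp only [n2, A22_scale, D3_scale, P3_scale, K33_scale]; ring
theorem n3_scale : n3 (J.scale a b) = a ^ 26 * b ^ 26 * n3 J := by
  simp only [n3, A11_scale, A22_scale, D3_scale, P3_scale, K22_scale, K13_scale, t12_scale]; ring
theorem n4_scale : n4 (J.scale a b) = a ^ 25 * b ^ 26 * n4 J := by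
  simp only [n4, A11_scale, A12_scale, D3_scale, P3_scale, K12_scale]; ring
theorem n5_scale : n5 (J.scale a b) = a ^ 26 * b ^ 25 * n5 J := by
  simp only [n5, A22_scale, A12_scale, D3_scale, P3_scale, K23_scale]; ring
theorem n6_scale : n6 (J.scale a b) = a ^ 25 * b ^ 25 * n6 J := by
  simp only [n6, A12_scale, D3_scale, P3_scale, K13_scale]; ring
theorem mu8_scale : mu8 (J.scale a b) (c * a ^ 25 * b ^ 25) = a ^ 25 * b ^ 25 * mu8 J c := by
  simp only [mu8, n6_scale]; ring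
theorem m8_scale : m8 (J.scale a b) (c * a ^ 25 * b ^ 25) = a ^ 25 * b ^ 25 * m8 J c := by
  simp only [m8, n6_scale]; ring
theorem k8_scale : k8 (J.scale a b) (c * a ^ 25 * b ^ 25) = a ^ 26 * b ^ 26 * k8 J c := by
  simp only [k8, n3_scale, mu8_scale, t12_scale]; ring
theorem EE_scale : EE (J.scale a b) (c * a ^ 25 * b ^ 25) = a ^ 52 * b ^ 52 * EE J c := by
  simp only [EE, n1_scale, n2_scale, k8_scale]; ring
theorem DD_scale : DD (J.scale a b) (c * a ^ 25 * b ^ 25) = a ^ 77 * b ^ 77 * DD J c := by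
  simp only [DD, n1_scale, n2_scale, n4_scale, n5_scale, EE_scale, m8_scale, k8_scale]; ring

end

theorem ee_eq (i m : ℕ) (hi : i ≤ 4) (x : ℝ) (hx : 0 ≤ x) :
    ee i m x = (1 + x) ^ (4 - m) * tt i m (2 * x / (1 + x)) := by
  have h1 : (1 + x) ≠ 0 := by positivity
  rcases lt_or_ge i m with h | h
  · simp [ee, tt, Nat.descFactorial_of_lt h]
  · have h2 : 4 - m = (i - m) + (4 - i) := by omega
    rw [ee, tt, h2, pow_add, div_pow]
    push_cast
    field_simp

theorem ph_eq (m n : ℕ) (x y : ℝ) (hx : 0 ≤ x) (hy : 0 ≤ y) :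
    ph m n x y = (1 + x) ^ (4 - m) * (1 + y) ^ (4 - n) *
      pp m n (2 * x / (1 + x)) (2 * y / (1 + y)) := by
  rw [ph, pp]
  simp only [ee_eq 0 m (by omega) x hx, ee_eq 1 m (by omega) x hx, ee_eq 2 m (by omega) x hx,
    ee_eq 3 m (by omega) x hx, ee_eq 4 m (by omega) x hx,
    ee_eq 0 n (by omega) y hy, ee_eq 1 n (by omega) y hy, ee_eq 2 n (by omega) y hy,
    ee_eq 3 n (by omega) y hy, ee_eq 4 n (by omega) y hy]
  ring

theorem jetR_eq (x y : ℝ) (hx : 0 ≤ x) (hy : 0 ≤ y) :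
    jetR x y = (jetT (2 * x / (1 + x)) (2 * y / (1 + y))).scale (1 + x) (1 + y) := by
  have h1 : (1 + x) ≠ 0 := by positivity
  have h2 : (1 + y) ≠ 0 := by positivity
  have h3 : 2 * x = (1 + x) * (2 * x / (1 + x)) := by field_simp
  have h4 : 2 * y = (1 + y) * (2 * y / (1 + y)) := by field_simp
  simp only [jetR, jetT, Jets.scale, ph_eq _ _ x y hx hy]
  rw [← h3, ← h4]

/-- the constant of the certificate -/
noncomputable def c0 : ℝ := 46394769408

/-- The certificate for the jets of the potential on `[0,2)²`. -/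
theorem certT (t1 t2 : ℝ) (h1 : 0 ≤ t1) (h1' : t1 < 2) (h2 : 0 ≤ t2) (h2' : t2 < 2) :
    0 < A11 (jetT t1 t2) ∧ 0 < D3 (jetT t1 t2) ∧ 0 < n1 (jetT t1 t2) ∧
    0 < mu8 (jetT t1 t2) c0 ∧ 0 < EE (jetT t1 t2) c0 ∧ 0 < DD (jetT t1 t2) c0 := by
  have e1 : 0 < 2 - t1 := by linarith
  have e2 : 0 < 2 - t2 := by linarith
  have hx : 0 ≤ t1 / (2 - t1) := by positivity
  have hy : 0 ≤ t2 / (2 - t2) := by positivity
  have g1 : 2 * (t1 / (2 - t1)) / (1 + t1 / (2 - t1)) = t1 := by
    have : 1 + t1 / (2 - t1) = 2 / (2 - t1) := by field_simp; ring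
    rw [this]; field_simp
  have g2 : 2 * (t2 / (2 - t2)) / (1 + t2 / (2 - t2)) = t2 := by
    have : 1 + t2 / (2 - t2) = 2 / (2 - t2) := by field_simp; ring
    rw [this]; field_simp
  have C := cert _ _ hx hy
  rw [jetR_eq _ _ hx hy, g1, g2] at C
  have hc : cR (t1 / (2 - t1)) (t2 / (2 - t2)) =
      c0 * (1 + t1 / (2 - t1)) ^ 25 * (1 + t2 / (2 - t2)) ^ 25 := rfl
  rw [hc, A11_scale, D3_scale, n1_scale, mu8_scale, EE_scale, DD_scale] at C
  have p1 : 0 < 1 + t1 / (2 - t1) := by positivity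
  have p2 : 0 < 1 + t2 / (2 - t2) := by positivity
  obtain ⟨h1, h2, h3, h4, h5, h6⟩ := C
  exact ⟨pos_of_mul_pos_right h1 (by positivity), pos_of_mul_pos_right h2 (by positivity),
    pos_of_mul_pos_right h3 (by positivity), pos_of_mul_pos_right h4 (by positivity),
    pos_of_mul_pos_right h5 (by positivity), pos_of_mul_pos_right h6 (by positivity)⟩

/-- the curvature numerator -/
noncomputable def NN (J : Jets ℝ) (x y r : ℝ) : ℝ :=
  n1 J * x ^ 2 + n2 J * y ^ 2 + n3 J * (x * y) + 2 * n4 J * (x * r) + 2 * n5 J * (y * r) +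
    n6 J * r ^ 2

theorem NN_pos (J : Jets ℝ) (c : ℝ) (h1 : 0 < n1 J) (hmu : 0 < mu8 J c) (hE : 0 < EE J c)
    (hD : 0 < DD J c) (x y r : ℝ) (hx : 0 ≤ x) (hy : 0 ≤ y) (hxy : 0 < x + y)
    (hr : r ^ 2 ≤ t12 J * (x * y)) : 0 < NN J x y r := by
  set N1 := n1 J
  set N2 := n2 J
  set N4 := n4 J
  set N5 := n5 J
  set k := k8 J c with hk
  set m := m8 J c with hm
  have hE' : EE J c = 256 * (N1 * N2) - k * k := by simp only [EE, lit_real]; norm_num [N1, N2, k]
  have hD' : DD J c = m * EE J c - 2048 * (N1 * (N5 * N5)) - 2048 * (N2 * (N4 * N4)) +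
      256 * (k * (N4 * N5)) := by
    simp only [DD, lit_real]; norm_num [N1, N2, N4, N5, k, m]
  -- the quadratic form
  have hN : 8 * NN J x y r = (8 * N1 * x ^ 2 + 8 * N2 * y ^ 2 + k * (x * y) +
      16 * N4 * (x * r) + 16 * N5 * (y * r) + m * r ^ 2) +
      mu8 J c * (t12 J * (x * y) - r ^ 2) := by
    simp only [NN, hk, hm, k8, m8, mu8, lit_real, N1, N2, N4, N5]; push_cast; ring
  have hid : 32 * N1 * EE J c * (8 * N1 * x ^ 2 + 8 * N2 * y ^ 2 + k * (x * y) +
      16 * N4 * (x * r) + 16 * N5 * (y * r) + m * r ^ 2) =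
      EE J c * (16 * N1 * x + k * y + 16 * N4 * r) ^ 2 +
      (EE J c * y + (256 * N1 * N5 - 16 * k * N4) * r) ^ 2 +
      32 * N1 * DD J c * r ^ 2 := by
    rw [hD', hE']; ring
  have hpos : 0 < EE J c * (16 * N1 * x + k * y + 16 * N4 * r) ^ 2 +
      (EE J c * y + (256 * N1 * N5 - 16 * k * N4) * r) ^ 2 +
      32 * N1 * DD J c * r ^ 2 := by
    rcases eq_or_ne r 0 with hr0 | hr0
    · subst hr0
      rcases hy.lt_or_eq with hy' | hy'
      · have : 0 < (EE J c * y + (256 * N1 * N5 - 16 * k * N4) * 0) ^ 2 := by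
          rw [mul_zero, add_zero]; positivity
        have h2 : 0 ≤ EE J c * (16 * N1 * x + k * y + 16 * N4 * 0) ^ 2 := by positivity
        nlinarith
      · subst hy'
        have hx' : 0 < x := by linarith
        have : 0 < EE J c * (16 * N1 * x + k * 0 + 16 * N4 * 0) ^ 2 := by
          rw [mul_zero, mul_zero, add_zero, add_zero]; positivity
        nlinarith [sq_nonneg (EE J c * 0 + (256 * N1 * N5 - 16 * k * N4) * 0)]
    · have h3 : 0 < 32 * N1 * DD J c * r ^ 2 := by positivity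
      have h2 : 0 ≤ EE J c * (16 * N1 * x + k * y + 16 * N4 * r) ^ 2 := by positivity
      have h4 := sq_nonneg (EE J c * y + (256 * N1 * N5 - 16 * k * N4) * r)
      linarith
  rw [← hid] at hpos
  have hq := pos_of_mul_pos_right hpos (by positivity)
  have h5 : 0 ≤ mu8 J c * (t12 J * (x * y) - r ^ 2) := mul_nonneg hmu.le (by linarith)
  linarith

end Pool.Agent.H930R2
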