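import Pool.Agent.H930R2.P1

set_option autoImplicit false

/-! # The surface `X = {(x, y, u) ∈ P1³ : u = x y}` (the blow-up of `P1 × P1` at two points) -/

open scoped Manifold ContDiff Topology
open Filter Set

namespace Pool.Agent.H930R2

namespace P1

/-- first homogeneous coordinate -/
def num (x : P1) : ℂ := OnePoint.elim x 1 id
/-- second homogeneous coordinate -/
def den (x : P1) : ℂ := OnePoint.elim x 0 (fun _ => 1)

@[simp] theorem num_inf : num inf = 1 := rfl
@[simp] theorem den_inf : den inf = 0 := rfl
@[simp] theorem num_of (z : ℂ) : num (of z) = z := rfl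
@[simp] theorem den_of (z : ℂ) : den (of z) = 1 := rfl

end P1

open P1

/-- The relation `x₀ y₀ u₁ = x₁ y₁ u₀` -/
def Rel (x y u : P1) : Prop := num x * num y * den u = den x * den y * num u

theorem rel_of (a b : ℂ) (u : P1) : Rel (of a) (of b) u ↔ u = of (a * b) := by
  rcases cases' u with rfl | ⟨c, rfl⟩
  · simp only [Rel, num_of, den_of, num_inf, den_inf, mul_zero, mul_one]
    constructor
    · intro h; exact absurd h (by norm_num)
    · intro h; exact absurd h.symm (of_ne_inf _)
  · simp only [Rel, num_of, den_of, mul_one, one_mul, of_inj]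
    exact eq_comm

theorem rel_rot {x y u : P1} (h : Rel x y u) : Rel (inv y) u x := by
  rcases cases' y with rfl | ⟨b, rfl⟩
  · simp only [Rel, inv_inf, num_of, den_of, num_inf, den_inf] at *
    linear_combination -h
  · rcases eq_or_ne b 0 with rfl | hb
    · simp only [Rel, P1.inv_zero, num_of, den_of, num_inf, den_inf] at *
      linear_combination -h
    · rw [inv_of hb]
      simp only [Rel, num_of, den_of] at *
      field_simp
      linear_combination -h

theorem rel_rot' {x y u : P1} (h : Rel x y u) : Rel u (inv x) y := by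
  rcases cases' x with rfl | ⟨b, rfl⟩
  · simp only [Rel, inv_inf, num_of, den_of, num_inf, den_inf] at *
    linear_combination -h
  · rcases eq_or_ne b 0 with rfl | hb
    · simp only [Rel, P1.inv_zero, num_of, den_of, num_inf, den_inf] at *
      linear_combination -h
    · rw [inv_of hb]
      simp only [Rel, num_of, den_of] at *
      field_simp
      linear_combination -h

/-- The surface. -/
def X6 : Type := {p : P1 × P1 × P1 // Rel p.1 p.2.1 p.2.2}

namespace X6

instance : TopologicalSpace X6 := inferInstanceAs (TopologicalSpace {p : P1 × P1 × P1 // _})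
instance : T2Space X6 := inferInstanceAs (T2Space {p : P1 × P1 × P1 // _})

/-- the coordinates -/
def x (p : X6) : P1 := p.1.1
def y (p : X6) : P1 := p.1.2.1
def u (p : X6) : P1 := p.1.2.2

theorem rel (p : X6) : Rel p.x p.y p.u := p.2

theorem ext' {p q : X6} (h1 : p.x = q.x) (h2 : p.y = q.y) (h3 : p.u = q.u) : p = q :=
  Subtype.ext (Prod.ext h1 (Prod.ext h2 h3))

theorem continuous_x : Continuous x := continuous_fst.comp continuous_subtype_val
theorem continuous_y : Continuous y := (continuous_fst.comp continuous_snd).comp
  continuous_subtype_val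
theorem continuous_u : Continuous u := (continuous_snd.comp continuous_snd).comp
  continuous_subtype_val

/-- constructor -/
def mk (a b c : P1) (h : Rel a b c) : X6 := ⟨(a, b, c), h⟩

theorem continuous_mk {Y : Type*} [TopologicalSpace Y] {f g k : Y → P1}
    (h : ∀ t, Rel (f t) (g t) (k t)) (hf : Continuous f) (hg : Continuous g)
    (hk : Continuous k) : Continuous (fun t => mk (f t) (g t) (k t) (h t)) :=
  Continuous.subtype_mk (hf.prodMk (hg.prodMk hk)) _

/-- the automorphism `(x, y, u) ↦ (1/y, u, x)` of order six -/
noncomputable def rot : X6 ≃ₜ X6 where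
  toFun p := mk (inv p.y) p.u p.x (rel_rot p.rel)
  invFun p := mk p.u (inv p.x) p.y (rel_rot' p.rel)
  left_inv p := ext' rfl (inv_inv _) rfl
  right_inv p := ext' (inv_inv _) rfl rfl
  continuous_toFun := continuous_mk _ (continuous_inv.comp continuous_y) continuous_u continuous_x
  continuous_invFun := continuous_mk _ continuous_u (continuous_inv.comp continuous_x) continuous_y

/-- the chart `(y, x)` at the origin -/
noncomputable def E0 : OpenPartialHomeomorph X6 C2 where
  toFun p := (fin p.y, fin p.x)
  invFun z := mk (of z.2) (of z.1) (of (z.2 * z.1)) ((rel_of _ _ _).2 rfl)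
  source := {p | p.y ≠ P1.inf ∧ p.x ≠ P1.inf}
  target := Set.univ
  map_source' _ _ := Set.mem_univ _
  map_target' z _ := ⟨of_ne_inf _, of_ne_inf _⟩
  left_inv' p hp := by
    obtain ⟨h1, h2⟩ := hp
    refine ext' (of_fin h2) (of_fin h1) ?_
    have := p.rel
    rw [← of_fin h1, ← of_fin h2, rel_of] at this
    exact this.symm
  right_inv' z _ := rfl
  open_source := (isOpen_ne_inf.preimage continuous_y).inter (isOpen_ne_inf.preimage continuous_x)
  open_target := isOpen_univ
  continuousOn_toFun p hp :=
    (((continuousAt_fin _ hp.1).comp continuous_y.continuousAt).prodMk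
      ((continuousAt_fin _ hp.2).comp continuous_x.continuousAt)).continuousWithinAt
  continuousOn_invFun := (continuous_mk _ (continuous_of.comp continuous_snd)
    (continuous_of.comp continuous_fst)
    (continuous_of.comp (continuous_snd.mul continuous_fst))).continuousOn

/-- powers of the rotation -/
noncomputable def rotn : ℕ → (X6 ≃ₜ X6)
  | 0 => Homeomorph.refl _
  | n + 1 => (rotn n).trans rot

theorem rotn_succ (n : ℕ) (p : X6) : rotn (n + 1) p = rot (rotn n p) := rfl

theorem rotn_six (p : X6) : rotn 6 p = p := by
  refine ext' ?_ ?_ ?_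
  · change inv (inv p.x) = p.x
    rw [inv_inv]
  · change inv (inv p.y) = p.y
    rw [inv_inv]
  · change inv (inv p.u) = p.u
    rw [inv_inv]

theorem rotn_add (m n : ℕ) (p : X6) : rotn (m + n) p = rotn m (rotn n p) := by
  induction m with
  | zero => simp [rotn]
  | succ m ih => rw [show m + 1 + n = m + n + 1 from by ring, rotn_succ, ih, rotn_succ]

theorem rotn_mod (n : ℕ) (p : X6) : rotn n p = rotn (n % 6) p := by
  have h : ∀ k : ℕ, ∀ q : X6, rotn (6 * k) q = q := by
    intro k
    induction k with
    | zero => intro q; rfl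
    | succ k ih => intro q; rw [show 6 * (k + 1) = 6 * k + 6 from by ring, rotn_add, rotn_six, ih]
  conv_lhs => rw [← Nat.mod_add_div n 6]
  rw [rotn_add, h]

theorem rotn_symm (m : ℕ) (hm : m ≤ 6) (p : X6) : (rotn m).symm p = rotn (6 - m) p := by
  rw [Homeomorph.symm_apply_eq, ← rotn_add, show m + (6 - m) = 6 from by omega, rotn_six]

/-- the six charts, with image `ℂ²` -/
noncomputable def E (n : ℕ) : OpenPartialHomeomorph X6 C2 := (rotn n).transOpenPartialHomeomorph E0

theorem E_apply (n : ℕ) (p : X6) : E n p = E0 (rotn n p) := rfl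
theorem E_symm_apply (n : ℕ) (z : C2) : (E n).symm z = (rotn n).symm (E0.symm z) := rfl
theorem E_source (n : ℕ) : (E n).source = rotn n ⁻¹' E0.source := rfl
theorem E_target (n : ℕ) : (E n).target = Set.univ := rfl

end X6

end Pool.Agent.H930R2
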