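import Pool.Agent.H930R2.Ident
import Pool.Agent.H930R2.Scale

set_option autoImplicit false
set_option linter.unusedSimpArgs false

/-! # The potential `log P(|z₁|², |z₂|²)` -/

open scoped Manifold ContDiff ComplexConjugate
open Complex

namespace Pool.Agent.H930R2

theorem dz_comp_holo {h : ℂ → ℂ} {h' : ℂ} {f : C2 → ℂ} {z : C2} (k : Fin 2)
    (hh : HasDerivAt h h' (f z)) (hf : DifferentiableAt ℝ f z) :
    dz k (fun w => h (f w)) z = h' * dz k f z ∧ dzb k (fun w => h (f w)) z = h' * dzb k f z := by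
  have h1 : HasFDerivAt h ((ContinuousLinearMap.toSpanSingleton ℂ h').restrictScalars ℝ) (f z) :=
    (hh.hasFDerivAt).restrictScalars ℝ
  have h2 : HasFDerivAt (fun w => h (f w))
    (((ContinuousLinearMap.toSpanSingleton ℂ h').restrictScalars ℝ).comp (fderiv ℝ f z)) z :=
    h1.comp z hf.hasFDerivAt
  constructor
  · rw [dz, dz, h2.fderiv]; simp; ring
  · rw [dzb, dzb, h2.fderiv]; simp; ring

/-- coordinate functions -/
def x1 (z : C2) : ℂ := z.1
def x2 (z : C2) : ℂ := z.2
noncomputable def y1 (z : C2) : ℂ := conj z.1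
noncomputable def y2 (z : C2) : ℂ := conj z.2

@[fun_prop] theorem contDiff_x1 : ContDiff ℝ ∞ x1 := contDiff_fst
@[fun_prop] theorem contDiff_x2 : ContDiff ℝ ∞ x2 := contDiff_snd
@[fun_prop] theorem contDiff_y1 : ContDiff ℝ ∞ y1 :=
  (conjCLE : ℂ →L[ℝ] ℂ).contDiff.comp contDiff_fst
@[fun_prop] theorem contDiff_y2 : ContDiff ℝ ∞ y2 :=
  (conjCLE : ℂ →L[ℝ] ℂ).contDiff.comp contDiff_snd
@[fun_prop] theorem differentiable_x1 : Differentiable ℝ x1 := contDiff_x1.differentiable (by simp)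
@[fun_prop] theorem differentiable_x2 : Differentiable ℝ x2 := contDiff_x2.differentiable (by simp)
@[fun_prop] theorem differentiable_y1 : Differentiable ℝ y1 := contDiff_y1.differentiable (by simp)
@[fun_prop] theorem differentiable_y2 : Differentiable ℝ y2 := contDiff_y2.differentiable (by simp)

theorem dz_x1 (k : Fin 2) (z : C2) : dz k x1 z = if k = 0 then 1 else 0 := dz_fst k z
theorem dz_x2 (k : Fin 2) (z : C2) : dz k x2 z = if k = 0 then 0 else 1 := dz_snd k z
theorem dz_y1 (k : Fin 2) (z : C2) : dz k y1 z = 0 := dz_cfst k z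
theorem dz_y2 (k : Fin 2) (z : C2) : dz k y2 z = 0 := dz_csnd k z
theorem dzb_x1 (k : Fin 2) (z : C2) : dzb k x1 z = 0 := dzb_fst k z
theorem dzb_x2 (k : Fin 2) (z : C2) : dzb k x2 z = 0 := dzb_snd k z
theorem dzb_y1 (k : Fin 2) (z : C2) : dzb k y1 z = if k = 0 then 1 else 0 := dzb_cfst k z
theorem dzb_y2 (k : Fin 2) (z : C2) : dzb k y2 z = if k = 0 then 0 else 1 := dzb_csnd k z

theorem tt_hasDerivAt (i m : ℕ) (x : ℂ) : HasDerivAt (fun x : ℂ => tt i m x) (tt i (m + 1) x) x := by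
  have h : HasDerivAt (fun x : ℂ => ((i.descFactorial m : ℕ) : ℂ) * x ^ (i - m))
      (((i.descFactorial m : ℕ) : ℂ) * (((i - m : ℕ) : ℂ) * x ^ (i - m - 1))) x :=
    (hasDerivAt_pow (i - m) x).const_mul _
  have e : tt i (m + 1) x =
      ((i.descFactorial m : ℕ) : ℂ) * (((i - m : ℕ) : ℂ) * x ^ (i - m - 1)) := by
    unfold tt
    rw [Nat.descFactorial_succ, Nat.sub_sub]
    push_cast
    ring
  rw [e]
  exact h

theorem tt_contDiff (i m : ℕ) : ContDiff ℝ ∞ (fun x : ℂ => tt i m x) := by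
  unfold tt; fun_prop

/-- the coefficients of the potential polynomial -/
def cf (i j : Fin 5) : ℕ :=
  ![![8, 20, 8, 0, 0], ![20, 83, 83, 20, 0], ![8, 83, 82, 83, 8], ![0, 20, 83, 83, 20],
    ![0, 0, 8, 20, 8]] i j

theorem pp_eq_sum {S : Type*} [CommSemiring S] (m n : ℕ) (x y : S) :
    pp m n x y = ∑ i : Fin 5, ∑ j : Fin 5, ((cf i j : ℕ) : S) * (tt i m x * tt j n y) := by
  simp only [pp, Fin.sum_univ_succ, cf, Fin.sum_univ_zero]
  simp
  ring

/-- derivatives of the potential polynomial, as functions of `z` -/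
noncomputable def T (m n : ℕ) (z : C2) : ℂ := pp m n (x1 z * y1 z) (x2 z * y2 z)

theorem T_eq (m n : ℕ) : T m n = fun z => ∑ i : Fin 5, ∑ j : Fin 5, ((cf i j : ℕ) : ℂ) *
    (tt i m (x1 z * y1 z) * tt j n (x2 z * y2 z)) := by
  funext z; rw [T, pp_eq_sum]

@[fun_prop] theorem contDiff_U (i m : ℕ) : ContDiff ℝ ∞ (fun z => tt i m (x1 z * y1 z)) :=
  (tt_contDiff i m).comp (contDiff_x1.mul contDiff_y1)
@[fun_prop] theorem contDiff_V (i m : ℕ) : ContDiff ℝ ∞ (fun z => tt i m (x2 z * y2 z)) :=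
  (tt_contDiff i m).comp (contDiff_x2.mul contDiff_y2)

@[fun_prop] theorem contDiff_T (m n : ℕ) : ContDiff ℝ ∞ (T m n) := by
  rw [T_eq]
  exact ContDiff.sum fun i _ => ContDiff.sum fun j _ =>
    contDiff_const.mul ((contDiff_U i m).mul (contDiff_V j n))

@[fun_prop] theorem differentiable_T (m n : ℕ) : Differentiable ℝ (T m n) :=
  (contDiff_T m n).differentiable (by simp)

theorem dz_sum {ι : Type*} (s : Finset ι) (f : ι → C2 → ℂ) (k : Fin 2) (z : C2)
    (h : ∀ i ∈ s, DifferentiableAt ℝ (f i) z) :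
    dz k (fun w => ∑ i ∈ s, f i w) z = ∑ i ∈ s, dz k (f i) z := by
  simp only [dz, fderiv_fun_sum h, ContinuousLinearMap.sum_apply, Finset.mul_sum]
  rw [← Finset.sum_sub_distrib, Finset.sum_div]

theorem dzb_sum {ι : Type*} (s : Finset ι) (f : ι → C2 → ℂ) (k : Fin 2) (z : C2)
    (h : ∀ i ∈ s, DifferentiableAt ℝ (f i) z) :
    dzb k (fun w => ∑ i ∈ s, f i w) z = ∑ i ∈ s, dzb k (f i) z := by
  simp only [dzb, fderiv_fun_sum h, ContinuousLinearMap.sum_apply, Finset.mul_sum]
  rw [← Finset.sum_add_distrib, Finset.sum_div]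

theorem dUV (i j m n : ℕ) (k : Fin 2) (z : C2) :
    dz k (fun z => tt i m (x1 z * y1 z) * tt j n (x2 z * y2 z)) z =
      (if k = 0 then y1 z * (tt i (m + 1) (x1 z * y1 z) * tt j n (x2 z * y2 z))
        else y2 z * (tt i m (x1 z * y1 z) * tt j (n + 1) (x2 z * y2 z))) ∧
    dzb k (fun z => tt i m (x1 z * y1 z) * tt j n (x2 z * y2 z)) z =
      (if k = 0 then x1 z * (tt i (m + 1) (x1 z * y1 z) * tt j n (x2 z * y2 z))
        else x2 z * (tt i m (x1 z * y1 z) * tt j (n + 1) (x2 z * y2 z))) := by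
  have d1 := (contDiff_U i m).differentiable (by simp) z
  have d2 := (contDiff_V j n).differentiable (by simp) z
  have a1 := differentiable_x1 z
  have a2 := differentiable_x2 z
  have b1 := differentiable_y1 z
  have b2 := differentiable_y2 z
  have e1 := dz_comp_holo (f := fun z => x1 z * y1 z) k (tt_hasDerivAt i m (x1 z * y1 z))
    (a1.fun_mul b1)
  have e2 := dz_comp_holo (f := fun z => x2 z * y2 z) k (tt_hasDerivAt j n (x2 z * y2 z))
    (a2.fun_mul b2)
  rw [dz_mul k a1 b1, dzb_mul k a1 b1, dz_x1, dz_y1, dzb_x1, dzb_y1] at e1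
  rw [dz_mul k a2 b2, dzb_mul k a2 b2, dz_x2, dz_y2, dzb_x2, dzb_y2] at e2
  rw [dz_mul k d1 d2, dzb_mul k d1 d2, e1.1, e1.2, e2.1, e2.2]
  fin_cases k
  · simp; constructor <;> ring
  · simp; constructor <;> ring

theorem dz_T (m n : ℕ) (k : Fin 2) (z : C2) :
    dz k (T m n) z = if k = 0 then y1 z * T (m + 1) n z else y2 z * T m (n + 1) z := by
  have hd : ∀ i j : Fin 5, DifferentiableAt ℝ
      (fun z => tt i m (x1 z * y1 z) * tt j n (x2 z * y2 z)) z := fun i j =>
    (((contDiff_U i m).mul (contDiff_V j n)).differentiable (by simp)) z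
  rw [T_eq, T_eq, T_eq]
  rw [dz_sum _ _ k z (fun i _ => by
    exact DifferentiableAt.fun_sum fun j _ => (differentiableAt_const _).fun_mul (hd i j))]
  simp_rw [dz_sum Finset.univ _ k z (fun j _ => (differentiableAt_const _).fun_mul (hd _ j)),
    dz_mul k (differentiableAt_const _) (hd _ _), dz_const, (dUV _ _ m n k z).1]
  split_ifs
  · simp_rw [Finset.mul_sum]
    exact Finset.sum_congr rfl fun i _ => Finset.sum_congr rfl fun j _ => by ring
  · simp_rw [Finset.mul_sum]
    exact Finset.sum_congr rfl fun i _ => Finset.sum_congr rfl fun j _ => by ring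

theorem dzb_T (m n : ℕ) (k : Fin 2) (z : C2) :
    dzb k (T m n) z = if k = 0 then x1 z * T (m + 1) n z else x2 z * T m (n + 1) z := by
  have hd : ∀ i j : Fin 5, DifferentiableAt ℝ
      (fun z => tt i m (x1 z * y1 z) * tt j n (x2 z * y2 z)) z := fun i j =>
    (((contDiff_U i m).mul (contDiff_V j n)).differentiable (by simp)) z
  rw [T_eq, T_eq, T_eq]
  rw [dzb_sum _ _ k z (fun i _ => by
    exact DifferentiableAt.fun_sum fun j _ => (differentiableAt_const _).fun_mul (hd i j))]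
  simp_rw [dzb_sum Finset.univ _ k z (fun j _ => (differentiableAt_const _).fun_mul (hd _ j)),
    dzb_mul k (differentiableAt_const _) (hd _ _), dzb_const, (dUV _ _ m n k z).2]
  split_ifs
  · simp_rw [Finset.mul_sum]
    exact Finset.sum_congr rfl fun i _ => Finset.sum_congr rfl fun j _ => by ring
  · simp_rw [Finset.mul_sum]
    exact Finset.sum_congr rfl fun i _ => Finset.sum_congr rfl fun j _ => by ring

end Pool.Agent.H930R2
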