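import Pool.Agent.H930R2.Surface

set_option autoImplicit false

/-! # Transition maps of the six charts, covering by six polydiscs, manifold structure -/

open scoped Manifold ContDiff Topology
open Filter Set

namespace Pool.Agent.H930R2

open P1

namespace X6

/-- the transition maps -/
noncomputable def tr : ℕ → C2 → C2
  | 0, z => z
  | 1, z => (z.2 * z.1, z.1⁻¹)
  | 2, z => (z.2, (z.2 * z.1)⁻¹)
  | 3, z => (z.1⁻¹, z.2⁻¹)
  | 4, z => ((z.2 * z.1)⁻¹, z.1)
  | _, z => (z.2⁻¹, z.2 * z.1)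

/-- their domains -/
def dom : ℕ → Set C2
  | 0 => Set.univ
  | 1 => {z | z.1 ≠ 0}
  | 2 => {z | z.2 * z.1 ≠ 0}
  | 3 => {z | z.2 * z.1 ≠ 0}
  | 4 => {z | z.2 * z.1 ≠ 0}
  | _ => {z | z.2 ≠ 0}

theorem inv_of_ne_inf {z : ℂ} : inv (of z) ≠ P1.inf ↔ z ≠ 0 := by
  constructor
  · rintro h rfl
    exact h P1.inv_zero
  · intro h
    rw [inv_of h]
    exact of_ne_inf _

theorem fin_inv_of {z : ℂ} (h : z ≠ 0) : fin (inv (of z)) = z⁻¹ := by
  rw [inv_of h, fin_of]

theorem mem_dom (k : ℕ) (hk : k < 6) (z : C2) :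
    rotn k (E0.symm z) ∈ E0.source ↔ z ∈ dom k := by
  have h1 : ∀ a : ℂ, of a ≠ P1.inf := of_ne_inf
  rcases z with ⟨a, b⟩
  interval_cases k
  · change (of a ≠ P1.inf ∧ of b ≠ P1.inf) ↔ True
    simp [h1]
  · change (of (b * a) ≠ P1.inf ∧ inv (of a) ≠ P1.inf) ↔ a ≠ 0
    rw [inv_of_ne_inf]; simp only [h1, ne_eq, not_false_eq_true, true_and]
  · change (of b ≠ P1.inf ∧ inv (of (b * a)) ≠ P1.inf) ↔ b * a ≠ 0
    rw [inv_of_ne_inf]; simp only [h1, ne_eq, not_false_eq_true, true_and]
  · change (inv (of a) ≠ P1.inf ∧ inv (of b) ≠ P1.inf) ↔ b * a ≠ 0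
    rw [inv_of_ne_inf, inv_of_ne_inf, mul_ne_zero_iff, and_comm]
  · change (inv (of (b * a)) ≠ P1.inf ∧ inv (inv (of a)) ≠ P1.inf) ↔ b * a ≠ 0
    rw [inv_of_ne_inf, P1.inv_inv]; simp only [h1, ne_eq, not_false_eq_true, and_true]
  · change (inv (of b) ≠ P1.inf ∧ inv (inv (of (b * a))) ≠ P1.inf) ↔ b ≠ 0
    rw [inv_of_ne_inf, P1.inv_inv]; simp only [h1, ne_eq, not_false_eq_true, and_true]

theorem tr_eq (k : ℕ) (hk : k < 6) (z : C2) (hz : z ∈ dom k) :
    E0 (rotn k (E0.symm z)) = tr k z := by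
  rcases z with ⟨a, b⟩
  interval_cases k
  · rfl
  · replace hz : a ≠ 0 := hz
    change (fin (of (b * a)), fin (inv (of a))) = (b * a, a⁻¹)
    rw [fin_inv_of hz]; rfl
  · replace hz : b * a ≠ 0 := hz
    change (fin (of b), fin (inv (of (b * a)))) = (b, (b * a)⁻¹)
    rw [fin_inv_of hz]; rfl
  · replace hz : b * a ≠ 0 := hz
    change (fin (inv (of a)), fin (inv (of b))) = (a⁻¹, b⁻¹)
    rw [fin_inv_of (left_ne_zero_of_mul hz), fin_inv_of (right_ne_zero_of_mul hz)]
  · replace hz : b * a ≠ 0 := hz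
    change (fin (inv (of (b * a))), fin (inv (inv (of a)))) = ((b * a)⁻¹, a)
    rw [fin_inv_of hz, P1.inv_inv]; rfl
  · replace hz : b ≠ 0 := hz
    change (fin (inv (of b)), fin (inv (inv (of (b * a))))) = (b⁻¹, b * a)
    rw [fin_inv_of hz, P1.inv_inv]; rfl

theorem isOpen_dom (k : ℕ) : IsOpen (dom k) := by
  rcases k with _ | _ | _ | _ | _ | k
  · exact isOpen_univ
  · exact isOpen_ne_fun continuous_fst continuous_const
  · exact isOpen_ne_fun (continuous_snd.mul continuous_fst) continuous_const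
  · exact isOpen_ne_fun (continuous_snd.mul continuous_fst) continuous_const
  · exact isOpen_ne_fun (continuous_snd.mul continuous_fst) continuous_const
  · exact isOpen_ne_fun continuous_snd continuous_const

theorem contDiffOn_tr (k : ℕ) : ContDiffOn ℂ ω (tr k) (dom k) := by
  rcases k with _ | _ | _ | _ | _ | k
  · exact contDiffOn_id
  · exact (contDiff_snd.mul contDiff_fst).contDiffOn.prodMk (contDiff_fst.contDiffOn.inv
      fun z hz => hz)
  · exact contDiff_snd.contDiffOn.prodMk ((contDiff_snd.mul contDiff_fst).contDiffOn.inv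
      fun z hz => hz)
  · exact (contDiff_fst.contDiffOn.inv fun z hz => right_ne_zero_of_mul hz).prodMk
      (contDiff_snd.contDiffOn.inv fun z hz => left_ne_zero_of_mul hz)
  · exact ((contDiff_snd.mul contDiff_fst).contDiffOn.inv
      fun z hz => hz).prodMk contDiff_fst.contDiffOn
  · exact (contDiff_snd.contDiffOn.inv
      fun z hz => hz).prodMk (contDiff_snd.mul contDiff_fst).contDiffOn

/-- index of the transition from chart `i` to chart `j` -/
def idx (i j : ℕ) : ℕ := (j + (6 - i)) % 6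

theorem idx_lt (i j : ℕ) : idx i j < 6 := Nat.mod_lt _ (by norm_num)

theorem E_trans (i j : ℕ) (hi : i < 6) (z : C2) :
    rotn j ((E i).symm z) = rotn (idx i j) (E0.symm z) := by
  rw [E_symm_apply, rotn_symm i hi.le, ← rotn_add, rotn_mod, idx]

theorem mem_source_iff (i j : ℕ) (hi : i < 6) (z : C2) :
    (E i).symm z ∈ (E j).source ↔ z ∈ dom (idx i j) := by
  rw [E_source, Set.mem_preimage, E_trans i j hi, mem_dom _ (idx_lt i j)]

theorem E_E_symm (i j : ℕ) (hi : i < 6) (z : C2) (hz : z ∈ dom (idx i j)) :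
    E j ((E i).symm z) = tr (idx i j) z := by
  rw [E_apply, E_trans i j hi, tr_eq _ (idx_lt i j) _ hz]

theorem contDiffOn_trans (i j : ℕ) (hi : i < 6) :
    ContDiffOn ℂ ω (fun z => E j ((E i).symm z)) {z | (E i).symm z ∈ (E j).source} := by
  have h : {z | (E i).symm z ∈ (E j).source} = dom (idx i j) := by
    ext z; exact mem_source_iff i j hi z
  rw [h]
  exact (contDiffOn_tr _).congr fun z hz => E_E_symm i j hi z hz

/-- the open polydisc `|z₁|², |z₂|² < 2` -/
def D : Set C2 := {z | Complex.normSq z.1 < 2 ∧ Complex.normSq z.2 < 2}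

theorem isOpen_D : IsOpen D :=
  (isOpen_lt (Complex.continuous_normSq.comp continuous_fst) continuous_const).inter
    (isOpen_lt (Complex.continuous_normSq.comp continuous_snd) continuous_const)

/-- the closed unit polydisc -/
def K : Set C2 := {z | Complex.normSq z.1 ≤ 1 ∧ Complex.normSq z.2 ≤ 1}

theorem K_subset_D : K ⊆ D := fun _ h => ⟨h.1.trans_lt (by norm_num), h.2.trans_lt (by norm_num)⟩

theorem isCompact_K : IsCompact K := by
  have h : K = Metric.closedBall (0 : ℂ) 1 ×ˢ Metric.closedBall (0 : ℂ) 1 := by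
    ext z
    simp only [K, mem_ofPred_eq, mem_prod, mem_closedBall_zero_iff, Complex.normSq_eq_norm_sq]
    simp only [sq_le_one_iff_abs_le_one, abs_norm]
  rw [h]
  exact (isCompact_closedBall _ _).prod (isCompact_closedBall _ _)

end X6

/-- `x` is finite of modulus at most one -/
def P1.small (x : P1) : Prop := ∃ z : ℂ, x = of z ∧ Complex.normSq z ≤ 1

theorem P1.small_or (x : P1) : P1.small x ∨ P1.small (inv x) := by
  rcases cases' x with rfl | ⟨z, rfl⟩
  · right; exact ⟨0, inv_inf, by simp⟩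
  · rcases le_or_gt (Complex.normSq z) 1 with h | h
    · left; exact ⟨z, rfl, h⟩
    · right
      have hz : z ≠ 0 := by rintro rfl; norm_num at h
      refine ⟨z⁻¹, inv_of hz, ?_⟩
      rw [Complex.normSq_inv]
      exact inv_le_one_of_one_le₀ h.le

theorem P1.small.ne {x : P1} (h : P1.small x) : x ≠ P1.inf := by
  obtain ⟨z, rfl, -⟩ := h; exact of_ne_inf z

theorem P1.small.le {x : P1} (h : P1.small x) : Complex.normSq (fin x) ≤ 1 := by
  obtain ⟨z, rfl, hz⟩ := h; exact hz

namespace X6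

theorem E0_of_small (p : X6) (hy : P1.small p.y) (hx : P1.small p.x) :
    p ∈ E0.source ∧ E0 p ∈ K := ⟨⟨hy.ne, hx.ne⟩, hy.le, hx.le⟩

/-- The six closed unit polydiscs cover `X`. -/
theorem cover (p : X6) : ∃ k < 6, p ∈ (E k).source ∧ E k p ∈ K := by
  have key : ∀ k : ℕ, P1.small (rotn k p).y → P1.small (rotn k p).x →
      p ∈ (E k).source ∧ E k p ∈ K := fun k hy hx => E0_of_small (rotn k p) hy hx
  rcases small_or p.x with hx | hx <;> rcases small_or p.y with hy | hy
  · exact ⟨0, by norm_num, key 0 hy hx⟩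
  · rcases small_or p.u with hu | hu
    · exact ⟨1, by norm_num, key 1 hu hy⟩
    · exact ⟨2, by norm_num, key 2 hx hu⟩
  · rcases small_or p.u with hu | hu
    · refine ⟨5, by norm_num, key 5 hx ?_⟩
      change P1.small (inv (inv p.u))
      rwa [P1.inv_inv]
    · refine ⟨4, by norm_num, key 4 hu ?_⟩
      change P1.small (inv (inv p.y))
      rwa [P1.inv_inv]
  · exact ⟨3, by norm_num, key 3 hy hx⟩

instance : CompactSpace X6 := by
  have h : (Set.univ : Set X6) = ⋃ k ∈ Finset.range 6, (E k).symm '' K := by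
    ext p
    simp only [mem_univ, Finset.mem_range, mem_iUnion, true_iff]
    obtain ⟨k, hk, h1, h2⟩ := cover p
    exact ⟨k, hk, E k p, h2, (E k).left_inv h1⟩
  refine ⟨?_⟩
  rw [h]
  refine (Finset.range 6).isCompact_biUnion fun k _ => isCompact_K.image_of_continuousOn ?_
  exact (E k).symm.continuousOn.mono fun z _ => by
    change z ∈ (E k).target
    rw [E_target]; trivial

/-- the point `(1, 1, 1)` -/
noncomputable def pt1 : X6 := mk (of 1) (of 1) (of 1) ((rel_of _ _ _).2 (by rw [mul_one]))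

theorem rot_pt1 : rot pt1 = pt1 := by
  have h : inv (of 1) = of 1 := by rw [inv_of one_ne_zero, inv_one]
  exact ext' h rfl rfl

theorem rotn_pt1 (n : ℕ) : rotn n pt1 = pt1 := by
  induction n with
  | zero => rfl
  | succ n ih => rw [rotn_succ, ih, rot_pt1]

theorem pt1_mem (n : ℕ) : pt1 ∈ (E n).source := by
  rw [E_source, mem_preimage, rotn_pt1]
  exact ⟨of_ne_inf _, of_ne_inf _⟩

instance : ConnectedSpace X6 := by
  have h : (Set.univ : Set X6) = ⋃ k : ℕ, (E k).symm '' Set.univ := by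
    ext p
    simp only [mem_univ, mem_iUnion, true_iff]
    obtain ⟨k, hk, h1, h2⟩ := cover p
    exact ⟨k, E k p, mem_univ _, (E k).left_inv h1⟩
  have hp : IsPreconnected (Set.univ : Set X6) := by
    rw [h]
    refine isPreconnected_iUnion ⟨pt1, mem_iInter.2 fun k => ?_⟩ fun k => ?_
    · exact ⟨E k pt1, mem_univ _, (E k).left_inv (pt1_mem k)⟩
    · refine isPreconnected_univ.image _ ?_
      exact (E k).symm.continuousOn.mono fun z _ => by
        change z ∈ (E k).target
        rw [E_target]; trivial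
  exact { isPreconnected_univ := hp, toNonempty := ⟨pt1⟩ }

/-- the restriction of the `k`-th chart to the polydisc -/
noncomputable def Ed (k : ℕ) : OpenPartialHomeomorph X6 C2 :=
  (E k).trans (OpenPartialHomeomorph.ofSet D isOpen_D)

theorem Ed_apply (k : ℕ) (p : X6) : Ed k p = E k p := rfl
theorem Ed_symm_apply (k : ℕ) (z : C2) : (Ed k).symm z = (E k).symm z := rfl
theorem mem_Ed_source (k : ℕ) (p : X6) : p ∈ (Ed k).source ↔ p ∈ (E k).source ∧ E k p ∈ D := by
  simp only [Ed, mfld_simps]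
theorem mem_Ed_target (k : ℕ) (z : C2) : z ∈ (Ed k).target ↔ z ∈ D := by
  simp only [Ed, mfld_simps]
  simp [E_target]

noncomputable instance : ChartedSpace C2 X6 where
  atlas := {e | ∃ k < 6, e = Ed k}
  chartAt p := Ed (cover p).choose
  mem_chart_source p := by
    have h := (cover p).choose_spec
    exact (mem_Ed_source _ _).2 ⟨h.2.1, K_subset_D h.2.2⟩
  chart_mem_atlas p := ⟨_, (cover p).choose_spec.1, rfl⟩

theorem mem_groupoid_of (e : OpenPartialHomeomorph C2 C2) (h1 : ContDiffOn ℂ ω e e.source)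
    (h2 : ContDiffOn ℂ ω e.symm e.target) : e ∈ contDiffGroupoid ω 𝓘(ℂ, C2) := by
  rw [contDiffGroupoid, mem_groupoid_of_pregroupoid]
  simpa [contDiffPregroupoid] using And.intro h1 h2

theorem trans_mem (i j : ℕ) (hi : i < 6) (hj : j < 6) (e : OpenPartialHomeomorph C2 C2)
    (h1 : ∀ z, e z = E j ((E i).symm z)) (h2 : ∀ z, e.symm z = E i ((E j).symm z))
    (h3 : ∀ z ∈ e.source, (E i).symm z ∈ (E j).source)
    (h4 : ∀ z ∈ e.target, (E j).symm z ∈ (E i).source) : e ∈ contDiffGroupoid ω 𝓘(ℂ, C2) :=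
  mem_groupoid_of e (((contDiffOn_trans i j hi).mono h3).congr fun z _ => h1 z)
    (((contDiffOn_trans j i hj).mono h4).congr fun z _ => h2 z)

instance : IsManifold 𝓘(ℂ, C2) ω X6 where
  compatible := by
    rintro e e' ⟨i, hi, rfl⟩ ⟨j, hj, rfl⟩
    refine trans_mem i j hi hj _ (fun z => rfl) (fun z => rfl) ?_ ?_
    · intro z hz
      simp only [mfld_simps] at hz
      exact ((mem_Ed_source j _).1 hz.2).1
    · intro z hz
      simp only [mfld_simps] at hz
      exact ((mem_Ed_source i _).1 hz.2).1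

theorem E_mem_maximalAtlas (i : ℕ) (hi : i < 6) : E i ∈ IsManifold.maximalAtlas 𝓘(ℂ, C2) ω X6 := by
  rw [IsManifold.mem_maximalAtlas_iff]
  rintro e' ⟨j, hj, rfl⟩
  constructor
  · refine trans_mem i j hi hj _ (fun z => rfl) (fun z => rfl) ?_ ?_
    · intro z hz
      simp only [mfld_simps] at hz
      exact ((mem_Ed_source j _).1 hz.2).1
    · intro z hz
      simp only [mfld_simps] at hz
      exact hz.2
  · refine trans_mem j i hj hi _ (fun z => rfl) (fun z => rfl) ?_ ?_
    · intro z hz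
      simp only [mfld_simps] at hz
      exact hz.2
    · intro z hz
      simp only [mfld_simps] at hz
      exact ((mem_Ed_source j _).1 hz.2).1

end X6

end Pool.Agent.H930R2
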