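import Pool.Agent.H930R2.Kahler

set_option autoImplicit false

/-! # Calculus with Wirtinger derivatives -/

open scoped Manifold ContDiff ComplexConjugate
open Complex

namespace Pool.Agent.H930R2

section

variable {f g : C2 → ℂ} {z : C2} (k : Fin 2)

theorem dz_add (hf : DifferentiableAt ℝ f z) (hg : DifferentiableAt ℝ g z) :
    dz k (fun w => f w + g w) z = dz k f z + dz k g z := by
  simp only [dz, fderiv_fun_add hf hg, add_apply]; ring

theorem dzb_add (hf : DifferentiableAt ℝ f z) (hg : DifferentiableAt ℝ g z) :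
    dzb k (fun w => f w + g w) z = dzb k f z + dzb k g z := by
  simp only [dzb, fderiv_fun_add hf hg, add_apply]; ring

theorem dz_sub (hf : DifferentiableAt ℝ f z) (hg : DifferentiableAt ℝ g z) :
    dz k (fun w => f w - g w) z = dz k f z - dz k g z := by
  simp only [dz, fderiv_fun_sub hf hg, sub_apply]; ring

theorem dzb_sub (hf : DifferentiableAt ℝ f z) (hg : DifferentiableAt ℝ g z) :
    dzb k (fun w => f w - g w) z = dzb k f z - dzb k g z := by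
  simp only [dzb, fderiv_fun_sub hf hg, sub_apply]; ring

theorem dz_mul (hf : DifferentiableAt ℝ f z) (hg : DifferentiableAt ℝ g z) :
    dz k (fun w => f w * g w) z = dz k f z * g z + f z * dz k g z := by
  simp only [dz, fderiv_fun_mul hf hg, add_apply,
    smul_apply, smul_eq_mul]; ring

theorem dzb_mul (hf : DifferentiableAt ℝ f z) (hg : DifferentiableAt ℝ g z) :
    dzb k (fun w => f w * g w) z = dzb k f z * g z + f z * dzb k g z := by
  simp only [dzb, fderiv_fun_mul hf hg, add_apply,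
    smul_apply, smul_eq_mul]; ring

theorem fderiv_inv_aux (hf : DifferentiableAt ℝ f z) (h0 : f z ≠ 0) (v : C2) :
    fderiv ℝ (fun w => (f w)⁻¹) z v = - fderiv ℝ f z v * ((f z)⁻¹ * (f z)⁻¹) := by
  have h1 : HasFDerivAt f (fderiv ℝ f z) z := hf.hasFDerivAt
  have h2 : HasFDerivAt (fun w => (f w)⁻¹)
      ((-ContinuousLinearMap.mulLeftRight ℝ ℂ (f z)⁻¹ (f z)⁻¹).comp (fderiv ℝ f z)) z :=
    (hasFDerivAt_inv' (𝕜 := ℝ) h0).comp z h1
  rw [h2.fderiv]
  simp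
  ring

theorem dz_inv (hf : DifferentiableAt ℝ f z) (h0 : f z ≠ 0) :
    dz k (fun w => (f w)⁻¹) z = - dz k f z * ((f z)⁻¹ * (f z)⁻¹) := by
  simp only [dz, fderiv_inv_aux hf h0]; ring

theorem dzb_inv (hf : DifferentiableAt ℝ f z) (h0 : f z ≠ 0) :
    dzb k (fun w => (f w)⁻¹) z = - dzb k f z * ((f z)⁻¹ * (f z)⁻¹) := by
  simp only [dzb, fderiv_inv_aux hf h0]; ring

theorem dz_const (c : ℂ) : dz k (fun _ => c) z = 0 := by simp [dz]
theorem dzb_const (c : ℂ) : dzb k (fun _ => c) z = 0 := by simp [dzb]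

end

theorem hasFDerivAt_fst' (z : C2) :
    HasFDerivAt (fun w : C2 => w.1) (ContinuousLinearMap.fst ℝ ℂ ℂ) z := hasFDerivAt_fst
theorem hasFDerivAt_snd' (z : C2) :
    HasFDerivAt (fun w : C2 => w.2) (ContinuousLinearMap.snd ℝ ℂ ℂ) z := hasFDerivAt_snd

theorem hasFDerivAt_cfst (z : C2) : HasFDerivAt (fun w : C2 => conj w.1)
    ((conjCLE : ℂ →L[ℝ] ℂ).comp (ContinuousLinearMap.fst ℝ ℂ ℂ)) z :=
  (conjCLE : ℂ →L[ℝ] ℂ).hasFDerivAt.comp z (hasFDerivAt_fst' z)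
theorem hasFDerivAt_csnd (z : C2) : HasFDerivAt (fun w : C2 => conj w.2)
    ((conjCLE : ℂ →L[ℝ] ℂ).comp (ContinuousLinearMap.snd ℝ ℂ ℂ)) z :=
  (conjCLE : ℂ →L[ℝ] ℂ).hasFDerivAt.comp z (hasFDerivAt_snd' z)

theorem dz_fst (k : Fin 2) (z : C2) : dz k (fun w => w.1) z = if k = 0 then 1 else 0 := by
  rw [dz, (hasFDerivAt_fst' z).fderiv]
  fin_cases k
  · simp [bas]
  · simp [bas]
theorem dz_snd (k : Fin 2) (z : C2) : dz k (fun w => w.2) z = if k = 0 then 0 else 1 := by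
  rw [dz, (hasFDerivAt_snd' z).fderiv]
  fin_cases k
  · simp [bas]
  · simp [bas]
theorem dzb_fst (k : Fin 2) (z : C2) : dzb k (fun w => w.1) z = 0 := by
  rw [dzb, (hasFDerivAt_fst' z).fderiv]
  fin_cases k <;> simp [bas]
theorem dzb_snd (k : Fin 2) (z : C2) : dzb k (fun w => w.2) z = 0 := by
  rw [dzb, (hasFDerivAt_snd' z).fderiv]
  fin_cases k <;> simp [bas]
theorem dz_cfst (k : Fin 2) (z : C2) : dz k (fun w => conj w.1) z = 0 := by
  rw [dz, (hasFDerivAt_cfst z).fderiv]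
  fin_cases k <;> simp [bas]
theorem dz_csnd (k : Fin 2) (z : C2) : dz k (fun w => conj w.2) z = 0 := by
  rw [dz, (hasFDerivAt_csnd z).fderiv]
  fin_cases k <;> simp [bas]
theorem dzb_cfst (k : Fin 2) (z : C2) :
    dzb k (fun w => conj w.1) z = if k = 0 then 1 else 0 := by
  rw [dzb, (hasFDerivAt_cfst z).fderiv]
  fin_cases k <;> simp [bas]
theorem dzb_csnd (k : Fin 2) (z : C2) :
    dzb k (fun w => conj w.2) z = if k = 0 then 0 else 1 := by
  rw [dzb, (hasFDerivAt_csnd z).fderiv]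
  fin_cases k <;> simp [bas]

/-- The mixed derivatives of a potential `P` up to order two in `z` and order two in `z̄`. -/
structure PotJets where
  P : C2 → ℂ
  B : Fin 2 → C2 → ℂ
  B' : Fin 2 → C2 → ℂ
  C : Fin 2 → Fin 2 → C2 → ℂ
  S : Fin 2 → Fin 2 → C2 → ℂ
  S' : Fin 2 → Fin 2 → C2 → ℂ
  R : Fin 2 → Fin 2 → Fin 2 → C2 → ℂ
  R' : Fin 2 → Fin 2 → Fin 2 → C2 → ℂ
  Q : Fin 2 → Fin 2 → Fin 2 → Fin 2 → C2 → ℂ
  ne : ∀ z, P z ≠ 0
  dP : Differentiable ℝ P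
  dB : ∀ i, Differentiable ℝ (B i)
  dB' : ∀ i, Differentiable ℝ (B' i)
  dC : ∀ i j, Differentiable ℝ (C i j)
  dS' : ∀ i j, Differentiable ℝ (S' i j)
  dR' : ∀ i j l, Differentiable ℝ (R' i j l)
  zP : ∀ k z, dz k P z = B k z
  bP : ∀ k z, dzb k P z = B' k z
  zB : ∀ k i z, dz k (B i) z = S i k z
  bB : ∀ k i z, dzb k (B i) z = C i k z
  zB' : ∀ k j z, dz k (B' j) z = C k j z
  bB' : ∀ k j z, dzb k (B' j) z = S' j k z
  zC : ∀ k i j z, dz k (C i j) z = R i k j z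
  bC : ∀ k i j z, dzb k (C i j) z = R' i j k z
  zS' : ∀ k j l z, dz k (S' j l) z = R' k j l z
  zR' : ∀ k i j l z, dz k (R' i j l) z = Q i k j l z

namespace PotJets

variable (p : PotJets)

/-- the metric coefficients `∂_i ∂̄_j log P` -/
noncomputable def G (z : C2) : Matrix (Fin 2) (Fin 2) ℂ :=
  fun i j => (p.P z * p.C i j z - p.B i z * p.B' j z) * ((p.P z)⁻¹ * (p.P z)⁻¹)

theorem dzG (k i j : Fin 2) (z : C2) : dz k (fun w => p.G w i j) z =
    (p.P z * p.R i k j z + p.B k z * p.C i j z - p.S i k z * p.B' j z - p.B i z * p.C k j z) *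
      (p.P z)⁻¹ ^ 2 -
    2 * p.B k z * (p.P z * p.C i j z - p.B i z * p.B' j z) * (p.P z)⁻¹ ^ 3 := by
  have h0 := p.ne z
  have e1 := (p.dP z)
  have e2 := (p.dC i j z)
  have e3 := (p.dB i z)
  have e4 := (p.dB' j z)
  have e5 := (p.dP z).fun_inv h0
  simp only [G]
  rw [dz_mul k ((e1.fun_mul e2).fun_sub (e3.fun_mul e4)) (e5.fun_mul e5), dz_sub k (e1.fun_mul e2) (e3.fun_mul e4),
    dz_mul k e1 e2, dz_mul k e3 e4, dz_mul k e5 e5, dz_inv k e1 h0]
  rw [p.zP, p.zC, p.zB, p.zB']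
  ring

theorem dzbG (l i j : Fin 2) (z : C2) : dzb l (fun w => p.G w i j) z =
    (p.P z * p.R' i j l z + p.B' l z * p.C i j z - p.C i l z * p.B' j z - p.B i z * p.S' j l z) *
      (p.P z)⁻¹ ^ 2 -
    2 * p.B' l z * (p.P z * p.C i j z - p.B i z * p.B' j z) * (p.P z)⁻¹ ^ 3 := by
  have h0 := p.ne z
  have e1 := (p.dP z)
  have e2 := (p.dC i j z)
  have e3 := (p.dB i z)
  have e4 := (p.dB' j z)
  have e5 := (p.dP z).fun_inv h0
  simp only [G]
  rw [dzb_mul l ((e1.fun_mul e2).fun_sub (e3.fun_mul e4)) (e5.fun_mul e5), dzb_sub l (e1.fun_mul e2) (e3.fun_mul e4),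
    dzb_mul l e1 e2, dzb_mul l e3 e4, dzb_mul l e5 e5, dzb_inv l e1 h0]
  rw [p.bP, p.bC, p.bB, p.bB']
  ring

theorem dzdzbG (k l i j : Fin 2) (z : C2) :
    dz k (fun w => dzb l (fun w' => p.G w' i j) w) z =
    (p.B k z * p.R' i j l z + p.P z * p.Q i k j l z + p.C k l z * p.C i j z +
        p.B' l z * p.R i k j z - p.R i k l z * p.B' j z - p.C i l z * p.C k j z -
        p.S i k z * p.S' j l z - p.B i z * p.R' k j l z) * (p.P z)⁻¹ ^ 2 -
    2 * p.B k z * (p.P z * p.R' i j l z + p.B' l z * p.C i j z - p.C i l z * p.B' j z -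
        p.B i z * p.S' j l z) * (p.P z)⁻¹ ^ 3 -
    2 * (p.C k l z * (p.P z * p.C i j z - p.B i z * p.B' j z) +
        p.B' l z * (p.B k z * p.C i j z + p.P z * p.R i k j z - p.S i k z * p.B' j z -
          p.B i z * p.C k j z)) * (p.P z)⁻¹ ^ 3 +
    6 * p.B' l z * p.B k z * (p.P z * p.C i j z - p.B i z * p.B' j z) * (p.P z)⁻¹ ^ 4 := by
  have h0 := p.ne z
  have e1 := (p.dP z)
  have e2 := (p.dC i j z)
  have e3 := (p.dB i z)
  have e4 := (p.dB' j z)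
  have e5 := (p.dP z).fun_inv h0
  have e6 := (p.dR' i j l z)
  have e7 := (p.dB' l z)
  have e8 := (p.dC i l z)
  have e9 := (p.dS' j l z)
  have hfun : (fun w => dzb l (fun w' => p.G w' i j) w) = fun w =>
      (p.P w * p.R' i j l w + p.B' l w * p.C i j w - p.C i l w * p.B' j w -
        p.B i w * p.S' j l w) * ((p.P w)⁻¹ * (p.P w)⁻¹) -
      (p.B' l w * (p.P w * p.C i j w - p.B i w * p.B' j w)) *
        ((p.P w)⁻¹ * ((p.P w)⁻¹ * (p.P w)⁻¹)) -
      (p.B' l w * (p.P w * p.C i j w - p.B i w * p.B' j w)) *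
        ((p.P w)⁻¹ * ((p.P w)⁻¹ * (p.P w)⁻¹)) := by
    funext w
    rw [p.dzbG]; ring
  rw [hfun]
  have f1 := (((e1.fun_mul e6).fun_add (e7.fun_mul e2)).fun_sub (e8.fun_mul e4)).fun_sub (e3.fun_mul e9)
  have f2 := e7.fun_mul ((e1.fun_mul e2).fun_sub (e3.fun_mul e4))
  have f3 := e5.fun_mul (e5.fun_mul e5)
  rw [dz_sub k ((f1.fun_mul (e5.fun_mul e5)).fun_sub (f2.fun_mul f3)) (f2.fun_mul f3),
    dz_sub k (f1.fun_mul (e5.fun_mul e5)) (f2.fun_mul f3), dz_mul k f1 (e5.fun_mul e5), dz_mul k f2 f3,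
    dz_mul k e5 (e5.fun_mul e5), dz_mul k e5 e5, dz_inv k e1 h0,
    dz_sub k (((e1.fun_mul e6).fun_add (e7.fun_mul e2)).fun_sub (e8.fun_mul e4)) (e3.fun_mul e9),
    dz_sub k ((e1.fun_mul e6).fun_add (e7.fun_mul e2)) (e8.fun_mul e4), dz_add k (e1.fun_mul e6) (e7.fun_mul e2),
    dz_mul k e1 e6, dz_mul k e7 e2, dz_mul k e8 e4, dz_mul k e3 e9,
    dz_mul k e7 ((e1.fun_mul e2).fun_sub (e3.fun_mul e4)), dz_sub k (e1.fun_mul e2) (e3.fun_mul e4),
    dz_mul k e1 e2, dz_mul k e3 e4]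
  rw [p.zP, p.zC, p.zC, p.zB, p.zB', p.zB', p.zR', p.zS']
  ring

end PotJets

end Pool.Agent.H930R2
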