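import Pool.Agent.H308R2.ZS.Stubs

set_option autoImplicit false

open scoped ComplexConjugate Kronecker Matrix.Norms.L2Operator

namespace Pool.Agent.H308R2.ZS.T_FAI

open Pool.Agent.H923R2.FP Pool.Agent.H923R2.FZ Pool.Agent.H308R2.ZS

theorem t_FAI : S_FAI := by
  intro H _ _ _ A Ω hden htr X hX h0
  have hinner : ∀ (T : H →L[ℂ] H) (u w : H), inner ℂ u ((star T) w) = inner ℂ (T u) w := by
    intro T u w
    rw [ContinuousLinearMap.star_eq_adjoint]
    exact ContinuousLinearMap.adjoint_inner_right T u w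
  have hXs : star X * X = star X * X := rfl
  -- star X Ω = 0
  have h1 : inner ℂ (star X Ω) (star X Ω) = (0 : ℂ) := by
    have e1 : inner ℂ Ω ((X * star X) Ω) = inner ℂ Ω ((star X * X) Ω) :=
      htr X hX (star X) (star_mem hX)
    have e2 : inner ℂ Ω ((X * star X) Ω) = inner ℂ (star X Ω) (star X Ω) := by
      have := hinner (star X) Ω (star X Ω)
      rw [star_star] at this
      exact this
    rw [← e2, e1, h0]
  have h2 : star X Ω = 0 := inner_self_eq_zero.mp h1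
  have h3 : ∀ Y ∈ A, X (Y Ω) = 0 := by
    intro Y hY
    have e3 : inner ℂ (X (Y Ω)) (X (Y Ω)) = (0 : ℂ) := by
      -- ⟨XYΩ, XYΩ⟩ = ⟨Ω, Y* X* X Y Ω⟩ = ⟨Ω, Y Y* X* X Ω⟩... use tr with (Y* X* X) and Y... 
      have a1 : inner ℂ (X (Y Ω)) (X (Y Ω)) = inner ℂ Ω (((star Y * star X) * (X * Y)) Ω) := by
        have b1 := hinner X (Y Ω) (X (Y Ω))
        have b2 := hinner Y Ω (star X (X (Y Ω)))
        rw [← b1, ← b2]
        rfl
      have a2 := htr (star Y * star X) (mul_mem (star_mem hY) (star_mem hX)) (X * Y)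
        (mul_mem hX hY)
      have a3 : ((X * Y) * (star Y * star X)) Ω = 0 := by
        show X (Y (star Y (star X Ω))) = 0
        rw [h2, map_zero, map_zero, map_zero]
      rw [a1, a2, a3, inner_zero_right]
    exact inner_self_eq_zero.mp e3
  refine ContinuousLinearMap.ext fun u => ?_
  show X u = 0
  by_contra hne
  have hpos : 0 < ‖X u‖ := norm_pos_iff.mpr hne
  have hXpos : 0 < ‖X‖ + 1 := by positivity
  obtain ⟨Y, hY, hYu⟩ := hden u (‖X u‖ / (‖X‖ + 1)) (by positivity)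
  have e4 : ‖X u‖ ≤ ‖X‖ * ‖Y Ω - u‖ := by
    have : X u = - X (Y Ω - u) := by
      rw [map_sub, h3 Y hY, zero_sub, neg_neg]
    rw [this, norm_neg]
    exact X.le_opNorm _
  have e5 : ‖X‖ * ‖Y Ω - u‖ ≤ ‖X‖ * (‖X u‖ / (‖X‖ + 1)) :=
    mul_le_mul_of_nonneg_left hYu.le (norm_nonneg _)
  have e6 : ‖X‖ * (‖X u‖ / (‖X‖ + 1)) < ‖X u‖ := by
    rw [← mul_div_assoc, div_lt_iff₀ hXpos]
    nlinarith [norm_nonneg X]
  linarith

end Pool.Agent.H308R2.ZS.T_FAI
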